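import Pool.Agent.Work.MP_6dc561_ds.Interface

/-!
# Block ANC: analytic continuation from summatory asymptotics
-/

set_option autoImplicit false

open Filter Topology MeasureTheory Asymptotics

namespace Pool.DS

namespace ANC

/-- summatory function -/
noncomputable def S (a : ℕ → ℝ) (t : ℝ) : ℝ := ∑ k ∈ Finset.Icc 1 ⌊t⌋₊, a k

/-- error function -/
noncomputable def E (a : ℕ → ℝ) (A : ℝ) : ℝ → ℂ :=
  (Set.Ioi (1 : ℝ)).indicator (fun t => ((S a t - A * t : ℝ) : ℂ))

variable {a : ℕ → ℝ} {A C θ : ℝ}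

theorem S_mono (ha : ∀ n, 0 ≤ a n) : Monotone (S a) := by
  intro s t hst
  unfold S
  apply Finset.sum_le_sum_of_subset_of_nonneg
  · exact Finset.Icc_subset_Icc_right (Nat.floor_le_floor hst)
  · intro i _ _
    exact ha i

theorem locInt (ha : ∀ n, 0 ≤ a n) : LocallyIntegrable (E a A) volume := by
  have h1 : LocallyIntegrable (fun t => S a t - A * t) volume :=
    (S_mono ha).locallyIntegrable.sub (Continuous.locallyIntegrable (by fun_prop))
  unfold E
  have h2 : LocallyIntegrable (fun t => ((S a t - A * t : ℝ) : ℂ)) volume := by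
    rw [locallyIntegrable_iff]
    intro k hk
    exact ((locallyIntegrable_iff.1 h1) k hk).ofReal
  exact h2.indicator measurableSet_Ioi

theorem E_bound (hθ : 0 ≤ θ)
    (hC : ∀ n : ℕ, 1 ≤ n → |(∑ k ∈ Finset.Icc 1 n, a k) - A * n| ≤ C * (n : ℝ) ^ θ)
    {t : ℝ} (ht : 1 < t) : |S a t - A * t| ≤ (|C| + |A|) * t ^ θ := by
  have h1 : 1 ≤ ⌊t⌋₊ := Nat.le_floor (by exact_mod_cast ht.le)
  have h2 := hC _ h1
  have h3 : (⌊t⌋₊ : ℝ) ≤ t := Nat.floor_le (by linarith)
  have h4 : t < ⌊t⌋₊ + 1 := Nat.lt_floor_add_one t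
  have h5 : ((⌊t⌋₊ : ℝ)) ^ θ ≤ t ^ θ := Real.rpow_le_rpow (by positivity) h3 hθ
  have h6 : 1 ≤ t ^ θ := Real.one_le_rpow ht.le hθ
  have h7 : C * (⌊t⌋₊ : ℝ) ^ θ ≤ |C| * t ^ θ := by
    calc C * (⌊t⌋₊ : ℝ) ^ θ ≤ |C| * (⌊t⌋₊ : ℝ) ^ θ :=
          mul_le_mul_of_nonneg_right (le_abs_self C) (by positivity)
      _ ≤ |C| * t ^ θ := mul_le_mul_of_nonneg_left h5 (abs_nonneg C)
  have h8 : |A * ⌊t⌋₊ - A * t| ≤ |A| := by
    rw [← mul_sub, abs_mul]
    have : |(⌊t⌋₊ : ℝ) - t| ≤ 1 := by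
      rw [abs_le]
      constructor <;> linarith
    calc |A| * |(⌊t⌋₊ : ℝ) - t| ≤ |A| * 1 := mul_le_mul_of_nonneg_left this (abs_nonneg A)
      _ = |A| := mul_one _
  have h9 : |A| ≤ |A| * t ^ θ := le_mul_of_one_le_right (abs_nonneg A) h6
  have h10 : S a t - A * t = ((∑ k ∈ Finset.Icc 1 ⌊t⌋₊, a k) - A * ⌊t⌋₊) +
      (A * ⌊t⌋₊ - A * t) := by
    unfold S
    ring
  rw [h10]
  calc _ ≤ |(∑ k ∈ Finset.Icc 1 ⌊t⌋₊, a k) - A * ⌊t⌋₊| + |A * ⌊t⌋₊ - A * t| := abs_add_le _ _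
    _ ≤ |C| * t ^ θ + |A| * t ^ θ := by linarith
    _ = (|C| + |A|) * t ^ θ := by ring

theorem E_top (hθ : 0 ≤ θ)
    (hC : ∀ n : ℕ, 1 ≤ n → |(∑ k ∈ Finset.Icc 1 n, a k) - A * n| ≤ C * (n : ℝ) ^ θ) :
    E a A =O[atTop] (fun t : ℝ => t ^ (-(-θ))) := by
  refine IsBigO.of_bound (|C| + |A|) ?_
  filter_upwards [eventually_gt_atTop (1 : ℝ)] with t ht
  unfold E
  rw [Set.indicator_of_mem (show t ∈ Set.Ioi (1 : ℝ) from ht), Complex.norm_real,
    Real.norm_eq_abs, neg_neg, Real.norm_eq_abs,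
    abs_of_nonneg (Real.rpow_nonneg (by linarith) θ)]
  exact E_bound hθ hC ht

theorem E_bot (b : ℝ) : E a A =O[𝓝[>] 0] (fun t : ℝ => t ^ (-b)) := by
  refine IsBigO.of_bound 0 ?_
  have : ∀ᶠ t : ℝ in 𝓝[>] 0, t < 1 := by
    apply eventually_nhdsWithin_of_eventually_nhds
    exact eventually_lt_nhds one_pos
  filter_upwards [this] with t ht
  unfold E
  rw [Set.indicator_of_notMem (by simp only [Set.mem_Ioi, not_lt]; exact ht.le), norm_zero, zero_mul]

theorem sum_bigO (hθ1 : θ < 1)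
    (hC : ∀ n : ℕ, 1 ≤ n → |(∑ k ∈ Finset.Icc 1 n, a k) - A * n| ≤ C * (n : ℝ) ^ θ) :
    (fun n : ℕ => ∑ k ∈ Finset.Icc 1 n, a k) =O[atTop] fun n : ℕ => (n : ℝ) ^ (1 : ℝ) := by
  refine IsBigO.of_bound (|C| + |A|) ?_
  filter_upwards [eventually_ge_atTop 1] with n hn
  have hn' : (1 : ℝ) ≤ n := by exact_mod_cast hn
  have h1 := hC n hn
  have h2 : (n : ℝ) ^ θ ≤ n := by
    calc (n : ℝ) ^ θ ≤ (n : ℝ) ^ (1 : ℝ) := Real.rpow_le_rpow_of_exponent_le hn' hθ1.le
      _ = n := Real.rpow_one _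
  have h3 : C * (n : ℝ) ^ θ ≤ |C| * n := by
    calc C * (n : ℝ) ^ θ ≤ |C| * (n : ℝ) ^ θ :=
          mul_le_mul_of_nonneg_right (le_abs_self C) (by positivity)
      _ ≤ |C| * n := mul_le_mul_of_nonneg_left h2 (abs_nonneg C)
  rw [Real.rpow_one, Real.norm_eq_abs, Real.norm_eq_abs, abs_of_nonneg (by linarith : (0:ℝ) ≤ n)]
  have h4 : |A * n| = |A| * n := by rw [abs_mul, abs_of_nonneg (by linarith : (0:ℝ) ≤ n)]
  calc |∑ k ∈ Finset.Icc 1 n, a k| = |((∑ k ∈ Finset.Icc 1 n, a k) - A * n) + A * n| := by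
        congr 1; ring
    _ ≤ |(∑ k ∈ Finset.Icc 1 n, a k) - A * n| + |A * n| := abs_add_le _ _
    _ ≤ |C| * n + |A| * n := by linarith
    _ = (|C| + |A|) * n := by ring

end ANC

open ANC in
theorem stmt_ANC : Stmt_ANC := by
  intro a A C θ hθ hθ1 ha hC
  have hO := sum_bigO hθ1 hC
  refine ⟨fun s hs => LSeriesSummable_of_sum_norm_bigO_and_nonneg hO ha zero_le_one hs, ?_⟩
  refine ⟨fun s => A + s * mellin (E a A) (-s), ?_, ?_⟩
  · intro s hs
    have hs' : θ < s.re := hs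
    have h1 : DifferentiableAt ℂ (mellin (E a A)) (-s) := by
      refine mellin_differentiableAt_of_isBigO_rpow (a := -θ) (b := (-s).re - 1)
        ((locInt ha).locallyIntegrableOn _) (E_top hθ hC) ?_ (E_bot _) (by linarith)
      simp only [Complex.neg_re]
      linarith
    have h2 : DifferentiableAt ℂ (fun s => mellin (E a A) (-s)) s :=
      DifferentiableAt.comp (g := mellin (E a A)) (f := fun s : ℂ => -s) s h1 differentiableAt_id.neg
    exact (((differentiableAt_const _).add (differentiableAt_id.mul h2))).differentiableWithinAt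
  · intro s hs
    have h1 := LSeries_eq_mul_integral_of_nonneg a zero_le_one hs hO ha
    have hs1 : s - 1 ≠ 0 := by
      intro h
      rw [sub_eq_zero] at h
      rw [h] at hs
      simp at hs
    have hm : MellinConvergent (E a A) (-s) := by
      refine mellinConvergent_of_isBigO_rpow (a := -θ) (b := (-s).re - 1)
        ((locInt ha).locallyIntegrableOn _) (E_top hθ hC) ?_ (E_bot _) (by linarith)
      simp only [Complex.neg_re]
      linarith
    have hm' : IntegrableOn (fun t : ℝ => (t : ℂ) ^ (-s - 1) • E a A t) (Set.Ioi 1) :=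
      IntegrableOn.mono_set hm (Set.Ioi_subset_Ioi zero_le_one)
    have h2 : ∫ t in Set.Ioi (1 : ℝ), (∑ k ∈ Finset.Icc 1 ⌊t⌋₊, (a k : ℂ)) * (t : ℂ) ^ (-(s + 1)) =
        (∫ t in Set.Ioi (1 : ℝ), (A : ℂ) * (t : ℂ) ^ (-s)) +
          ∫ t in Set.Ioi (1 : ℝ), (t : ℂ) ^ (-s - 1) • E a A t := by
      rw [← integral_add]
      · refine setIntegral_congr_fun measurableSet_Ioi fun t ht => ?_
        have ht0 : (t : ℂ) ≠ 0 := by
          have : (0 : ℝ) < t := lt_trans one_pos ht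
          exact_mod_cast this.ne'
        simp only [E, Set.indicator_of_mem ht, smul_eq_mul, S]
        have e1 : (t : ℂ) ^ (-s) = (t : ℂ) ^ (-s - 1) * t := by
          rw [Complex.cpow_sub _ _ ht0, Complex.cpow_one]
          field_simp
        rw [e1, show -(s + 1) = -s - 1 by ring]
        push_cast
        ring
      · refine Integrable.const_mul ?_ _
        exact integrableOn_Ioi_cpow_of_lt (by simp; linarith) one_pos
      · exact hm'
    have h3 : ∫ t in Set.Ioi (1 : ℝ), (A : ℂ) * (t : ℂ) ^ (-s) = A / (s - 1) := by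
      rw [integral_const_mul, integral_Ioi_cpow_of_lt (by simp; linarith) one_pos]
      have : -s + 1 ≠ 0 := by
        intro h
        apply hs1
        linear_combination -h
      rw [Complex.ofReal_one, Complex.one_cpow]
      field_simp
      ring
    have h4 : ∫ t in Set.Ioi (1 : ℝ), (t : ℂ) ^ (-s - 1) • E a A t = mellin (E a A) (-s) := by
      unfold mellin
      symm
      rw [← integral_indicator measurableSet_Ioi, ← integral_indicator measurableSet_Ioi]
      congr 1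
      ext t
      by_cases h : t ∈ Set.Ioi (1 : ℝ)
      · have h' : t ∈ Set.Ioi (0 : ℝ) := Set.mem_Ioi.2 (lt_trans one_pos (Set.mem_Ioi.1 h))
        rw [Set.indicator_of_mem h, Set.indicator_of_mem h']
      · rw [Set.indicator_of_notMem h]
        have : E a A t = 0 := Set.indicator_of_notMem h _
        by_cases h' : t ∈ Set.Ioi (0 : ℝ)
        · rw [Set.indicator_of_mem h', this, smul_zero]
        · rw [Set.indicator_of_notMem h']
    rw [h1, h2, h3, h4]
    field_simp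
    ring

end Pool.DS
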