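import Pool.Agent.Work.MP_6dc561_ds.Interface

/-!
# Block BES: Bessel's inequality for asymptotically orthogonal functions
-/

set_option autoImplicit false

open Filter Topology

namespace Pool.DS

namespace BES

variable {V ι : Type}

/-- The mean as a linear functional -/
noncomputable def mean (c : ℝ) (T : Finset V) : (V → ℝ) →ₗ[ℝ] ℝ where
  toFun a := c * ∑ v ∈ T, a v
  map_add' a b := by simp [Finset.sum_add_distrib, mul_add]
  map_smul' t a := by
    simp only [Pi.smul_apply, smul_eq_mul, RingHom.id_apply, ← Finset.mul_sum]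
    ring

theorem mean_apply (c : ℝ) (T : Finset V) (a : V → ℝ) : mean c T a = c * ∑ v ∈ T, a v := rfl

theorem mean_mono {c : ℝ} (hc : 0 ≤ c) (T : Finset V) {a b : V → ℝ} (h : ∀ v, a v ≤ b v) :
    mean c T a ≤ mean c T b :=
  mul_le_mul_of_nonneg_left (Finset.sum_le_sum fun v _ => h v) hc

theorem expand (E : (V → ℝ) →ₗ[ℝ] ℝ) (g : V → ℝ) (u : ι → V → ℝ) (α : ℝ) (β : ι → ℝ)
    (S : Finset ι) :
    E (fun v => (g v - α - ∑ i ∈ S, β i * u i v) ^ 2) = E (fun v => g v * g v) +
      (α ^ 2 * E (fun _ => 1) - 2 * α * E g - 2 * (∑ i ∈ S, β i * E (fun v => u i v * g v)) +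
        2 * α * (∑ i ∈ S, β i * E (u i)) +
        ∑ i ∈ S, ∑ j ∈ S, β i * β j * E (fun v => u i v * u j v)) := by
  have h : (fun v => (g v - α - ∑ i ∈ S, β i * u i v) ^ 2) = (fun v => g v * g v) +
      (α ^ 2 • (fun _ => (1 : ℝ)) - (2 * α) • g - (2 : ℝ) • (∑ i ∈ S, β i • (fun v => u i v * g v)) +
        (2 * α) • (∑ i ∈ S, β i • (u i)) +
        ∑ i ∈ S, ∑ j ∈ S, (β i * β j) • (fun v => u i v * u j v)) := by
    funext v
    simp only [Pi.add_apply, Pi.sub_apply, Pi.smul_apply, Finset.sum_apply, smul_eq_mul]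
    have h1 : ∑ i ∈ S, β i * (u i v * g v) = (∑ i ∈ S, β i * u i v) * g v := by
      rw [Finset.sum_mul]
      exact Finset.sum_congr rfl fun i _ => by ring
    have h2 : ∑ i ∈ S, ∑ j ∈ S, β i * β j * (u i v * u j v) =
        (∑ i ∈ S, β i * u i v) * (∑ i ∈ S, β i * u i v) := by
      rw [Finset.sum_mul_sum]
      exact Finset.sum_congr rfl fun i _ => Finset.sum_congr rfl fun j _ => by ring
    rw [h1, h2]
    ring
  rw [h]
  simp only [map_add, map_sub, map_smul, map_sum, smul_eq_mul]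

theorem partA (T : ℝ → Finset V) (c : ℝ → ℝ) (M : ℝ) (g : V → ℝ) (e : ι → V → ℝ)
    (r : ι → ℝ) (l : Filter ℝ) (L : ι → ℝ) (hl : l.NeBot) (hg : ∀ v, |g v| ≤ M)
    (hc : ∀ x, 0 ≤ c x) (hr : ∀ i, 1 ≤ r i)
    (h1 : Tendsto (fun x => c x * (T x).card) l (𝓝 1))
    (h2 : ∀ i, Tendsto (fun x => c x * ∑ v ∈ T x, e i v) l (𝓝 1))
    (h3 : ∀ i j, i ≠ j → Tendsto (fun x => c x * ∑ v ∈ T x, e i v * e j v) l (𝓝 1))
    (h4 : ∀ i, Tendsto (fun x => c x * ∑ v ∈ T x, e i v * e i v) l (𝓝 (r i)))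
    (h5 : ∀ i, Tendsto (fun x => c x * ∑ v ∈ T x, e i v * g v) l (𝓝 (L i)))
    (L₀ : ℝ) (h6 : Tendsto (fun x => c x * ∑ v ∈ T x, g v) l (𝓝 L₀)) :
    Summable (fun i => (L i - L₀) ^ 2 / (r i - 1)) ∧
      L₀ ^ 2 + ∑' i, (L i - L₀) ^ 2 / (r i - 1) ≤ M ^ 2 := by
  classical
  have hone : Tendsto (fun x => mean (c x) (T x) (fun _ => 1)) l (𝓝 1) := by
    refine h1.congr fun x => ?_
    rw [mean_apply]
    simp
  have hu : ∀ i, Tendsto (fun x => mean (c x) (T x) (fun v => e i v - 1)) l (𝓝 0) := by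
    intro i
    have := (h2 i).sub hone
    rw [sub_self] at this
    refine this.congr fun x => ?_
    rw [← mean_apply, ← map_sub]
    rfl
  have hug : ∀ i, Tendsto (fun x => mean (c x) (T x) (fun v => (e i v - 1) * g v)) l
      (𝓝 (L i - L₀)) := by
    intro i
    refine ((h5 i).sub h6).congr fun x => ?_
    rw [← mean_apply, ← mean_apply, ← map_sub]
    congr 1
    funext v
    simp only [Pi.sub_apply]
    ring
  have huu : ∀ i j, Tendsto (fun x => mean (c x) (T x) (fun v => (e i v - 1) * (e j v - 1))) l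
      (𝓝 (if i = j then r i - 1 else 0)) := by
    intro i j
    have key : ∀ ρ : ℝ, Tendsto (fun x => c x * ∑ v ∈ T x, e i v * e j v) l (𝓝 ρ) →
        Tendsto (fun x => mean (c x) (T x) (fun v => (e i v - 1) * (e j v - 1))) l
          (𝓝 (ρ - 1)) := by
      intro ρ hρ
      have h := ((hρ.sub (h2 i)).sub (h2 j)).add hone
      rw [show ρ - 1 - 1 + 1 = ρ - 1 by ring] at h
      refine h.congr fun x => ?_
      rw [← mean_apply, ← mean_apply, ← mean_apply, ← map_sub, ← map_sub, ← map_add]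
      congr 1
      funext v
      simp only [Pi.sub_apply, Pi.add_apply]
      ring
    by_cases hij : i = j
    · subst hij
      rw [if_pos rfl]
      exact key _ (h4 i)
    · rw [if_neg hij]
      have := key _ (h3 i j hij)
      rwa [sub_self] at this
  have main : ∀ S : Finset ι, L₀ ^ 2 + ∑ i ∈ S, (L i - L₀) ^ 2 / (r i - 1) ≤ M ^ 2 := by
    intro S
    set β : ι → ℝ := fun i => (L i - L₀) / (r i - 1) with hβ
    have hlim : Tendsto (fun x => M ^ 2 * mean (c x) (T x) (fun _ => 1) +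
        (L₀ ^ 2 * mean (c x) (T x) (fun _ => 1) - 2 * L₀ * mean (c x) (T x) g -
          2 * (∑ i ∈ S, β i * mean (c x) (T x) (fun v => (e i v - 1) * g v)) +
          2 * L₀ * (∑ i ∈ S, β i * mean (c x) (T x) (fun v => e i v - 1)) +
          ∑ i ∈ S, ∑ j ∈ S, β i * β j *
            mean (c x) (T x) (fun v => (e i v - 1) * (e j v - 1)))) l
        (𝓝 (M ^ 2 * 1 + (L₀ ^ 2 * 1 - 2 * L₀ * L₀ - 2 * (∑ i ∈ S, β i * (L i - L₀)) +
          2 * L₀ * (∑ i ∈ S, β i * 0) +
          ∑ i ∈ S, ∑ j ∈ S, β i * β j * (if i = j then r i - 1 else 0)))) := by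
      refine (hone.const_mul _).add ?_
      refine Tendsto.add (Tendsto.add (Tendsto.sub (Tendsto.sub (hone.const_mul _)
        (Tendsto.const_mul _ h6)) ?_) ?_) ?_
      · exact Tendsto.const_mul _ (tendsto_finsetSum _ fun i _ => (hug i).const_mul _)
      · exact Tendsto.const_mul _ (tendsto_finsetSum _ fun i _ => (hu i).const_mul _)
      · exact tendsto_finsetSum _ fun i _ => tendsto_finsetSum _ fun j _ =>
          (huu i j).const_mul _
    have hnn : ∀ x, 0 ≤ M ^ 2 * mean (c x) (T x) (fun _ => 1) +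
        (L₀ ^ 2 * mean (c x) (T x) (fun _ => 1) - 2 * L₀ * mean (c x) (T x) g -
          2 * (∑ i ∈ S, β i * mean (c x) (T x) (fun v => (e i v - 1) * g v)) +
          2 * L₀ * (∑ i ∈ S, β i * mean (c x) (T x) (fun v => e i v - 1)) +
          ∑ i ∈ S, ∑ j ∈ S, β i * β j *
            mean (c x) (T x) (fun v => (e i v - 1) * (e j v - 1))) := by
      intro x
      have ha := expand (mean (c x) (T x)) g (fun i v => e i v - 1) L₀ β S
      have hb : 0 ≤ mean (c x) (T x) (fun v => (g v - L₀ - ∑ i ∈ S, β i * (e i v - 1)) ^ 2) :=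
        mul_nonneg (hc x) (Finset.sum_nonneg fun v _ => sq_nonneg _)
      have hd : mean (c x) (T x) (fun v => g v * g v) ≤
          M ^ 2 * mean (c x) (T x) (fun _ => 1) := by
        rw [← smul_eq_mul, ← map_smul]
        refine mean_mono (hc x) _ fun v => ?_
        simp only [Pi.smul_apply, smul_eq_mul, mul_one]
        have := hg v
        have h0 := abs_nonneg (g v)
        rw [← sq, ← sq_abs]
        exact pow_le_pow_left₀ h0 this 2
      linarith
    have hfin := ge_of_tendsto' hlim hnn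
    have e1 : ∑ i ∈ S, ∑ j ∈ S, β i * β j * (if i = j then r i - 1 else 0) =
        ∑ i ∈ S, (L i - L₀) ^ 2 / (r i - 1) := by
      refine Finset.sum_congr rfl fun i hi => ?_
      rw [Finset.sum_eq_single i]
      · rw [if_pos rfl, hβ]
        by_cases h0 : r i - 1 = 0
        · simp [h0]
        · field_simp
      · intro j _ hj
        rw [if_neg (Ne.symm hj), mul_zero]
      · intro h
        exact absurd hi h
    have e2 : ∑ i ∈ S, β i * (L i - L₀) = ∑ i ∈ S, (L i - L₀) ^ 2 / (r i - 1) := by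
      refine Finset.sum_congr rfl fun i hi => ?_
      rw [hβ]
      ring
    rw [e1, e2] at hfin
    simp only [mul_zero, Finset.sum_const_zero] at hfin
    linarith
  have hpos : ∀ i, 0 ≤ (L i - L₀) ^ 2 / (r i - 1) := fun i =>
    div_nonneg (sq_nonneg _) (by linarith [hr i])
  have hsum : ∀ S : Finset ι, ∑ i ∈ S, (L i - L₀) ^ 2 / (r i - 1) ≤ M ^ 2 - L₀ ^ 2 :=
    fun S => by linarith [main S]
  refine ⟨summable_of_sum_le hpos hsum, ?_⟩
  have := Real.tsum_le_of_sum_le hpos hsum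
  linarith

end BES

open BES in
theorem stmt_BES : Stmt_BES := by
  intro V T c M g ι e r l L hl hg hc hr h1 h2 h3 h4 h5
  refine ⟨fun L₀ h6 => partA T c M g e r l L hl hg hc hr h1 h2 h3 h4 h5 L₀ h6, ?_⟩
  intro hns
  set Q : ℝ → ℝ := fun x => c x * ∑ v ∈ T x, g v with hQ
  have hQb : ∀ x, |Q x| ≤ M * (c x * (T x).card) := by
    intro x
    rw [hQ]
    simp only []
    rw [abs_mul, abs_of_nonneg (hc x)]
    have : |∑ v ∈ T x, g v| ≤ (T x).card * M := by
      calc |∑ v ∈ T x, g v| ≤ ∑ v ∈ T x, |g v| := Finset.abs_sum_le_sum_abs _ _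
        _ ≤ ∑ v ∈ T x, M := Finset.sum_le_sum fun v _ => hg v
        _ = (T x).card * M := by rw [Finset.sum_const, nsmul_eq_mul]
    calc c x * |∑ v ∈ T x, g v| ≤ c x * ((T x).card * M) :=
          mul_le_mul_of_nonneg_left this (hc x)
      _ = _ := by ring
  have hbd : ∀ᶠ x in l, Q x ∈ Set.Icc (-(|M| * 2)) (|M| * 2) := by
    filter_upwards [h1.eventually (gt_mem_nhds (show (1 : ℝ) < 2 by norm_num))] with x hx
    rw [Set.mem_Icc, ← abs_le]
    have h0 : 0 ≤ c x * (T x).card := mul_nonneg (hc x) (Nat.cast_nonneg _)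
    calc |Q x| ≤ M * (c x * (T x).card) := hQb x
      _ ≤ |M| * (c x * (T x).card) := mul_le_mul_of_nonneg_right (le_abs_self M) h0
      _ ≤ |M| * 2 := mul_le_mul_of_nonneg_left hx.le (abs_nonneg M)
  have hlim : ∀ u : Ultrafilter ℝ, (u : Filter ℝ) ≤ l → ∃ q, Tendsto Q u (𝓝 q) := by
    intro u hu
    have h := isCompact_Icc.ultrafilter_le_nhds (u.map Q)
      (show (u.map Q : Filter ℝ) ≤ 𝓟 (Set.Icc (-(|M| * 2)) (|M| * 2)) by
        rw [le_principal_iff]
        exact hu hbd)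
    obtain ⟨q, _, hq⟩ := h
    exact ⟨q, hq⟩
  have hsumq : ∀ u : Ultrafilter ℝ, (u : Filter ℝ) ≤ l → ∀ q, Tendsto Q u (𝓝 q) →
      Summable (fun i => (L i - q) ^ 2 / (r i - 1)) := by
    intro u hu q hq
    exact (partA T c M g e r u L u.neBot hg hc hr (h1.mono_left hu)
      (fun i => (h2 i).mono_left hu) (fun i j hij => (h3 i j hij).mono_left hu)
      (fun i => (h4 i).mono_left hu) (fun i => (h5 i).mono_left hu) q hq).1
  have huniq : ∀ u u' : Ultrafilter ℝ, (u : Filter ℝ) ≤ l → (u' : Filter ℝ) ≤ l →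
      ∀ q q', Tendsto Q u (𝓝 q) → Tendsto Q u' (𝓝 q') → q = q' := by
    intro u u' hu hu' q q' hq hq'
    by_contra hne
    apply hns
    have hs := (hsumq u hu q hq).add (hsumq u' hu' q' hq')
    have hd : 0 < (q - q') ^ 2 := by
      have : q - q' ≠ 0 := sub_ne_zero.2 hne
      positivity
    have hs' := hs.mul_left (2 / (q - q') ^ 2)
    refine Summable.of_nonneg_of_le (fun i => ?_) (fun i => ?_) hs'
    · exact div_nonneg zero_le_one (by linarith [hr i])
    · have hri : 0 ≤ r i - 1 := by linarith [hr i]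
      rw [← add_div, ← mul_div_assoc]
      refine div_le_div_of_nonneg_right ?_ hri
      rw [div_mul_eq_mul_div, le_div_iff₀ hd]
      nlinarith [sq_nonneg (L i - q + (L i - q'))]
  obtain ⟨q, hq⟩ := hlim (Ultrafilter.of l) (Ultrafilter.of_le l)
  refine ⟨q, ?_⟩
  rw [tendsto_iff_ultrafilter]
  intro u hu
  obtain ⟨q', hq'⟩ := hlim u hu
  rw [huniq (Ultrafilter.of l) u (Ultrafilter.of_le l) hu q q' hq hq']
  exact hq'

end Pool.DS
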