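import Pool.Agent.Work.MP_6dc561_ds.Interface

/-!
# CNT: counting lattice points in a dilated set, uniformly in a shift
-/

set_option autoImplicit false

open MeasureTheory Metric Module
open scoped ENNReal NNReal Pointwise

namespace Pool.DS.CNT

variable {E : Type} [NormedAddCommGroup E] [NormedSpace ℝ E]

/-- a segment from a point of `S` to a point outside meets the frontier -/
theorem exists_frontier {S : Set E} {p q : E} (hp : p ∈ S) (hq : q ∉ S) :
    ∃ r ∈ segment ℝ p q, r ∈ frontier S := by
  by_contra hcon
  push Not at hcon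
  have hsub : segment ℝ p q ⊆ interior S ∪ (closure S)ᶜ := by
    intro r hr
    by_contra hr2
    rw [Set.mem_union, not_or, Set.mem_compl_iff, not_not] at hr2
    exact hcon r hr ⟨hr2.2, hr2.1⟩
  have hpre : IsPreconnected (segment ℝ p q) := (convex_segment p q).isPreconnected
  have hpi : p ∈ interior S := by
    rcases hsub (left_mem_segment ℝ p q) with h | h
    · exact h
    · exact absurd (subset_closure hp) h
  have h := hpre.subset_left_of_subset_union isOpen_interior isClosed_closure.isOpen_compl
    (by
      rw [Set.disjoint_left]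
      intro x hx hx2
      exact hx2 (subset_closure (interior_subset hx))) hsub
    ⟨p, left_mem_segment ℝ p q, hpi⟩
  exact hq (interior_subset (h (right_mem_segment ℝ p q)))

/-- a point close to a point on the other side is close to the frontier of the dilated set -/
theorem mem_thick {X : Set E} {t δ : ℝ} (ht : 0 < t) {p q : E}
    (h : (p ∈ t • X ∧ q ∉ t • X) ∨ (p ∉ t • X ∧ q ∈ t • X)) (hd : dist p q < δ) :
    p ∈ t • thickening (δ / t) (frontier X) := by
  obtain ⟨r, hr1, hr2⟩ : ∃ r ∈ segment ℝ p q, r ∈ frontier (t • X) := by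
    rcases h with h | h
    · exact exists_frontier h.1 h.2
    · obtain ⟨r, hr, hr2⟩ := exists_frontier h.2 h.1
      exact ⟨r, by rwa [segment_symm], hr2⟩
  have hfr : frontier (t • X) = t • frontier X := by
    have := (Homeomorph.smulOfNeZero t ht.ne' (α := E)).image_frontier X
    exact this.symm
  rw [hfr] at hr2
  obtain ⟨s, hs, rfl⟩ := hr2
  refine ⟨t⁻¹ • p, ?_, smul_inv_smul₀ ht.ne' p⟩
  rw [mem_thickening_iff]
  refine ⟨s, hs, ?_⟩
  have h1 : dist p (t • s) ≤ dist p q := by
    rw [segment_eq_image'] at hr1
    obtain ⟨a, ha, hra⟩ := hr1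
    have hra' : t • s = p + a • (q - p) := hra.symm
    rw [hra', dist_eq_norm, dist_eq_norm, sub_add_cancel_left, norm_neg, norm_smul,
      Real.norm_of_nonneg ha.1, norm_sub_rev q p]
    exact mul_le_of_le_one_left (norm_nonneg _) ha.2
  have h2 : dist (t⁻¹ • p) s = t⁻¹ * dist p (t • s) := by
    rw [dist_eq_norm, dist_eq_norm, ← norm_smul_of_nonneg (inv_nonneg.mpr ht.le), smul_sub,
      inv_smul_smul₀ ht.ne']
  rw [h2, lt_div_iff₀ ht]
  calc t⁻¹ * dist p (t • s) * t = dist p (t • s) := by field_simp
    _ ≤ dist p q := h1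
    _ < δ := hd

end Pool.DS.CNT

namespace Pool.DS

open CNT in
theorem stmt_CNT : Stmt_CNT := by
  classical
  intro E _ _ _ _ _ μ _ L _ _ X hXb hXm ⟨C, hC⟩
  -- the fundamental domain
  set b := (Module.Free.chooseBasis ℤ L) with hb
  set bR := b.ofZLatticeBasis ℝ L with hbR
  have hspan : Submodule.span ℤ (Set.range bR) = L := b.ofZLatticeBasis_span ℝ
  set D := ZSpan.fundamentalDomain bR with hD
  have hDm : MeasurableSet D := ZSpan.fundamentalDomain_measurableSet bR
  have hcov : ZLattice.covolume L μ = μ.real D :=
    ZLattice.covolume_eq_measure_fundamentalDomain L μ (ZLattice.isAddFundamentalDomain b μ)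
  have hcovpos : 0 < ZLattice.covolume L μ := ZLattice.covolume_pos L μ
  set δ : ℝ := (∑ i, ‖bR i‖) + 1 with hδ
  have hδpos : 0 < δ := by positivity
  have hfr : ∀ x, ‖ZSpan.fract bR x‖ < δ := fun x =>
    lt_of_le_of_lt (ZSpan.norm_fract_le bR x) (by rw [hδ]; linarith)
  obtain ⟨R, hRpos, hR⟩ : ∃ R : ℝ, 0 < R ∧ ∀ x ∈ X, ‖x‖ ≤ R := by
    obtain ⟨R, hR⟩ := isBounded_iff_forall_norm_le.mp hXb
    exact ⟨max R 1, by positivity, fun x hx => (hR x hx).trans (le_max_left _ _)⟩
  set V : ℝ := μ.real (closedBall (0 : E) (δ * R + δ)) with hV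
  have hV0 : 0 ≤ V := measureReal_nonneg
  set K : ℝ := max (|C| * δ) V with hK
  refine ⟨K / ZLattice.covolume L μ, fun t ht y => ?_⟩
  have htpos : 0 < t := by linarith
  -- the lattice points
  set Z : Set L := {z : L | (z : E) + y ∈ t • X} with hZ
  have htX : ∀ x ∈ t • X, ‖x‖ ≤ t * R := by
    rintro _ ⟨x, hx, rfl⟩
    rw [norm_smul, Real.norm_of_nonneg htpos.le]
    exact mul_le_mul_of_nonneg_left (hR x hx) htpos.le
  have hZfin : Z.Finite := by
    have h1 : (closedBall (0 : E) (t * R + ‖y‖) ∩ (L : Set E)).Finite := by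
      have := ZSpan.setFinite_inter bR (isBounded_closedBall (x := (0 : E)) (r := t * R + ‖y‖))
      rwa [hspan] at this
    refine Set.Finite.of_finite_image (f := fun z : L => (z : E)) (h1.subset ?_)
      Subtype.val_injective.injOn
    rintro _ ⟨z, hz, rfl⟩
    refine ⟨?_, z.2⟩
    rw [mem_closedBall_zero_iff]
    have h2 := htX _ hz
    have h3 : ‖(z : E)‖ ≤ ‖(z : E) + y‖ + ‖y‖ := by
      have := norm_sub_le ((z : E) + y) y
      rwa [add_sub_cancel_right] at this
    linarith
  have hcard : Nat.card {z : L // (z : E) + y ∈ t • X} = hZfin.toFinset.card := by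
    rw [← Nat.card_eq_card_finite_toFinset hZfin]
    rfl
  -- the union of the translates
  set U : Set E := ⋃ z ∈ hZfin.toFinset, ((z : E) + y) +ᵥ D with hU
  have hmemU : ∀ p, p ∈ U ↔ ∃ z ∈ Z, p - y - z ∈ D := by
    intro p
    rw [hU]
    simp only [Set.mem_iUnion, Set.Finite.mem_toFinset, exists_prop]
    refine exists_congr fun z => and_congr_right fun _ => ?_
    rw [Set.mem_vadd_set_iff_neg_vadd_mem, vadd_eq_add]
    have : -((z : E) + y) + p = p - y - z := by abel
    rw [this]
  have huniq : ∀ (z z' : L) (p : E), p - z ∈ D → p - z' ∈ D → z = z' := by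
    intro z z' p h1 h2
    have e1 : ZSpan.fract bR (p - z) = ZSpan.fract bR p := by
      rw [sub_eq_neg_add]
      exact ZSpan.fract_zSpan_add bR p (by rw [hspan]; exact L.neg_mem z.2)
    have e2 : ZSpan.fract bR (p - z') = ZSpan.fract bR p := by
      rw [sub_eq_neg_add]
      exact ZSpan.fract_zSpan_add bR p (by rw [hspan]; exact L.neg_mem z'.2)
    rw [ZSpan.fract_eq_self.mpr h1] at e1
    rw [ZSpan.fract_eq_self.mpr h2] at e2
    apply Subtype.ext
    have := e1.trans e2.symm
    exact sub_right_injective this
  have hUm : MeasurableSet U := by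
    refine Finset.measurableSet_biUnion _ fun z _ => ?_
    exact hDm.const_vadd _
  have hUμ : μ.real U = hZfin.toFinset.card * ZLattice.covolume L μ := by
    have hd1 : (hZfin.toFinset : Set L).PairwiseDisjoint fun z => ((z : E) + y) +ᵥ D := by
      intro z _ z' _ hzz
      rw [Function.onFun, Set.disjoint_left]
      intro p hp hp'
      apply hzz
      rw [Set.mem_vadd_set_iff_neg_vadd_mem, vadd_eq_add] at hp hp'
      refine huniq z z' (p - y) ?_ ?_
      · have : -((z : E) + y) + p = p - y - z := by abel
        rwa [this] at hp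
      · have : -((z' : E) + y) + p = p - y - z' := by abel
        rwa [this] at hp'
    have hd2 : ∀ z ∈ hZfin.toFinset, MeasurableSet (((z : E) + y) +ᵥ D) :=
      fun z _ => hDm.const_vadd _
    have hd3 : ∀ z ∈ hZfin.toFinset, μ (((z : E) + y) +ᵥ D) ≠ ⊤ := by
      intro z _
      rw [measure_vadd]
      exact ((ZSpan.fundamentalDomain_isBounded bR).measure_lt_top).ne
    rw [hU, measureReal_biUnion_finset hd1 hd2 hd3,
      Finset.sum_congr rfl (g := fun _ => ZLattice.covolume L μ), Finset.sum_const, nsmul_eq_mul]
    intro z _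
    rw [hcov, measureReal_def, measureReal_def, measure_vadd]
  -- symmetric difference
  have hdec : ∀ p : E, ∃ z : L, p - y - z ∈ D ∧ dist p ((z : E) + y) < δ := by
    intro p
    have hfl : ((ZSpan.floor bR (p - y) : Submodule.span ℤ (Set.range bR)) : E) ∈ L :=
      hspan.le (ZSpan.floor bR (p - y)).2
    refine ⟨⟨_, hfl⟩, ?_, ?_⟩
    · exact ZSpan.fract_mem_fundamentalDomain bR (p - y)
    · have h2 := hfr (p - y)
      rw [ZSpan.fract_apply] at h2
      rw [dist_eq_norm]
      have e : p - ((ZSpan.floor bR (p - y) : E) + y) = p - y - ZSpan.floor bR (p - y) := by abel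
      rw [e]
      exact h2
  have hsub1 : U \ (t • X) ⊆ t • thickening (δ / t) (frontier X) := by
    rintro p ⟨hpU, hpX⟩
    obtain ⟨z, hz, hzD⟩ := (hmemU p).mp hpU
    obtain ⟨z', hz', hd⟩ := hdec p
    have := huniq z z' (p - y) hzD hz'
    subst this
    exact mem_thick htpos (Or.inr ⟨hpX, hz⟩) hd
  have hsub2 : (t • X) \ U ⊆ t • thickening (δ / t) (frontier X) := by
    rintro p ⟨hpX, hpU⟩
    obtain ⟨z', hz', hd⟩ := hdec p
    have hzX : (z' : E) + y ∉ t • X := fun h => hpU ((hmemU p).mpr ⟨z', h, hz'⟩)
    exact mem_thick htpos (Or.inl ⟨hpX, hzX⟩) hd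
  have hXtop : μ X ≠ ⊤ := hXb.measure_lt_top.ne
  have htXμ : μ.real (t • X) = μ.real X * t ^ finrank ℝ E := by
    rw [measureReal_def, Measure.addHaar_smul, ENNReal.toReal_mul,
      ENNReal.toReal_ofReal (abs_nonneg _), abs_of_pos (pow_pos htpos _), measureReal_def, mul_comm]
  have htXm : MeasurableSet (t • X) := hXm.const_smul₀ t
  have hUb : U ⊆ closedBall 0 (t * R + δ) := by
    intro p hp
    obtain ⟨z, hz, hzD⟩ := (hmemU p).mp hp
    obtain ⟨z', hz', hd⟩ := hdec p
    have := huniq z z' (p - y) hzD hz'
    subst this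
    have h1 := htX _ hz
    rw [mem_closedBall_zero_iff]
    rw [dist_eq_norm] at hd
    have h3 : ‖p‖ ≤ ‖(z : E) + y‖ + ‖p - ((z : E) + y)‖ := by
      have := norm_add_le ((z : E) + y) (p - ((z : E) + y))
      rwa [add_sub_cancel] at this
    linarith
  have htXb : t • X ⊆ closedBall 0 (t * R + δ) := by
    intro p hp
    rw [mem_closedBall_zero_iff]
    have := htX p hp
    linarith
  have hUtop : μ U ≠ ⊤ := ((measure_mono hUb).trans_lt measure_closedBall_lt_top).ne
  have htXtop : μ (t • X) ≠ ⊤ := ((measure_mono htXb).trans_lt measure_closedBall_lt_top).ne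
  -- the main estimate
  have hmain : |μ.real U - μ.real (t • X)| ≤ K * t ^ (finrank ℝ E - 1) := by
    rcases le_or_gt δ t with hcase | hcase
    · have hle : μ.real (t • thickening (δ / t) (frontier X)) ≤
          |C| * δ * t ^ (finrank ℝ E - 1) := by
        have h1 : μ (t • thickening (δ / t) (frontier X)) ≤
            ENNReal.ofReal (|C| * δ * t ^ (finrank ℝ E - 1)) := by
          rw [Measure.addHaar_smul, abs_of_pos (pow_pos htpos _)]
          have h2 := hC (δ / t) (by positivity) ((div_le_one htpos).mpr hcase)
          calc ENNReal.ofReal (t ^ finrank ℝ E) * μ (thickening (δ / t) (frontier X))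
              ≤ ENNReal.ofReal (t ^ finrank ℝ E) * ENNReal.ofReal (C * (δ / t)) := by gcongr
            _ = ENNReal.ofReal (t ^ finrank ℝ E * (C * (δ / t))) := by
                rw [ENNReal.ofReal_mul (p := t ^ finrank ℝ E) (by positivity)]
            _ ≤ ENNReal.ofReal (|C| * δ * t ^ (finrank ℝ E - 1)) := by
                apply ENNReal.ofReal_le_ofReal
                rcases Nat.eq_zero_or_pos (finrank ℝ E) with h0 | h0
                · rw [h0]
                  simp only [pow_zero, one_mul, zero_tsub, mul_one]
                  have h3 : C * (δ / t) ≤ |C| * (δ / t) :=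
                    mul_le_mul_of_nonneg_right (le_abs_self C) (by positivity)
                  have h4 : |C| * (δ / t) ≤ |C| * δ :=
                    mul_le_mul_of_nonneg_left (div_le_self hδpos.le ht) (abs_nonneg C)
                  exact h3.trans h4
                · obtain ⟨n, hn⟩ : ∃ n, finrank ℝ E = n + 1 := ⟨finrank ℝ E - 1, by omega⟩
                  rw [hn, Nat.add_sub_cancel]
                  have h5 : t ^ (n + 1) * (C * (δ / t)) = C * δ * t ^ n := by
                    rw [pow_succ]
                    field_simp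
                  rw [h5]
                  have : C * δ ≤ |C| * δ := mul_le_mul_of_nonneg_right (le_abs_self C) hδpos.le
                  exact mul_le_mul_of_nonneg_right this (by positivity)
        have h6 := ENNReal.toReal_mono ENNReal.ofReal_ne_top h1
        rwa [ENNReal.toReal_ofReal (by positivity)] at h6
      have hthtop : μ (t • thickening (δ / t) (frontier X)) ≠ ⊤ := by
        have h7 : Bornology.IsBounded (t • thickening (δ / t) (frontier X)) := by
          have : Bornology.IsBounded (frontier X) :=
            hXb.closure.subset (frontier_subset_closure)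
          exact this.thickening.smul₀ t
        exact h7.measure_lt_top.ne
      have e1 : μ.real U ≤ μ.real (t • X) + μ.real (t • thickening (δ / t) (frontier X)) := by
        refine le_trans (measureReal_mono (s₂ := (t • X) ∪ t • thickening (δ / t) (frontier X)) ?_ ?_)
          (measureReal_union_le _ _)
        · intro p hp
          by_cases h : p ∈ t • X
          · exact Or.inl h
          · exact Or.inr (hsub1 ⟨hp, h⟩)
        · exact measure_union_ne_top htXtop hthtop
      have e2 : μ.real (t • X) ≤ μ.real U + μ.real (t • thickening (δ / t) (frontier X)) := by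
        refine le_trans (measureReal_mono (s₂ := U ∪ t • thickening (δ / t) (frontier X)) ?_ ?_)
          (measureReal_union_le _ _)
        · intro p hp
          by_cases h : p ∈ U
          · exact Or.inl h
          · exact Or.inr (hsub2 ⟨hp, h⟩)
        · exact measure_union_ne_top hUtop hthtop
      have h8 : |C| * δ * t ^ (finrank ℝ E - 1) ≤ K * t ^ (finrank ℝ E - 1) :=
        mul_le_mul_of_nonneg_right (le_max_left _ _) (by positivity)
      rw [abs_le]
      constructor <;> linarith
    · have hsubV : closedBall (0 : E) (t * R + δ) ⊆ closedBall (0 : E) (δ * R + δ) := by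
        apply closedBall_subset_closedBall
        have := mul_le_mul_of_nonneg_right hcase.le hRpos.le
        linarith
      have e1 : μ.real U ≤ V := measureReal_mono (hUb.trans hsubV) measure_closedBall_lt_top.ne
      have e2 : μ.real (t • X) ≤ V :=
        measureReal_mono (htXb.trans hsubV) measure_closedBall_lt_top.ne
      have e3 : 0 ≤ μ.real U := measureReal_nonneg
      have e4 : 0 ≤ μ.real (t • X) := measureReal_nonneg
      have h8 : V ≤ K * t ^ (finrank ℝ E - 1) := by
        have h9 : V ≤ K := le_max_right _ _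
        have h10 : 1 ≤ t ^ (finrank ℝ E - 1) := one_le_pow₀ ht
        have hK0 : 0 ≤ K := hV0.trans h9
        nlinarith
      rw [abs_le]
      constructor <;> linarith
  rw [hcard]
  have hfinal : ((hZfin.toFinset.card : ℕ) : ℝ) -
      μ.real X / ZLattice.covolume L μ * t ^ finrank ℝ E =
      (μ.real U - μ.real (t • X)) / ZLattice.covolume L μ := by
    rw [hUμ, htXμ]
    field_simp
  rw [hfinal, abs_div, abs_of_pos hcovpos, div_mul_eq_mul_div]
  exact div_le_div_of_nonneg_right hmain hcovpos.le

end Pool.DS
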