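import Pool.Agent.Work.MP_6dc561_ds.Interface

/-! Block DG1 (helper17): primes of relative degree at least two are rare -/

set_option autoImplicit false

open NumberField IsDedekindDomain Ideal Polynomial Filter Topology

namespace Pool.DS

namespace DG1

/-- a prime number in a prime of `K` -/
theorem norm_pow {F : Type} [Field F] [NumberField F] (v : HeightOneSpectrum (𝓞 F)) :
    ∃ p n : ℕ, 0 < n ∧ (p : 𝓞 F) ∈ v.asIdeal ∧ p.Prime ∧ absNorm v.asIdeal = p ^ n := by
  haveI := v.isMaximal
  exact Ideal.exists_prime_and_absNorm_eq_pow v.asIdeal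

theorem norm_below (F : Type) [Field F] [NumberField F] {K : Type} [Field K] [NumberField K]
    [Algebra F K] (w : HeightOneSpectrum (𝓞 K)) :
    ∃ f : ℕ, absNorm (below F w).asIdeal ^ f = absNorm w.asIdeal := by
  haveI := w.isPrime
  haveI : w.asIdeal.LiesOver (below F w).asIdeal := ⟨rfl⟩
  exact ⟨_, Ideal.absNorm_pow_inertiaDeg (below F w).asIdeal w.asIdeal⟩

/-- the number of primes of `K` which contain the prime number `p` -/
theorem card_over (K : Type) [Field K] [NumberField K] {p : ℕ} (hp : p.Prime) :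
    ∃ S : Finset (HeightOneSpectrum (𝓞 K)), (∀ w, (p : 𝓞 K) ∈ w.asIdeal → w ∈ S) ∧
      S.card ≤ Module.finrank ℚ K := by
  classical
  have hpi : Prime (p : ℤ) := Nat.prime_iff_prime_int.mp hp
  have hp0 : (Ideal.span {(p : ℤ)} : Ideal ℤ) ≠ ⊥ := by
    rw [Ne, Ideal.span_singleton_eq_bot]
    exact hpi.ne_zero
  haveI hmax : (Ideal.span {(p : ℤ)} : Ideal ℤ).IsMaximal :=
    ((Ideal.span_singleton_prime hpi.ne_zero).mpr hpi).isMaximal hp0
  have hcard := Ideal.card_primesOverFinset_le_finrank (𝓞 K) ℚ K hp0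
  have hmem : ∀ w : HeightOneSpectrum (𝓞 K), (p : 𝓞 K) ∈ w.asIdeal →
      w.asIdeal ∈ IsDedekindDomain.primesOverFinset (Ideal.span {(p : ℤ)}) (𝓞 K) := by
    intro w hw
    rw [IsDedekindDomain.mem_primesOverFinset_iff hp0]
    refine ⟨w.isPrime, ⟨?_⟩⟩
    haveI := w.isPrime
    apply hmax.eq_of_le
    · exact (Ideal.comap_isPrime (algebraMap ℤ (𝓞 K)) w.asIdeal).ne_top
    · rw [Ideal.span_singleton_le_iff_mem, Ideal.mem_comap, map_natCast]
      exact hw
  have hinj : Set.InjOn (fun w : HeightOneSpectrum (𝓞 K) => w.asIdeal)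
      {w | (p : 𝓞 K) ∈ w.asIdeal} := fun w _ w' _ h => HeightOneSpectrum.ext h
  have hfin : {w : HeightOneSpectrum (𝓞 K) | (p : 𝓞 K) ∈ w.asIdeal}.Finite := by
    apply Set.Finite.of_finite_image _ hinj
    apply (IsDedekindDomain.primesOverFinset (Ideal.span {(p : ℤ)}) (𝓞 K)).finite_toSet.subset
    rintro _ ⟨w, hw, rfl⟩
    exact hmem w hw
  refine ⟨hfin.toFinset, fun w hw => by rwa [Set.Finite.mem_toFinset], ?_⟩
  refine le_trans ?_ hcard
  apply Finset.card_le_card_of_injOn (fun w => w.asIdeal)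
  · intro w hw
    rw [Set.Finite.coe_toFinset] at hw
    exact hmem w hw
  · rw [Set.Finite.coe_toFinset]
    exact hinj

/-- the exceptional primes -/
theorem bad_card (F : Type) [Field F] [NumberField F] (K : Type) [Field K] [NumberField K]
    [Algebra F K] (x : ℝ) (hx : 0 ≤ x) :
    ∀ B : Finset (HeightOneSpectrum (𝓞 K)), (∀ w ∈ B, w ∈ upTo K x ∧
      absNorm w.asIdeal ≠ absNorm (below F w).asIdeal) →
    (B.card : ℝ) ≤ Module.finrank ℚ K * Real.sqrt x := by
  classical
  intro B hB
  choose S hS hScard using fun p : {p : ℕ // p.Prime} => card_over K p.2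
  have hsub : B ⊆ (Finset.range (⌊Real.sqrt x⌋₊ + 1)).biUnion
      (fun p => if h : p.Prime then S ⟨p, h⟩ else ∅) := by
    intro w hw
    obtain ⟨hwx, hne⟩ := hB w hw
    obtain ⟨p, n, hn, hpm, hp, hpn⟩ := norm_pow (below F w)
    obtain ⟨f, hf⟩ := norm_below F w
    have hpw : (p : 𝓞 K) ∈ w.asIdeal := by
      have h1 : algebraMap (𝓞 F) (𝓞 K) (p : 𝓞 F) ∈ w.asIdeal := hpm
      rwa [map_natCast] at h1
    have hf2 : 2 ≤ f := by
      by_contra hcon
      have hf01 : f = 0 ∨ f = 1 := by omega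
      rcases hf01 with rfl | rfl
      · rw [pow_zero] at hf
        have h1 : w.asIdeal = ⊤ := Ideal.absNorm_eq_one_iff.mp hf.symm
        exact w.isPrime.ne_top h1
      · rw [pow_one] at hf
        exact hne hf.symm
    have h2 : p ^ 2 ≤ absNorm w.asIdeal := by
      rw [← hf, hpn, ← pow_mul]
      exact Nat.pow_le_pow_right hp.pos (by nlinarith)
    have h3 : (p : ℝ) ≤ Real.sqrt x := by
      apply Real.le_sqrt_of_sq_le
      have h4 : ((p ^ 2 : ℕ) : ℝ) ≤ (absNorm w.asIdeal : ℝ) := by exact_mod_cast h2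
      push_cast at h4
      exact h4.trans (mem_upTo.mp hwx)
    rw [Finset.mem_biUnion]
    refine ⟨p, ?_, ?_⟩
    · rw [Finset.mem_range]
      have := Nat.le_floor h3
      omega
    · rw [dif_pos hp]
      exact hS ⟨p, hp⟩ w hpw
  have h1 : B.card ≤ ∑ p ∈ Finset.Icc 1 ⌊Real.sqrt x⌋₊, Module.finrank ℚ K := by
    refine (Finset.card_le_card hsub).trans (Finset.card_biUnion_le.trans ?_)
    have h0 : ∑ p ∈ Finset.range (⌊Real.sqrt x⌋₊ + 1),
        (if h : p.Prime then S ⟨p, h⟩ else (∅ : Finset (HeightOneSpectrum (𝓞 K)))).card =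
        ∑ p ∈ Finset.Icc 1 ⌊Real.sqrt x⌋₊,
        (if h : p.Prime then S ⟨p, h⟩ else (∅ : Finset (HeightOneSpectrum (𝓞 K)))).card := by
      symm
      apply Finset.sum_subset
      · intro p hp
        rw [Finset.mem_Icc] at hp
        rw [Finset.mem_range]
        omega
      · intro p hp hp'
        have hp0 : p = 0 := by
          rw [Finset.mem_range] at hp
          rw [Finset.mem_Icc] at hp'
          omega
        subst hp0
        rw [dif_neg (by decide : ¬ Nat.Prime 0)]
        exact Finset.card_empty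
    rw [h0]
    apply Finset.sum_le_sum
    intro p _
    split_ifs with h
    · exact hScard ⟨p, h⟩
    · simp
  rw [Finset.sum_const, Nat.card_Icc, Nat.add_sub_cancel, smul_eq_mul] at h1
  have h2 : (B.card : ℝ) ≤ (⌊Real.sqrt x⌋₊ : ℝ) * Module.finrank ℚ K := by exact_mod_cast h1
  have h3 : (⌊Real.sqrt x⌋₊ : ℝ) ≤ Real.sqrt x := Nat.floor_le (Real.sqrt_nonneg x)
  calc (B.card : ℝ) ≤ (⌊Real.sqrt x⌋₊ : ℝ) * Module.finrank ℚ K := h2
    _ ≤ Real.sqrt x * Module.finrank ℚ K := mul_le_mul_of_nonneg_right h3 (by positivity)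
    _ = Module.finrank ℚ K * Real.sqrt x := mul_comm _ _

open scoped Classical in
/-- the primes of relative degree one, grouped by the prime below -/
theorem sum_group (F : Type) [Field F] [NumberField F] (K : Type) [Field K] [NumberField K]
    [Algebra F K] (x : ℝ) (g : HeightOneSpectrum (𝓞 F) → ℝ) :
    ∑ v ∈ upTo F x, (degOne F K v : ℝ) * g v =
      ∑ w ∈ (upTo K x).filter (fun w => absNorm w.asIdeal = absNorm (below F w).asIdeal),
        g (below F w) := by
  have hmaps : ∀ w ∈ (upTo K x).filter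
      (fun w => absNorm w.asIdeal = absNorm (below F w).asIdeal), below F w ∈ upTo F x := by
    intro w hw
    obtain ⟨h1, h2⟩ := Finset.mem_filter.mp hw
    rw [mem_upTo] at h1 ⊢
    rw [← h2]
    exact h1
  rw [← Finset.sum_fiberwise_of_maps_to hmaps]
  apply Finset.sum_congr rfl
  intro v hv
  have h1 : ∀ w ∈ ((upTo K x).filter
      (fun w => absNorm w.asIdeal = absNorm (below F w).asIdeal)).filter
        (fun w => below F w = v), g (below F w) = g v := by
    intro w hw
    rw [(Finset.mem_filter.mp hw).2]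
  rw [Finset.sum_congr rfl h1, Finset.sum_const, nsmul_eq_mul]
  congr 2
  unfold degOne
  apply Nat.subtype_card
  intro w
  simp only [Finset.mem_filter, mem_upTo]
  constructor
  · rintro ⟨⟨_, h2⟩, h3⟩
    rw [h3] at h2
    exact ⟨h3, h2⟩
  · rintro ⟨h3, h2⟩
    rw [mem_upTo] at hv
    refine ⟨⟨?_, ?_⟩, h3⟩
    · rw [h2]
      exact hv
    · rw [h3, h2]

end DG1

open scoped Classical in
open DG1 in
theorem stmt_DG1 : Stmt_DG1 := by
  intro F _ _ K _ _ _
  refine ⟨Module.finrank ℚ K, ?_⟩
  intro x hx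
  have h1 := sum_group F K x (fun _ => 1)
  simp only [mul_one] at h1
  rw [Finset.sum_const, nsmul_eq_mul, mul_one] at h1
  have h2 := Finset.card_filter_add_card_filter_not (s := upTo K x)
    (fun w => absNorm w.asIdeal = absNorm (below F w).asIdeal)
  have h3 := bad_card F K x (by linarith) ((upTo K x).filter
    (fun w => ¬ absNorm w.asIdeal = absNorm (below F w).asIdeal))
    (fun w hw => Finset.mem_filter.mp hw)
  rw [h1]
  have h4 : (((upTo K x).filter
      (fun w => absNorm w.asIdeal = absNorm (below F w).asIdeal)).card : ℝ) +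
      ((upTo K x).filter
      (fun w => ¬ absNorm w.asIdeal = absNorm (below F w).asIdeal)).card = (upTo K x).card := by
    exact_mod_cast h2
  rw [← h4, sub_add_cancel_left, abs_neg, abs_of_nonneg (by positivity)]
  exact h3

end Pool.DS
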