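import Pool.Agent.Work.MP_6dc561_ds.Interface

/-!
# Block DGB: at most `[K : F]` primes above `v`
-/

set_option autoImplicit false

open NumberField IsDedekindDomain Ideal Polynomial Filter Topology MeasureTheory

namespace Pool.DS

namespace DGB

theorem below_self (F : Type) [Field F] [NumberField F] (w : HeightOneSpectrum (𝓞 F)) :
    below F w = w := by
  apply HeightOneSpectrum.ext
  ext x
  exact Iff.rfl

theorem mapsTo (F : Type) [Field F] [NumberField F] (K : Type) [Field K] [NumberField K]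
    [Algebra F K] (v : HeightOneSpectrum (𝓞 F)) (w : HeightOneSpectrum (𝓞 K))
    (hw : below F w = v) :
    w.asIdeal ∈ (IsDedekindDomain.primesOverFinset v.asIdeal (𝓞 K) : Set (Ideal (𝓞 K))) := by
  have : v.asIdeal.IsMaximal := v.isMaximal
  rw [IsDedekindDomain.coe_primesOverFinset v.ne_bot]
  refine ⟨w.isPrime, ⟨?_⟩⟩
  rw [← hw]
  rfl

end DGB

theorem stmt_DGB : Stmt_DGB := by
  intro F _ _ K _ _ _ v
  have : v.asIdeal.IsMaximal := v.isMaximal
  have hinj : Set.InjOn (fun w : HeightOneSpectrum (𝓞 K) => w.asIdeal)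
      {w : HeightOneSpectrum (𝓞 K) | below F w = v} := by
    intro a _ b _ h
    exact HeightOneSpectrum.ext h
  have hfin : {w : HeightOneSpectrum (𝓞 K) | below F w = v}.Finite := by
    refine Set.Finite.of_finite_image (f := fun w => w.asIdeal) ?_ hinj
    refine (Finset.finite_toSet (IsDedekindDomain.primesOverFinset v.asIdeal (𝓞 K))).subset ?_
    rintro _ ⟨w, hw, rfl⟩
    exact DGB.mapsTo F K v w hw
  have hcard : {w : HeightOneSpectrum (𝓞 K) | below F w = v}.ncard ≤ Module.finrank F K := by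
    refine (Set.ncard_le_ncard_of_injOn (fun w => w.asIdeal)
      (fun w hw => DGB.mapsTo F K v w hw) hinj (Finset.finite_toSet _)).trans ?_
    rw [Set.ncard_coe_finset]
    have : NoZeroSMulDivisors (𝓞 F) (𝓞 K) := ⟨fun {c x} h => smul_eq_zero.1 h⟩
    exact Ideal.card_primesOverFinset_le_finrank (𝓞 K) F K v.ne_bot
  refine ⟨hfin, hcard, ?_, ?_⟩
  · refine le_trans ?_ hcard
    unfold degOne
    have : Nat.card {w : HeightOneSpectrum (𝓞 K) // below F w = v ∧
        absNorm w.asIdeal = absNorm v.asIdeal} =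
        {w : HeightOneSpectrum (𝓞 K) | below F w = v ∧
          absNorm w.asIdeal = absNorm v.asIdeal}.ncard := rfl
    rw [this]
    exact Set.ncard_le_ncard (fun w hw => hw.1) hfin
  · unfold degOne
    rw [Nat.card_eq_one_iff_unique]
    refine ⟨⟨?_⟩, ⟨⟨v, DGB.below_self F v, rfl⟩⟩⟩
    rintro ⟨a, ha, _⟩ ⟨b, hb, _⟩
    apply Subtype.ext
    rw [DGB.below_self] at ha hb
    simp only [ha, hb]

end Pool.DS
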