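import Pool.Agent.Work.MP_6dc561_ds.Interface

/-!
# Block FIN: the theorem (from MEA, AVG, BES, PIT, DGB, RDC)
-/

set_option autoImplicit false

open NumberField IsDedekindDomain Ideal Polynomial Filter Topology MeasureTheory
open scoped TensorProduct ENNReal NNReal Pointwise

namespace Pool.DS

open Pool.Agent.Work.MP_6dc561_nt

namespace FIN

/-- the weight -/
noncomputable def cw (x : ℝ) : ℝ := max (Real.log x / x) 0

theorem cw_nonneg (x : ℝ) : 0 ≤ cw x := le_max_right _ _

theorem ev {l : Filter ℝ} (hl : l ≤ atTop) (u : ℝ → ℝ) :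
    (fun x => u x * Real.log x / x) =ᶠ[l] (fun x => cw x * u x) := by
  have h : ∀ᶠ x : ℝ in l, 1 ≤ x := hl (eventually_ge_atTop 1)
  filter_upwards [h] with x hx
  have : cw x = Real.log x / x := by
    unfold cw
    rw [max_eq_left]
    exact div_nonneg (Real.log_nonneg hx) (by linarith)
  rw [this]
  ring

theorem td {l : Filter ℝ} (hl : l ≤ atTop) (u : ℝ → ℝ) (a : ℝ) :
    Tendsto (fun x => u x * Real.log x / x) l (𝓝 a) ↔ Tendsto (fun x => cw x * u x) l (𝓝 a) :=
  tendsto_congr' (ev hl u)

end FIN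

theorem stmt_FIN (hMEA : Stmt_MEA) (hAVG : Stmt_AVG) (hBES : Stmt_BES) (hPIT : Stmt_PIT)
    (hDGB : Stmt_DGB) (hRDC : Stmt_RDC) : Stmt_FIN := by
  intro F _ _ f hdeg hsep G M hG ι K _ _ _ hdisj l hl0 hl L hL
  have hg : ∀ v : HeightOneSpectrum (𝓞 F), |gv F f G v| ≤ M := by
    intro v
    have hM : 0 ≤ M := (abs_nonneg _).trans (hG v 0 0)
    unfold gv
    split_ifs
    · exact hG _ _ _
    · rw [abs_zero]; exact hM
  -- the averages over an extension in terms of `F`
  have key : ∀ (E : Type) [Field E] [NumberField E] [Algebra F E] (a : ℝ),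
      Tendsto (stAverage F E f G) l (𝓝 a) ↔
      Tendsto (fun x => FIN.cw x * ∑ v ∈ upTo F x, (degOne F E v : ℝ) * gv F f G v) l (𝓝 a) := by
    intro E _ _ _ a
    have h0 := (hAVG F E f hdeg hsep G M hG).mono_left hl
    rw [← FIN.td hl]
    constructor
    · intro h
      have := h.sub h0
      rw [sub_zero] at this
      refine this.congr ?_
      intro x
      ring
    · intro h
      have := h.add h0
      rw [add_zero] at this
      refine this.congr ?_
      intro x
      ring
  have hself : ∀ a : ℝ, Tendsto (stAverage F F f G) l (𝓝 a) ↔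
      Tendsto (fun x => FIN.cw x * ∑ v ∈ upTo F x, gv F f G v) l (𝓝 a) := by
    intro a
    rw [key F a]
    apply tendsto_congr
    intro x
    congr 1
    apply Finset.sum_congr rfl
    intro v _
    rw [(hDGB F F v).2.2.2]
    simp
  have B := hBES (HeightOneSpectrum (𝓞 F)) (fun x => upTo F x) FIN.cw M (gv F f G) ι
    (fun i v => (degOne F (K i) v : ℝ))
    (fun i => (Nat.card (PrimeSpectrum (K i ⊗[F] K i)) : ℝ)) l L hl0 hg FIN.cw_nonneg
    (by
      intro i
      have := (hRDC F (K i) (K i)).2.2.1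
      exact_mod_cast this)
    ((FIN.td hl _ _).1 ((hPIT F).mono_left hl))
    (by
      intro i
      exact (FIN.td hl _ _).1 (((hMEA F).1 (K i)).mono_left hl))
    (by
      intro i j hij
      have h1 := (hRDC F (K i) (K j)).2.2.2 (hdisj i j hij)
      have h2 := ((hMEA F).2 (K i) (K j)).mono_left hl
      rw [h1, Nat.cast_one] at h2
      exact (FIN.td hl _ _).1 h2)
    (by
      intro i
      exact (FIN.td hl _ _).1 (((hMEA F).2 (K i) (K i)).mono_left hl))
    (by
      intro i
      exact (key (K i) (L i)).1 (hL i))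
  refine ⟨fun L₀ h => B.1 L₀ ((hself L₀).1 h), fun h => ?_⟩
  obtain ⟨L₀, h0⟩ := B.2 h
  exact ⟨L₀, (hself L₀).2 h0⟩

end Pool.DS
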