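import Pool.Agent.Work.MP_6dc561_ds.Interface

/-!
# FRO: the frontier of `normLeOne` is covered by Lipschitz images of cubes
-/

set_option autoImplicit false

open NumberField NumberField.InfinitePlace NumberField.mixedEmbedding
  NumberField.mixedEmbedding.fundamentalCone NumberField.Units.dirichletUnitTheorem
open scoped NNReal Pointwise

namespace Pool.DS.FRO

variable (K : Type) [Field K] [NumberField K]

/-- index set of the parameters -/
abbrev Ix : Type := InfinitePlace K ⊕ {w : InfinitePlace K // IsComplex w}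

open scoped Classical in
/-- the radial part -/
noncomputable def rd (p : Ix K → ℝ) : realSpace K :=
  expMapBasis (fun w => if w = w₀ then 0 else p (Sum.inl w))

/-- the parametrisation -/
noncomputable def Phi (σ : {w : InfinitePlace K // IsReal w} → Bool) (p : Ix K → ℝ) :
    mixedSpace K :=
  (fun w => (if σ w then 1 else -1) * (p (Sum.inl w₀) * rd K p w.1),
   fun w => ((p (Sum.inl w₀) * rd K p w.1 : ℝ) : ℂ) *
    Complex.exp ((2 * Real.pi * p (Sum.inr w) : ℝ) * Complex.I))

open scoped Classical in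
theorem contDiff_rd : ContDiff ℝ 1 (rd K) := by
  have h1 : ContDiff ℝ 1 (fun p : Ix K → ℝ =>
      (fun w => if w = w₀ then 0 else p (Sum.inl w) : InfinitePlace K → ℝ)) := by
    rw [contDiff_pi]
    intro w
    by_cases hw : w = w₀
    · simp only [hw, if_true]; exact contDiff_const
    · simp only [hw, if_false]; exact contDiff_apply ℝ ℝ (Sum.inl w)
  have h2 : ContDiff ℝ 1 (fun q : InfinitePlace K → ℝ => (expMapBasis q : realSpace K)) := by
    rw [contDiff_pi]
    intro w
    have : (fun q : InfinitePlace K → ℝ => (expMapBasis q : realSpace K) w) =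
        fun q => Real.exp ((w.mult : ℝ)⁻¹ * ((completeBasis K).equivFunL.symm q) w) := by
      ext q
      rw [expMapBasis_apply, expMap_apply]
      rfl
    rw [this]
    exact Real.contDiff_exp.comp (contDiff_const.mul
      ((contDiff_apply ℝ ℝ w).comp (completeBasis K).equivFunL.symm.contDiff))
  exact h2.comp h1

open scoped Classical in
theorem contDiff_Phi (σ : {w : InfinitePlace K // IsReal w} → Bool) : ContDiff ℝ 1 (Phi K σ) := by
  have hr := contDiff_rd K
  have hm : ∀ w : InfinitePlace K, ContDiff ℝ 1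
      (fun p : Ix K → ℝ => p (Sum.inl w₀) * rd K p w) := fun w =>
    (contDiff_apply ℝ ℝ (Sum.inl w₀)).mul ((contDiff_apply ℝ ℝ w).comp hr)
  unfold Phi
  refine ContDiff.prodMk ?_ ?_
  · rw [contDiff_pi]
    intro w
    exact contDiff_const.mul (hm w.1)
  · rw [contDiff_pi]
    intro w
    refine ContDiff.mul (Complex.ofRealCLM.contDiff.comp (hm w.1)) ?_
    refine Complex.contDiff_exp.comp (ContDiff.mul (Complex.ofRealCLM.contDiff.comp ?_)
      contDiff_const)
    exact contDiff_const.mul (contDiff_apply ℝ ℝ (Sum.inr w))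

theorem exp_fract (z : ℂ) : ∃ θ : ℝ, 0 ≤ θ ∧ θ ≤ 1 ∧
    z = (‖z‖ : ℂ) * Complex.exp ((2 * Real.pi * θ : ℝ) * Complex.I) := by
  refine ⟨Int.fract (z.arg / (2 * Real.pi)), Int.fract_nonneg _, (Int.fract_lt_one _).le, ?_⟩
  conv_lhs => rw [← Complex.norm_mul_exp_arg_mul_I z]
  congr 1
  rw [Complex.exp_eq_exp_iff_exists_int]
  refine ⟨⌊z.arg / (2 * Real.pi)⌋, ?_⟩
  have h : z.arg / (2 * Real.pi) = ⌊z.arg / (2 * Real.pi)⌋ + Int.fract (z.arg / (2 * Real.pi)) :=
    (Int.floor_add_fract _).symm
  have h2 : z.arg = 2 * Real.pi * Int.fract (z.arg / (2 * Real.pi)) +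
      ⌊z.arg / (2 * Real.pi)⌋ * (2 * Real.pi) := by
    have h3 : z.arg = 2 * Real.pi * (z.arg / (2 * Real.pi)) := by
      field_simp
    conv_lhs => rw [h3, h]
    ring
  conv_lhs => rw [h2]
  push_cast
  ring

open scoped Classical in
theorem cover {x : mixedSpace K} (hx : x ∈ frontier (normLeOne K)) :
    ∃ (σ : {w : InfinitePlace K // IsReal w} → Bool) (p : Ix K → ℝ), (∀ i, 0 ≤ p i) ∧
      (∀ i, p i ≤ 1) ∧ Phi K σ p = x ∧ ∃ w, p (Sum.inl w) = 0 ∨ p (Sum.inl w) = 1 := by
  have hx1 : x ∈ closure (normLeOne K) := hx.1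
  have hx2 : x ∉ interior (normLeOne K) := hx.2
  obtain ⟨c, hc, ⟨_, ⟨y, hy, rfl⟩, hxy⟩⟩ := closure_normLeOne_subset K hx1
  have hxy : c • (expMapBasis y : realSpace K) = normAtAllPlaces x := hxy
  have hy0 : y w₀ = 0 := by
    have := hy w₀ (Set.mem_univ _)
    simpa using this
  have hy1 : ∀ w, w ≠ w₀ → y w ∈ Set.Icc (0:ℝ) 1 := by
    intro w hw
    have := hy w (Set.mem_univ _)
    simpa [hw] using this
  choose θ hθ0 hθ1 hθ using fun w : {w : InfinitePlace K // IsComplex w} => exp_fract (x.2 w)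
  set p : Ix K → ℝ := Sum.elim (fun w => if w = w₀ then c else y w) θ with hp
  have hrd : rd K p = expMapBasis y := by
    unfold rd
    congr 1
    funext w
    by_cases hw : w = w₀
    · rw [if_pos hw, hw, hy0]
    · rw [if_neg hw, hp, Sum.elim_inl, if_neg hw]
  have hpc : p (Sum.inl w₀) = c := by simp [hp]
  have hn : ∀ w, c * (expMapBasis y : realSpace K) w = normAtPlace w x := by
    intro w
    have := congrFun hxy w
    rwa [Pi.smul_apply, smul_eq_mul, normAtAllPlaces_apply] at this
  refine ⟨fun w => decide (0 ≤ x.1 w), p, ?_, ?_, ?_, ?_⟩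
  · rintro (w | w)
    · by_cases hw : w = w₀
      · simp only [hp, Sum.elim_inl, hw, if_true]; exact hc.1
      · simp only [hp, Sum.elim_inl, hw, if_false]; exact (hy1 w hw).1
    · exact hθ0 w
  · rintro (w | w)
    · by_cases hw : w = w₀
      · simp only [hp, Sum.elim_inl, hw, if_true]; exact hc.2
      · simp only [hp, Sum.elim_inl, hw, if_false]; exact (hy1 w hw).2
    · exact hθ1 w
  · unfold Phi
    refine Prod.ext ?_ ?_
    · funext w
      simp only [hpc, hrd, hn]
      rw [normAtPlace_apply_of_isReal w.2]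
      by_cases h0 : 0 ≤ x.1 w
      · simp only [h0, decide_true, if_true, one_mul, Real.norm_eq_abs]
        exact abs_of_nonneg h0
      · simp only [h0, decide_false, Bool.false_eq_true, if_false, Real.norm_eq_abs]
        have := abs_of_neg (not_le.mp h0)
        linarith
    · funext w
      simp only [hpc, hrd, hn]
      rw [normAtPlace_apply_of_isComplex w.2]
      exact (hθ w).symm
  · by_contra hcon
    push Not at hcon
    apply hx2
    apply subset_interior_normLeOne K
    have hc0 : c ≠ 0 ∧ c ≠ 1 := by have := hcon w₀; rwa [hpc] at this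
    have hcp : 0 < c := lt_of_le_of_ne hc.1 (Ne.symm hc0.1)
    refine ⟨fun w => if w = w₀ then Real.log c else y w, ?_, ?_⟩
    · rw [interior_paramSet, Set.mem_univ_pi]
      intro w
      by_cases hw : w = w₀
      · simp only [hw, if_true]
        exact Real.log_neg hcp (lt_of_le_of_ne hc.2 hc0.2)
      · simp only [hw, if_false]
        have h := hcon w
        have h3 : p (Sum.inl w) = y w := by simp [hp, hw]
        rw [h3] at h
        exact ⟨lt_of_le_of_ne (hy1 w hw).1 (Ne.symm h.1), lt_of_le_of_ne (hy1 w hw).2 h.2⟩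
    · rw [expMapBasis_apply'', if_pos rfl, Real.exp_log hcp, ← hxy]
      congr 2
      funext w
      by_cases hw : w = w₀
      · simp [hw, hy0]
      · simp [hw]

open scoped Classical in
theorem card_Ix : Fintype.card (Ix K) = Module.finrank ℚ K := by
  rw [Fintype.card_sum, card_eq_nrRealPlaces_add_nrComplexPlaces, ← card_add_two_mul_card_eq_rank]
  have : Fintype.card {w : InfinitePlace K // IsComplex w} = nrComplexPlaces K := rfl
  omega

theorem card_face (i : InfinitePlace K) :
    Nat.card {j : Ix K // j ≠ Sum.inl i} = Module.finrank ℚ K - 1 := by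
  classical
  rw [Nat.card_eq_fintype_card, Fintype.card_subtype_compl, card_Ix]
  congr 1

/-- the face -/
noncomputable def fe (i : InfinitePlace K) :
    {j : Ix K // j ≠ Sum.inl i} ≃ Fin (Module.finrank ℚ K - 1) :=
  (Finite.equivFinOfCardEq (card_face K i))

open scoped Classical in
/-- insertion of a face -/
noncomputable def ins (i : InfinitePlace K) (ε : Bool) (q : Fin (Module.finrank ℚ K - 1) → ℝ) :
    Ix K → ℝ :=
  fun j => if h : j = Sum.inl i then (if ε then 1 else 0) else q (fe K i ⟨j, h⟩)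

open scoped Classical in
theorem contDiff_ins (i : InfinitePlace K) (ε : Bool) : ContDiff ℝ 1 (ins K i ε) := by
  rw [contDiff_pi]
  intro j
  unfold ins
  by_cases h : j = Sum.inl i
  · simp only [h, dif_pos]; exact contDiff_const
  · simp only [h, dif_neg, not_false_eq_true]
    exact contDiff_apply ℝ ℝ (fe K i ⟨j, h⟩)

theorem exists_ins {i : InfinitePlace K} {p : Ix K → ℝ} (h0 : ∀ i, 0 ≤ p i) (h1 : ∀ i, p i ≤ 1)
    (hi : p (Sum.inl i) = 0 ∨ p (Sum.inl i) = 1) :
    ∃ (ε : Bool) (q : Fin (Module.finrank ℚ K - 1) → ℝ), q ∈ Set.Icc 0 1 ∧ ins K i ε q = p := by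
  classical
  refine ⟨decide (p (Sum.inl i) = 1), fun k => p ((fe K i).symm k).1, ⟨fun k => h0 _, fun k => h1 _⟩,
    ?_⟩
  funext j
  unfold ins
  by_cases h : j = Sum.inl i
  · rw [dif_pos h, h]
    rcases hi with hi | hi
    · simp [hi]
    · simp [hi]
  · rw [dif_neg h]
    simp

end Pool.DS.FRO


namespace Pool.DS

open FRO in
theorem stmt_FRO : Stmt_FRO := by
  classical
  intro K _ _
  let J := ({w : InfinitePlace K // IsReal w} → Bool) × InfinitePlace K × Bool
  let e : J ≃ Fin (Fintype.card J) := Fintype.equivFin J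
  let ψ : J → (Fin (Module.finrank ℚ K - 1) → ℝ) → mixedSpace K :=
    fun j q => Phi K j.1 (ins K j.2.1 j.2.2 q)
  have hψ : ∀ j, ∃ C : ℝ≥0, LipschitzOnWith C (ψ j) (Set.Icc 0 1) := by
    intro j
    have h : ContDiff ℝ 1 (ψ j) := (contDiff_Phi K j.1).comp (contDiff_ins K j.2.1 j.2.2)
    exact LocallyLipschitzOn.exists_lipschitzOnWith_of_compact isCompact_Icc
      (h.locallyLipschitz.locallyLipschitzOn)
  choose C hC using hψ
  refine ⟨Fintype.card J, fun k => ψ (e.symm k), Finset.univ.sup C, fun k => ?_, ?_⟩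
  · exact (hC (e.symm k)).weaken (Finset.le_sup (Finset.mem_univ _))
  · intro x hx
    obtain ⟨σ, p, h0, h1, hp, w, hw⟩ := cover K hx
    obtain ⟨ε, q, hq, hqp⟩ := exists_ins K h0 h1 hw
    refine Set.mem_iUnion.mpr ⟨e (σ, w, ε), q, hq, ?_⟩
    simp only [Equiv.symm_apply_apply]
    change Phi K σ (ins K w ε q) = x
    rw [hqp, hp]

end Pool.DS
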