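import Pool.Agent.Work.MP_6dc561_ds.Interface

/-!
# Block statements, third part: extensions of bounded degree, totally imaginary extensions
-/

set_option autoImplicit false

open NumberField IsDedekindDomain
open scoped TensorProduct

namespace Pool.DS

/-- RNK: the number of fields in `K ⊗ K` is between `2` and `[K : F]` -/
def Stmt_RNK : Prop :=
  ∀ (F : Type) [Field F] [NumberField F] (K : Type) [Field K] [NumberField K] [Algebra F K],
    1 < Module.finrank F K → 2 ≤ Nat.card (PrimeSpectrum (K ⊗[F] K)) ∧
      Nat.card (PrimeSpectrum (K ⊗[F] K)) ≤ Module.finrank F K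

/-- TIM: infinitely many pairwise linearly disjoint totally imaginary quadratic extensions
(`F(√-p)` for rational primes `p` unramified in `F`, for instance `p ∤ discr F`) -/
def Stmt_TIM : Prop :=
  ∀ (F : Type) [Field F] [NumberField F],
    ∃ (K : ℕ → Type) (_ : ∀ n, Field (K n)) (_ : ∀ n, NumberField (K n))
      (_ : ∀ n, Algebra F (K n)),
      (∀ n, Module.finrank F (K n) = 2) ∧ (∀ n, IsTotallyComplex (K n)) ∧
      ∀ i j, i ≠ j → IsField (K i ⊗[F] K j)

/-- TIE: the same, moreover linearly disjoint from a given finite extension `E` (`p` unramified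
in `E`) -/
def Stmt_TIE : Prop :=
  ∀ (F : Type) [Field F] [NumberField F] (E : Type) [Field E] [NumberField E] [Algebra F E],
    ∃ (K : ℕ → Type) (_ : ∀ n, Field (K n)) (_ : ∀ n, NumberField (K n))
      (_ : ∀ n, Algebra F (K n)),
      (∀ n, Module.finrank F (K n) = 2) ∧ (∀ n, IsTotallyComplex (K n)) ∧
      (∀ n, IsField (K n ⊗[F] E)) ∧ ∀ i j, i ≠ j → IsField (K i ⊗[F] K j)

end Pool.DS
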