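import Pool.Agent.Work.MP_6dc561_ds.Interface2
import Pool.Agent.Work.MP_6dc561_ds.Interface3

/-!
# The theorem in its final form (from FIN, TWB, RNK, TIE)
-/

set_option autoImplicit false

open NumberField IsDedekindDomain Ideal Polynomial Filter Topology
open scoped TensorProduct

namespace Pool.DS

open Pool.Agent.Work.MP_6dc561_nt

/-- The final statement. -/
def Stmt_ALL : Prop :=
  ∀ (F : Type) [Field F] [NumberField F] (f : (𝓞 F)[X]),
    (f.natDegree = 5 ∨ f.natDegree = 6) → (f.map (algebraMap (𝓞 F) F)).Separable →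
    ∀ (G : HeightOneSpectrum (𝓞 F) → ℝ → ℝ → ℝ) (M : ℝ), (∀ v a b, |G v a b| ≤ M) →
    ∀ (l : Filter ℝ) [l.NeBot], l ≤ atTop →
    -- finite extensions
    (∀ (ι : Type) (K : ι → Type) [∀ i, Field (K i)] [∀ i, NumberField (K i)]
      [∀ i, Algebra F (K i)], (∀ i j, i ≠ j → IsField (K i ⊗[F] K j)) → ∀ (L : ι → ℝ),
      (∀ i, Tendsto (stAverage F (K i) f G) l (𝓝 (L i))) →
      (∀ L₀, Tendsto (stAverage F F f G) l (𝓝 L₀) →
        Summable (fun i => (L i - L₀) ^ 2 / ((Nat.card (PrimeSpectrum (K i ⊗[F] K i)) : ℝ) - 1)) ∧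
        L₀ ^ 2 + ∑' i, (L i - L₀) ^ 2 / ((Nat.card (PrimeSpectrum (K i ⊗[F] K i)) : ℝ) - 1) ≤
          M ^ 2) ∧
      ((¬ Summable fun i => 1 / ((Nat.card (PrimeSpectrum (K i ⊗[F] K i)) : ℝ) - 1)) →
        ∃ L₀, Tendsto (stAverage F F f G) l (𝓝 L₀)) ∧
      (Infinite ι → ∀ n : ℕ, (∀ i, 2 ≤ Module.finrank F (K i) ∧ Module.finrank F (K i) ≤ n) →
        ∀ L₁, (∀ i, L i = L₁) → Tendsto (stAverage F F f G) l (𝓝 L₁))) ∧
    -- totally imaginary quadratic extensions not contained in a given extension `E`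
    (∀ (E : Type) [Field E] [NumberField E] [Algebra F E] (L₁ : ℝ),
      (∀ (K : Type) [Field K] [NumberField K] [Algebra F K], Module.finrank F K = 2 →
        IsTotallyComplex K → IsField (K ⊗[F] E) → Tendsto (stAverage F K f G) l (𝓝 L₁)) →
      Tendsto (stAverage F F f G) l (𝓝 L₁)) ∧
    -- quadratic twists
    (∀ (ι : Type) (d : ι → 𝓞 F), (∀ i, d i ≠ 0) →
      (∀ i j, i ≠ j → ¬ IsSquare ((d i * d j : 𝓞 F) : F)) → ∀ (T : ι → ℝ),
      (∀ i, Tendsto (twAverage F f (d i) G) l (𝓝 (T i))) →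
      (∀ E, Tendsto (stAverage F F f (evenPart G)) l (𝓝 E) →
        Summable (fun i => (T i - E) ^ 2) ∧ E ^ 2 + ∑' i, (T i - E) ^ 2 ≤ M ^ 2) ∧
      (Infinite ι → ∃ E, Tendsto (stAverage F F f (evenPart G)) l (𝓝 E)))

/-- a bounded denominator does not help -/
theorem zero_of_summable {ι : Type} [Infinite ι] {r : ι → ℝ} {n c : ℝ} (hc : 0 ≤ c)
    (hr : ∀ i, 2 ≤ r i) (hn : ∀ i, r i ≤ n) (h : Summable fun i => c / (r i - 1)) : c = 0 := by
  have h1 := h.tendsto_cofinite_zero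
  obtain ⟨i₀⟩ : Nonempty ι := inferInstance
  have hn2 : 2 ≤ n := (hr i₀).trans (hn i₀)
  have h2 : ∀ i, c / n ≤ c / (r i - 1) := by
    intro i
    have := hr i
    have := hn i
    exact div_le_div_of_nonneg_left hc (by linarith) (by linarith)
  have h3 : c / n ≤ 0 := le_of_tendsto_of_tendsto tendsto_const_nhds h1
    (Eventually.of_forall h2)
  have h4 : 0 ≤ c / n := div_nonneg hc (by linarith)
  have h5 : c / n = 0 := le_antisymm h3 h4
  rcases div_eq_zero_iff.mp h5 with h6 | h6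
  · exact h6
  · linarith

theorem stmt_ALL (hFIN : Stmt_FIN) (hTWB : Stmt_TWB) (hRNK : Stmt_RNK) (hTIE : Stmt_TIE) :
    Stmt_ALL := by
  intro F _ _ f hdeg hsep G M hG l hl hlt
  have key : ∀ (ι : Type) (K : ι → Type) [∀ i, Field (K i)] [∀ i, NumberField (K i)]
      [∀ i, Algebra F (K i)], (∀ i j, i ≠ j → IsField (K i ⊗[F] K j)) → ∀ (L : ι → ℝ),
      (∀ i, Tendsto (stAverage F (K i) f G) l (𝓝 (L i))) →
      (Infinite ι → ∀ n : ℕ, (∀ i, 2 ≤ Module.finrank F (K i) ∧ Module.finrank F (K i) ≤ n) →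
        ∀ L₁, (∀ i, L i = L₁) → Tendsto (stAverage F F f G) l (𝓝 L₁)) := by
    intro ι K _ _ _ hK L hL hinf n hn L₁ hL₁
    have hr := fun i => hRNK F (K i) (lt_of_lt_of_le one_lt_two (hn i).1)
    have hr2 : ∀ i, (2:ℝ) ≤ (Nat.card (PrimeSpectrum (K i ⊗[F] K i)) : ℝ) := fun i => by
      exact_mod_cast (hr i).1
    have hrn : ∀ i, (Nat.card (PrimeSpectrum (K i ⊗[F] K i)) : ℝ) ≤ n := fun i => by
      exact_mod_cast (hr i).2.trans (hn i).2
    obtain ⟨h1, h2⟩ := hFIN F f hdeg hsep G M hG ι K hK l hl hlt L hL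
    obtain ⟨L₀, hL₀⟩ := h2 (fun hs => one_ne_zero (zero_of_summable zero_le_one hr2 hrn hs))
    have h3 := (h1 L₀ hL₀).1
    simp_rw [hL₁] at h3
    have h4 := zero_of_summable (sq_nonneg (L₁ - L₀)) hr2 hrn h3
    have h5 : L₁ - L₀ = 0 := by
      rwa [sq_eq_zero_iff] at h4
    have h6 : L₁ = L₀ := by linarith
    rw [h6]
    exact hL₀
  refine ⟨?_, ?_, ?_⟩
  · intro ι K _ _ _ hK L hL
    obtain ⟨h1, h2⟩ := hFIN F f hdeg hsep G M hG ι K hK l hl hlt L hL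
    exact ⟨h1, h2, key ι K hK L hL⟩
  · intro E _ _ _ L₁ h
    obtain ⟨K, iF, iN, iA, hrank, htc, hE, hdis⟩ := hTIE F E
    exact key ℕ K hdis (fun _ => L₁) (fun i => h (K i) (hrank i) (htc i) (hE i)) inferInstance 2
      (fun i => by rw [hrank i]; exact ⟨le_rfl, le_rfl⟩) L₁ (fun _ => rfl)
  · intro ι d hd hdd T hT
    exact hTWB F f hdeg hsep G M hG ι d hd hdd l hl hlt T hT

end Pool.DS
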