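import Pool.Agent.Work.MP_6dc561_ds.Interface

/-!
# HOM: primes of relative degree one are homomorphisms to the residue field
-/

set_option autoImplicit false

open NumberField IsDedekindDomain Ideal

namespace Pool.DS

namespace HOM

variable {F : Type} [Field F] [NumberField F] {K : Type} [Field K] [NumberField K] [Algebra F K]

theorem absNorm_eq_card (w : HeightOneSpectrum (𝓞 K)) :
    absNorm w.asIdeal = Nat.card (𝓞 K ⧸ w.asIdeal) := by
  rw [Ideal.absNorm_apply, Submodule.cardQuot_apply]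

/-- the kernel of a homomorphism to the residue field -/
noncomputable def kerPrime (v : HeightOneSpectrum (𝓞 F))
    (φ : 𝓞 K →ₐ[𝓞 F] (𝓞 F ⧸ v.asIdeal)) : HeightOneSpectrum (𝓞 K) where
  asIdeal := RingHom.ker φ
  isPrime := RingHom.ker_isPrime φ
  ne_bot := by
    intro h
    obtain ⟨a, ha, ha0⟩ := Submodule.exists_mem_ne_zero_of_ne_bot v.ne_bot
    have h1 : algebraMap (𝓞 F) (𝓞 K) a ∈ RingHom.ker φ := by
      rw [RingHom.mem_ker, AlgHom.commutes]
      exact Ideal.Quotient.eq_zero_iff_mem.mpr ha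
    rw [h] at h1
    have h2 : algebraMap (𝓞 F) (𝓞 K) a = 0 := h1
    exact ha0 ((FaithfulSMul.algebraMap_injective (𝓞 F) (𝓞 K)) (by rw [h2, map_zero]))

theorem surj (v : HeightOneSpectrum (𝓞 F)) (φ : 𝓞 K →ₐ[𝓞 F] (𝓞 F ⧸ v.asIdeal)) :
    Function.Surjective φ := by
  intro y
  obtain ⟨a, rfl⟩ := Ideal.Quotient.mk_surjective y
  exact ⟨algebraMap (𝓞 F) (𝓞 K) a, by rw [AlgHom.commutes]; rfl⟩

theorem below_ker (v : HeightOneSpectrum (𝓞 F)) (φ : 𝓞 K →ₐ[𝓞 F] (𝓞 F ⧸ v.asIdeal)) :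
    below F (kerPrime v φ) = v := by
  apply HeightOneSpectrum.ext
  ext a
  change algebraMap (𝓞 F) (𝓞 K) a ∈ RingHom.ker φ ↔ _
  rw [RingHom.mem_ker, AlgHom.commutes]
  exact Ideal.Quotient.eq_zero_iff_mem

theorem norm_ker (v : HeightOneSpectrum (𝓞 F)) (φ : 𝓞 K →ₐ[𝓞 F] (𝓞 F ⧸ v.asIdeal)) :
    absNorm (kerPrime v φ).asIdeal = absNorm v.asIdeal := by
  rw [absNorm_eq_card, absNorm_eq_card]
  exact Nat.card_congr (Ideal.quotientKerAlgEquivOfSurjective (surj v φ)).toEquiv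

end HOM

open HOM in
theorem stmt_HOM : Stmt_HOM := by
  intro F _ _ K _ _ _ v
  unfold degOne
  symm
  apply Nat.card_congr
  refine Equiv.ofBijective (fun φ => ⟨kerPrime v φ, below_ker v φ, norm_ker v φ⟩) ⟨?_, ?_⟩
  · intro φ ψ h
    have h1 : RingHom.ker φ = RingHom.ker ψ := congrArg (fun z => z.1.asIdeal) h
    ext x
    obtain ⟨a, ha⟩ := Ideal.Quotient.mk_surjective (φ x)
    have h2 : x - algebraMap (𝓞 F) (𝓞 K) a ∈ RingHom.ker φ := by
      rw [RingHom.mem_ker, map_sub, AlgHom.commutes, ← ha]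
      exact sub_self _
    have h3 := h2
    rw [h1] at h3
    rw [RingHom.mem_ker, map_sub, AlgHom.commutes, sub_eq_zero] at h2 h3
    rw [h2, h3]
  · rintro ⟨w, hw, hn⟩
    subst hw
    haveI : w.asIdeal.LiesOver (below F w).asIdeal := ⟨rfl⟩
    have hinj : Function.Injective
        (algebraMap (𝓞 F ⧸ (below F w).asIdeal) (𝓞 K ⧸ w.asIdeal)) :=
      FaithfulSMul.algebraMap_injective _ _
    haveI : Finite (𝓞 K ⧸ w.asIdeal) := Ideal.finiteQuotientOfFreeOfNeBot _ w.ne_bot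
    haveI : Finite (𝓞 F ⧸ (below F w).asIdeal) :=
      Ideal.finiteQuotientOfFreeOfNeBot _ (below F w).ne_bot
    have hcard : Nat.card (𝓞 F ⧸ (below F w).asIdeal) = Nat.card (𝓞 K ⧸ w.asIdeal) := by
      rw [← absNorm_eq_card, ← absNorm_eq_card, hn]
    have hbij : Function.Bijective
        (algebraMap (𝓞 F ⧸ (below F w).asIdeal) (𝓞 K ⧸ w.asIdeal)) :=
      (Nat.bijective_iff_injective_and_card _).mpr ⟨hinj, hcard⟩
    let e : (𝓞 F ⧸ (below F w).asIdeal) ≃ₐ[𝓞 F] (𝓞 K ⧸ w.asIdeal) :=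
      AlgEquiv.ofBijective (IsScalarTower.toAlgHom (𝓞 F) _ _) hbij
    let φ : 𝓞 K →ₐ[𝓞 F] (𝓞 F ⧸ (below F w).asIdeal) :=
      e.symm.toAlgHom.comp (IsScalarTower.toAlgHom (𝓞 F) (𝓞 K) (𝓞 K ⧸ w.asIdeal))
    refine ⟨φ, ?_⟩
    apply Subtype.ext
    apply HeightOneSpectrum.ext
    change RingHom.ker φ = w.asIdeal
    ext x
    rw [RingHom.mem_ker]
    change e.symm (algebraMap (𝓞 K) (𝓞 K ⧸ w.asIdeal) x) = 0 ↔ _
    rw [map_eq_zero_iff _ e.symm.injective]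
    exact Ideal.Quotient.eq_zero_iff_mem

end Pool.DS
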