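import Pool.Agent.Work.MP_6dc561_ds.Interface

/-!
MP_6dc561_nt, block IDC: ideals in a class are counted with a power saving error term.
-/

set_option autoImplicit false

open NumberField Filter Topology MeasureTheory Ideal
open NumberField.InfinitePlace NumberField.mixedEmbedding NumberField.mixedEmbedding.fundamentalCone
open NumberField.Units Submodule
open scoped nonZeroDivisors Real ENNReal NNReal Pointwise

namespace Pool.DS.IDC

variable (K : Type) [Field K] [NumberField K] {C : ClassGroup (𝓞 K)} {J : (Ideal (𝓞 K))⁰} {s : ℝ}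

theorem aux1 (hJ : ClassGroup.mk0 J = C⁻¹) :
    Nat.card {I : (Ideal (𝓞 K))⁰ // absNorm (I : Ideal (𝓞 K)) ≤ s ∧ ClassGroup.mk0 I = C}
      = Nat.card {I : (Ideal (𝓞 K))⁰ // (J : Ideal (𝓞 K)) ∣ I ∧ IsPrincipal (I : Ideal (𝓞 K)) ∧
        absNorm (I : Ideal (𝓞 K)) ≤ s * absNorm (J : Ideal (𝓞 K))} := by
  simp_rw [← nonZeroDivisors_dvd_iff_dvd_coe]
  refine Nat.card_congr ?_
  refine ((Equiv.dvd J).subtypeEquiv fun I ↦ ?_).trans
    (Equiv.subtypeSubtypeEquivSubtypeInter (fun I : (Ideal (𝓞 K))⁰ ↦ J ∣ I) _)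
  rw [← ClassGroup.mk0_eq_one_iff (SetLike.coe_mem _)]
  simp_rw [Equiv.dvd_apply, Submonoid.coe_mul, ← Submonoid.mul_def, _root_.map_mul, hJ,
    inv_mul_eq_one, Nat.cast_mul, mul_comm s, eq_comm, and_comm, and_congr_left_iff]
  exact fun _ ↦
    (mul_le_mul_iff_of_pos_left (Nat.cast_pos.mpr (absNorm_pos_of_nonZeroDivisors J))).symm

theorem mem_smul (t : ℝ) (ht : 0 < t) (x : mixedSpace K) :
    x + 0 ∈ t • normLeOne K ↔ x ∈ fundamentalCone K ∧
      mixedEmbedding.norm x ≤ t ^ Module.finrank ℚ K := by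
  classical
  rw [add_zero, Set.mem_smul_set_iff_inv_smul_mem₀ ht.ne', mem_normLeOne,
    smul_mem_iff_mem (inv_ne_zero ht.ne'), mixedEmbedding.norm_smul, abs_of_pos (inv_pos.2 ht),
    inv_pow, inv_mul_le_iff₀ (pow_pos ht _), mul_one]

theorem card_eq (t : ℝ) (ht : 0 < t) :
    Nat.card {z : idealLattice K ((FractionalIdeal.mk0 K) J) //
      (z : mixedSpace K) + 0 ∈ t • normLeOne K} =
    Nat.card {a : idealSet K J //
      mixedEmbedding.norm (a : mixedSpace K) ≤ t ^ Module.finrank ℚ K} := by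
  refine Nat.card_congr
    { toFun := fun z => ⟨⟨z.1.1, ((mem_smul K t ht _).1 z.2).1, z.1.2⟩,
        ((mem_smul K t ht _).1 z.2).2⟩
      invFun := fun a => ⟨⟨a.1.1, a.1.2.2⟩, (mem_smul K t ht _).2 ⟨a.1.2.1, a.2⟩⟩
      left_inv := fun z => rfl
      right_inv := fun a => rfl }

open scoped Classical in
theorem thick (hTHK : Stmt_THK) (hFRO : Stmt_FRO) :
    ∃ C : ℝ, ∀ ε : ℝ, 0 < ε → ε ≤ 1 →
      volume (Metric.thickening ε (frontier (normLeOne K))) ≤ ENNReal.ofReal (C * ε) := by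
  obtain ⟨N, φ, L, hL, hsub⟩ := hFRO K
  have hfin : Module.finrank ℝ (mixedSpace K) = (Module.finrank ℚ K - 1) + 1 := by
    rw [mixedEmbedding.finrank]
    have : 0 < Module.finrank ℚ K := Module.finrank_pos
    omega
  choose C' hC' using fun j => hTHK (mixedSpace K) volume (Module.finrank ℚ K - 1) hfin (φ j) L (hL j)
  refine ⟨∑ j, |C' j|, fun ε hε hε1 => ?_⟩
  calc volume (Metric.thickening ε (frontier (normLeOne K)))
      ≤ volume (Metric.thickening ε (⋃ j, φ j '' Set.Icc 0 1)) :=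
        measure_mono (Metric.thickening_subset_of_subset _ hsub)
    _ = volume (⋃ j, Metric.thickening ε (φ j '' Set.Icc 0 1)) := by
        rw [Metric.thickening_iUnion]
    _ ≤ ∑ j, volume (Metric.thickening ε (φ j '' Set.Icc 0 1)) := measure_iUnion_fintype_le _ _
    _ ≤ ∑ j, ENNReal.ofReal (|C' j| * ε) := by
        refine Finset.sum_le_sum fun j _ => (hC' j ε hε hε1).trans ?_
        exact ENNReal.ofReal_le_ofReal (mul_le_mul_of_nonneg_right (le_abs_self _) hε.le)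
    _ = ENNReal.ofReal ((∑ j, |C' j|) * ε) := by
        rw [Finset.sum_mul, ENNReal.ofReal_sum_of_nonneg]
        exact fun j _ => mul_nonneg (abs_nonneg _) hε.le

end Pool.DS.IDC

namespace Pool.DS

open IDC

open scoped Classical in
theorem stmt_IDC (hTHK : Stmt_THK) (hCNT : Stmt_CNT) (hFRO : Stmt_FRO) : Stmt_IDC := by
  intro K _ _ c
  obtain ⟨J, hJ⟩ := ClassGroup.mk0_surjective c⁻¹
  obtain ⟨C, hC⟩ := hCNT (mixedSpace K) volume (idealLattice K ((FractionalIdeal.mk0 K) J))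
    (normLeOne K) (isBounded_normLeOne K) (measurableSet_normLeOne K) (thick K hTHK hFRO)
  rw [mixedEmbedding.finrank] at hC
  have hn0 : 0 < Module.finrank ℚ K := Module.finrank_pos
  have hnr : (Module.finrank ℚ K : ℝ) ≠ 0 := Nat.cast_ne_zero.2 hn0.ne'
  have hn1 : (1 : ℝ) ≤ Module.finrank ℚ K := by exact_mod_cast hn0
  have hNJ : (1 : ℝ) ≤ absNorm (J : Ideal (𝓞 K)) := by
    exact_mod_cast Nat.one_le_iff_ne_zero.2 (absNorm_ne_zero_of_nonZeroDivisors J)
  have hw : (1 : ℝ) ≤ torsionOrder K := by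
    exact_mod_cast Nat.one_le_iff_ne_zero.2 (torsionOrder_ne_zero K)
  have hd : 0 < Real.sqrt |(discr K : ℝ)| := by
    apply Real.sqrt_pos.2
    rw [abs_pos]
    exact_mod_cast discr_ne_zero K
  have hvol : volume.real (normLeOne K) =
      2 ^ nrRealPlaces K * π ^ nrComplexPlaces K * regulator K := by
    rw [measureReal_def, volume_normLeOne, ENNReal.toReal_mul, ENNReal.toReal_mul,
      ENNReal.toReal_pow, ENNReal.toReal_pow, ENNReal.toReal_ofNat, ENNReal.coe_toReal,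
      NNReal.coe_real_pi, ENNReal.toReal_ofReal (regulator_pos K).le]
  have hcov : ZLattice.covolume (idealLattice K ((FractionalIdeal.mk0 K) J)) volume =
      (absNorm (J : Ideal (𝓞 K)) : ℝ) * (2⁻¹) ^ nrComplexPlaces K * Real.sqrt |(discr K : ℝ)| := by
    rw [covolume_idealLattice, FractionalIdeal.coe_mk0, FractionalIdeal.coeIdeal_absNorm,
      Rat.cast_natCast]
  refine ⟨|C| * (absNorm (J : Ideal (𝓞 K)) : ℝ) ^ (1 - 1 / (Module.finrank ℚ K : ℝ)),
    fun s hs => ?_⟩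
  set N : ℝ := (absNorm (J : Ideal (𝓞 K)) : ℝ) with hN
  have hT : 1 ≤ s * N := by nlinarith
  have hT0 : 0 ≤ s * N := by linarith
  set t : ℝ := (s * N) ^ (1 / (Module.finrank ℚ K : ℝ)) with htd
  have ht : 1 ≤ t := Real.one_le_rpow hT (by positivity)
  have htn : t ^ Module.finrank ℚ K = s * N := by
    rw [htd, ← Real.rpow_natCast, ← Real.rpow_mul hT0, one_div_mul_cancel hnr, Real.rpow_one]
  have htn1 : t ^ (Module.finrank ℚ K - 1) =
      (s * N) ^ (1 - 1 / (Module.finrank ℚ K : ℝ)) := by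
    rw [htd, ← Real.rpow_natCast, ← Real.rpow_mul hT0, Nat.cast_sub hn0]
    congr 1
    field_simp
    simp
  have h1 := hC t ht 0
  rw [card_eq K t (by linarith), htn, ← card_isPrincipal_dvd_norm_le, ← aux1 K hJ, htn1, hvol,
    hcov, Real.mul_rpow (by linarith) (by linarith)] at h1
  set A : ℕ := Nat.card {I : (Ideal (𝓞 K))⁰ // (absNorm (I : Ideal (𝓞 K)) : ℝ) ≤ s ∧
    ClassGroup.mk0 I = c} with hA
  have hs1 : 0 ≤ s ^ (1 - 1 / (Module.finrank ℚ K : ℝ)) := Real.rpow_nonneg (by linarith) _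
  have hN1 : 0 ≤ N ^ (1 - 1 / (Module.finrank ℚ K : ℝ)) := Real.rpow_nonneg (by linarith) _
  have hw0 : (0 : ℝ) < torsionOrder K := by linarith
  have e : ((A * torsionOrder K : ℕ) : ℝ) - 2 ^ nrRealPlaces K * π ^ nrComplexPlaces K * regulator K /
      (N * 2⁻¹ ^ nrComplexPlaces K * Real.sqrt |(discr K : ℝ)|) * (s * N) =
      torsionOrder K * ((A : ℝ) - (2 ^ nrRealPlaces K * (2 * π) ^ nrComplexPlaces K *
        regulator K) / (torsionOrder K * Real.sqrt |(discr K : ℝ)|) * s) := by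
    have hN0 : N ≠ 0 := by linarith
    rw [mul_pow, inv_pow]
    push_cast
    field_simp
  rw [e, abs_mul, abs_of_pos hw0] at h1
  have h2 : (1 : ℝ) * |((A : ℝ) - (2 ^ nrRealPlaces K * (2 * π) ^ nrComplexPlaces K *
        regulator K) / (torsionOrder K * Real.sqrt |(discr K : ℝ)|) * s)| ≤
      torsionOrder K * |((A : ℝ) - (2 ^ nrRealPlaces K * (2 * π) ^ nrComplexPlaces K *
        regulator K) / (torsionOrder K * Real.sqrt |(discr K : ℝ)|) * s)| :=
    mul_le_mul_of_nonneg_right hw (abs_nonneg _)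
  rw [one_mul] at h2
  refine (h2.trans h1).trans ?_
  have h3 : C * (s ^ (1 - 1 / (Module.finrank ℚ K : ℝ)) * N ^ (1 - 1 / (Module.finrank ℚ K : ℝ))) ≤
      |C| * (s ^ (1 - 1 / (Module.finrank ℚ K : ℝ)) * N ^ (1 - 1 / (Module.finrank ℚ K : ℝ))) :=
    mul_le_mul_of_nonneg_right (le_abs_self _) (mul_nonneg hs1 hN1)
  refine h3.trans (le_of_eq ?_)
  ring

end Pool.DS
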