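import Pool.Agent.Work.MP_6dc561_ds.Interface

/-!
# Block IDL: the number of ideals of norm at most `n`, with a power saving
-/

set_option autoImplicit false

open NumberField IsDedekindDomain Ideal

namespace Pool.DS.IDL

theorem absNorm_coe_pos (K : Type) [Field K] [NumberField K]
    (I : (nonZeroDivisors (Ideal (𝓞 K)))) : 1 ≤ absNorm (I : Ideal (𝓞 K)) :=
  absNorm_pos_of_nonZeroDivisors I

/-- the sum of the numbers of ideals of norm `k ≤ n` is the sum over the ideal classes -/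
theorem sum_idc (K : Type) [Field K] [NumberField K] (n : ℕ) :
    ∑ k ∈ Finset.Icc 1 n, Pool.DS.idc K k =
      ∑ c : ClassGroup (𝓞 K), Nat.card {I : (nonZeroDivisors (Ideal (𝓞 K))) //
        (absNorm (I : Ideal (𝓞 K)) : ℝ) ≤ (n : ℝ) ∧ ClassGroup.mk0 I = c} := by
  classical
  have hfin : {I : (nonZeroDivisors (Ideal (𝓞 K))) | absNorm (I : Ideal (𝓞 K)) ≤ n}.Finite :=
    Ideal.finite_setOfPred_absNorm_le₀ (S := 𝓞 K) n
  obtain ⟨B, hB⟩ : ∃ B : Finset (nonZeroDivisors (Ideal (𝓞 K))),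
      ∀ I, I ∈ B ↔ absNorm (I : Ideal (𝓞 K)) ≤ n := by
    refine ⟨hfin.toFinset, ?_⟩
    intro I
    rw [Set.Finite.mem_toFinset]
    rfl
  have h1 : ∀ c : ClassGroup (𝓞 K), Nat.card {I : (nonZeroDivisors (Ideal (𝓞 K))) //
        (absNorm (I : Ideal (𝓞 K)) : ℝ) ≤ (n : ℝ) ∧ ClassGroup.mk0 I = c} =
      (B.filter (fun I => ClassGroup.mk0 I = c)).card := by
    intro c
    apply Nat.subtype_card
    intro I
    rw [Finset.mem_filter, hB, Nat.cast_le]
  have h2 : ∀ k ∈ Finset.Icc 1 n, Pool.DS.idc K k =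
      (B.filter (fun I : (nonZeroDivisors (Ideal (𝓞 K))) => absNorm (I : Ideal (𝓞 K)) = k)).card := by
    intro k hk
    rw [Finset.mem_Icc] at hk
    have h3 : ((B.filter (fun I : (nonZeroDivisors (Ideal (𝓞 K))) => absNorm (I : Ideal (𝓞 K)) = k)).image
        (fun I : (nonZeroDivisors (Ideal (𝓞 K))) => (I : Ideal (𝓞 K)))).card =
        (B.filter (fun I : (nonZeroDivisors (Ideal (𝓞 K))) => absNorm (I : Ideal (𝓞 K)) = k)).card :=
      Finset.card_image_of_injective _ Subtype.val_injective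
    rw [← h3]
    unfold Pool.DS.idc
    apply Nat.subtype_card
    intro I
    rw [Finset.mem_image]
    constructor
    · rintro ⟨J, hJ, rfl⟩
      rw [Finset.mem_filter] at hJ
      exact hJ.2
    · intro hI
      have hI0 : I ≠ 0 := by
        intro h0
        have : absNorm I = 0 := by rw [h0]; exact Ideal.absNorm_bot
        omega
      refine ⟨(⟨I, mem_nonZeroDivisors_of_ne_zero hI0⟩ : (nonZeroDivisors (Ideal (𝓞 K)))), ?_, rfl⟩
      rw [Finset.mem_filter, hB]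
      exact ⟨le_of_eq_of_le hI hk.2, hI⟩
  rw [Finset.sum_congr rfl h2, Finset.sum_congr rfl (fun c _ => h1 c)]
  rw [← Finset.card_eq_sum_card_fiberwise (f := fun I : (nonZeroDivisors (Ideal (𝓞 K))) => absNorm (I : Ideal (𝓞 K)))
      (t := Finset.Icc 1 n),
    ← Finset.card_eq_sum_card_fiberwise (f := fun I : (nonZeroDivisors (Ideal (𝓞 K))) => ClassGroup.mk0 I) (t := Finset.univ)]
  · intro I _
    exact Finset.mem_coe.2 (Finset.mem_univ _)
  · intro I hI
    rw [Finset.mem_coe, hB] at hI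
    rw [Finset.mem_coe, Finset.mem_Icc]
    exact ⟨absNorm_coe_pos K I, hI⟩

end Pool.DS.IDL

namespace Pool.DS

theorem stmt_IDL (hIDC : Stmt_IDC) : Stmt_IDL := by
  classical
  intro K _ _
  obtain ⟨C, hC⟩ : ∃ C : ClassGroup (𝓞 K) → ℝ, ∀ c : ClassGroup (𝓞 K), ∀ s : ℝ, 1 ≤ s →
    |(Nat.card {I : (nonZeroDivisors (Ideal (𝓞 K))) //
        (absNorm (I : Ideal (𝓞 K)) : ℝ) ≤ s ∧ ClassGroup.mk0 I = c} : ℝ) -
      (2 ^ InfinitePlace.nrRealPlaces K * (2 * Real.pi) ^ InfinitePlace.nrComplexPlaces K *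
        Units.regulator K) / (Units.torsionOrder K * Real.sqrt |discr K|) * s| ≤
      C c * s ^ (1 - 1 / (Module.finrank ℚ K : ℝ)) :=
    ⟨fun c => (hIDC K c).choose, fun c => (hIDC K c).choose_spec⟩
  refine ⟨∑ c, C c, ?_⟩
  intro n hn
  have hn' : (1 : ℝ) ≤ n := by exact_mod_cast hn
  have h1 := IDL.sum_idc K n
  have h2 : (∑ k ∈ Finset.Icc 1 n, (idc K k : ℝ)) =
      ∑ c : ClassGroup (𝓞 K), (Nat.card {I : (nonZeroDivisors (Ideal (𝓞 K))) //
        (absNorm (I : Ideal (𝓞 K)) : ℝ) ≤ (n : ℝ) ∧ ClassGroup.mk0 I = c} : ℝ) := by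
    rw [← Nat.cast_sum, h1, Nat.cast_sum]
  have h3 : dedekindZeta_residue K * n = ∑ _c : ClassGroup (𝓞 K),
      (2 ^ InfinitePlace.nrRealPlaces K * (2 * Real.pi) ^ InfinitePlace.nrComplexPlaces K *
        Units.regulator K) / (Units.torsionOrder K * Real.sqrt |discr K|) * (n : ℝ) := by
    rw [Finset.sum_const, Finset.card_univ, nsmul_eq_mul, dedekindZeta_residue_def, classNumber]
    ring
  rw [h2, h3, ← Finset.sum_sub_distrib, Finset.sum_mul]
  refine (Finset.abs_sum_le_sum_abs _ _).trans ?_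
  exact Finset.sum_le_sum (fun c _ => hC c n hn')

end Pool.DS
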