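import Pool.Agent.Work.MP_6dc561_ds.Interface

/-!
# Block LDZ: the logarithmic derivative of the Dedekind zeta function
-/

set_option autoImplicit false

open NumberField Filter Topology Ideal
open scoped ComplexOrder

namespace Pool.DS

namespace LDZ

variable (K : Type) [Field K] [NumberField K]

theorem theta_nonneg : (0 : ℝ) ≤ 1 - 1 / (Module.finrank ℚ K : ℝ) := by
  have h : (1 : ℝ) ≤ Module.finrank ℚ K := by
    exact_mod_cast (Module.finrank_pos : 0 < Module.finrank ℚ K)
  have : 1 / (Module.finrank ℚ K : ℝ) ≤ 1 := by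
    rw [div_le_one (by linarith)]
    exact h
  linarith

theorem theta_lt : (1 : ℝ) - 1 / (Module.finrank ℚ K : ℝ) < 1 := by
  have h : (0 : ℝ) < Module.finrank ℚ K := by
    exact_mod_cast (Module.finrank_pos : 0 < Module.finrank ℚ K)
  have : 0 < 1 / (Module.finrank ℚ K : ℝ) := by positivity
  linarith

theorem summable_idc (hIDL : Stmt_IDL) (hANC : Stmt_ANC) {s : ℂ} (hs : 1 < s.re) :
    LSeriesSummable (fun n => (idc K n : ℂ)) s := by
  obtain ⟨C, hC⟩ := hIDL K
  have h := (hANC (fun n => (idc K n : ℝ)) (dedekindZeta_residue K) C _ (theta_nonneg K)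
    (theta_lt K) (fun n => Nat.cast_nonneg _) hC).1 s hs
  simpa using h

theorem absc_idc (hIDL : Stmt_IDL) (hANC : Stmt_ANC) {s : ℂ} (hs : 1 < s.re) :
    LSeries.abscissaOfAbsConv (fun n => (idc K n : ℂ)) < s.re := by
  refine lt_of_le_of_lt (LSeries.abscissaOfAbsConv_le_of_forall_lt_LSeriesSummable (x := 1) ?_) ?_
  · intro y hy
    exact summable_idc K hIDL hANC (by simpa using hy)
  · exact_mod_cast hs

theorem summable_lam (hVMA : Stmt_VMA) {s : ℂ} (hs : 1 < s.re) :
    LSeriesSummable (fun n => (LamK K n : ℂ)) s := by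
  have h1 : LSeriesSummable ((Module.finrank ℚ K : ℂ) •
      (fun n : ℕ => ((ArithmeticFunction.vonMangoldt n : ℝ) : ℂ))) s :=
    LSeriesSummable.smul (Module.finrank ℚ K : ℂ)
      (ArithmeticFunction.LSeriesSummable_vonMangoldt hs)
  refine Summable.of_norm_bounded h1.norm fun n => ?_
  refine LSeries.norm_term_le s ?_
  obtain ⟨h2, h3⟩ := hVMA K n
  rw [Complex.norm_real, Real.norm_of_nonneg h2]
  simp only [Pi.smul_apply, smul_eq_mul, norm_mul, Complex.norm_natCast, Complex.norm_real]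
  exact h3.trans (mul_le_mul_of_nonneg_left (le_abs_self _) (Nat.cast_nonneg _))

theorem absc_lam (hVMA : Stmt_VMA) {s : ℂ} (hs : 1 < s.re) :
    LSeries.abscissaOfAbsConv (fun n => (LamK K n : ℂ)) < s.re := by
  refine lt_of_le_of_lt (LSeries.abscissaOfAbsConv_le_of_forall_lt_LSeriesSummable (x := 1) ?_) ?_
  · intro y hy
    exact summable_lam K hVMA (by simpa using hy)
  · exact_mod_cast hs

theorem zeta_eq : dedekindZeta K = LSeries (fun n => (idc K n : ℂ)) := rfl

theorem deriv_eq (hIDL : Stmt_IDL) (hANC : Stmt_ANC) (hVMA : Stmt_VMA) (hVMC : Stmt_VMC)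
    {s : ℂ} (hs : 1 < s.re) :
    deriv (dedekindZeta K) s = - (LSeries (fun n => (LamK K n : ℂ)) s * dedekindZeta K s) := by
  rw [zeta_eq, LSeries_deriv (absc_idc K hIDL hANC hs),
    ← LSeries_convolution' (summable_lam K hVMA hs) (summable_idc K hIDL hANC hs)]
  congr 1
  refine LSeries_congr (fun {n} hn => ?_) s
  rw [LSeries.convolution_def]
  have h := hVMC K n (Nat.one_le_iff_ne_zero.2 hn)
  have h' : ((∑ p ∈ n.divisorsAntidiagonal, LamK K p.1 * (idc K p.2 : ℝ) : ℝ) : ℂ) =
      (((idc K n : ℝ) * Real.log n : ℝ) : ℂ) := by rw [h]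
  push_cast at h'
  show Complex.log n * (idc K n : ℂ) =
    ∑ p ∈ n.divisorsAntidiagonal, (LamK K p.1 : ℂ) * (idc K p.2 : ℂ)
  rw [h', mul_comm]

theorem analytic (hIDL : Stmt_IDL) (hANC : Stmt_ANC) :
    AnalyticOnNhd ℂ (dedekindZeta K) {s : ℂ | 1 < s.re} := by
  rw [zeta_eq]
  intro s hs
  exact LSeries_analyticOnNhd _ s (absc_idc K hIDL hANC hs)

theorem analytic_lam (hVMA : Stmt_VMA) :
    AnalyticOnNhd ℂ (LSeries (fun n => (LamK K n : ℂ))) {s : ℂ | 1 < s.re} := by
  intro s hs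
  exact LSeries_analyticOnNhd _ s (absc_lam K hVMA hs)

theorem idc_one_pos : 0 < idc K 1 := by
  unfold idc
  have : Finite {I : Ideal (𝓞 K) // absNorm I = 1} := Ideal.finite_setOfPred_absNorm_eq 1
  have : Nonempty {I : Ideal (𝓞 K) // absNorm I = 1} := ⟨⊤, by simp⟩
  exact Nat.card_pos

theorem zeta_two (hIDL : Stmt_IDL) (hANC : Stmt_ANC) : dedekindZeta K 2 ≠ 0 := by
  have h := LSeries.positive (a := fun n => (idc K n : ℂ)) (x := 2)
    (fun n => by
      show (0 : ℂ) ≤ (idc K n : ℂ)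
      exact_mod_cast Nat.zero_le _)
    (by exact_mod_cast idc_one_pos K) (by
      have := absc_idc K hIDL hANC (s := 2) (by norm_num)
      simpa using this)
  rw [zeta_eq]
  exact_mod_cast h.ne'

theorem nonvanish (hIDL : Stmt_IDL) (hANC : Stmt_ANC) (hVMA : Stmt_VMA) (hVMC : Stmt_VMC)
    {s : ℂ} (hs : 1 < s.re) : dedekindZeta K s ≠ 0 := by
  intro h0
  have ha : AnalyticAt ℂ (dedekindZeta K) s := analytic K hIDL hANC s hs
  have hl : AnalyticAt ℂ (LSeries (fun n => (LamK K n : ℂ))) s := analytic_lam K hVMA s hs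
  have h1 := ha.analyticOrderAt_deriv_add_one
  rw [h0] at h1
  simp only [sub_zero] at h1
  have hU : IsOpen {s : ℂ | 1 < s.re} := isOpen_lt continuous_const Complex.continuous_re
  have h2 : analyticOrderAt (deriv (dedekindZeta K)) s =
      analyticOrderAt ((- LSeries (fun n => (LamK K n : ℂ))) * dedekindZeta K) s := by
    refine analyticOrderAt_congr ?_
    filter_upwards [hU.mem_nhds hs] with z hz
    rw [deriv_eq K hIDL hANC hVMA hVMC hz]
    simp
  have h3 : analyticOrderAt (dedekindZeta K) s ≤ analyticOrderAt (deriv (dedekindZeta K)) s := by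
    rw [h2, analyticOrderAt_mul hl.neg ha]
    exact le_add_self
  have h4 : analyticOrderAt (dedekindZeta K) s = ⊤ := by
    by_contra hne
    have hlt : analyticOrderAt (deriv (dedekindZeta K)) s ≠ ⊤ := by
      intro h
      rw [h] at h1
      exact hne (by rw [← h1]; rfl)
    obtain ⟨m, hm⟩ := ENat.ne_top_iff_exists.1 hlt
    rw [← h1, ← hm] at h3
    have : ((m + 1 : ℕ) : ℕ∞) ≤ (m : ℕ∞) := by exact_mod_cast h3
    have := ENat.natCast_le_natCast.1 this
    omega
  have h5 : dedekindZeta K =ᶠ[𝓝 s] 0 := by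
    rw [analyticOrderAt_eq_top] at h4
    exact h4
  have hconv : Convex ℝ {s : ℂ | 1 < s.re} := convex_halfSpace_re_gt 1
  have h6 := (analytic K hIDL hANC).eqOn_zero_of_preconnected_of_eventuallyEq_zero
    hconv.isPreconnected hs h5
  exact zeta_two K hIDL hANC (h6 (show (1 : ℝ) < (2 : ℂ).re by norm_num))

end LDZ

open LDZ in
theorem stmt_LDZ (hIDL : Stmt_IDL) (hANC : Stmt_ANC) (hVMA : Stmt_VMA) (hVMC : Stmt_VMC) :
    Stmt_LDZ := by
  intro K _ _ s hs
  refine ⟨summable_lam K hVMA hs, nonvanish K hIDL hANC hVMA hVMC hs,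
    (analytic K hIDL hANC s hs).differentiableAt, ?_⟩
  rw [deriv_eq K hIDL hANC hVMA hVMC hs]
  have := nonvanish K hIDL hANC hVMA hVMC hs
  field_simp

end Pool.DS
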