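import Pool.Agent.Work.MP_6dc561_ds.Interface

/-! Block MEA (helper8): mean values of `e_K` and of `e_K e_K'` -/

set_option autoImplicit false

open NumberField IsDedekindDomain Ideal Polynomial Filter Topology
open scoped TensorProduct

namespace Pool.DS

namespace MEA

theorem log_div_sqrt : Tendsto (fun x : ℝ => Real.sqrt x * Real.log x / x) atTop (𝓝 0) := by
  have h1 : Tendsto (fun x : ℝ => Real.log x / x ^ (1 / 2 : ℝ)) atTop (𝓝 0) :=
    (isLittleO_log_rpow_atTop (by norm_num : (0 : ℝ) < 1 / 2)).tendsto_div_nhds_zero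
  refine h1.congr' ?_
  filter_upwards [eventually_gt_atTop 0] with x hx
  rw [← Real.sqrt_eq_rpow]
  have h2 : Real.sqrt x ≠ 0 := (Real.sqrt_pos.mpr hx).ne'
  have h3 : Real.sqrt x * Real.sqrt x = x := Real.mul_self_sqrt hx.le
  rw [div_eq_div_iff h2 hx.ne']
  calc Real.log x * x = Real.log x * (Real.sqrt x * Real.sqrt x) := by rw [h3]
    _ = Real.sqrt x * Real.log x * Real.sqrt x := by ring

theorem close {a b : ℝ → ℝ} {C l : ℝ} (h : ∀ x : ℝ, 1 ≤ x → |a x - b x| ≤ C * Real.sqrt x)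
    (hb : Tendsto (fun x : ℝ => b x * Real.log x / x) atTop (𝓝 l)) :
    Tendsto (fun x : ℝ => a x * Real.log x / x) atTop (𝓝 l) := by
  have h1 : Tendsto (fun x : ℝ => (a x - b x) * Real.log x / x) atTop (𝓝 0) := by
    have h2 : Tendsto (fun x : ℝ => C * (Real.sqrt x * Real.log x / x)) atTop (𝓝 0) := by
      simpa using log_div_sqrt.const_mul C
    refine squeeze_zero_norm' ?_ h2
    filter_upwards [eventually_ge_atTop 1] with x hx
    have h3 : 0 ≤ Real.log x := Real.log_nonneg hx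
    have h4 : 0 < x := by linarith
    rw [Real.norm_eq_abs, abs_div, abs_mul, abs_of_nonneg h3, abs_of_pos h4]
    have h5 : |a x - b x| * Real.log x ≤ C * Real.sqrt x * Real.log x :=
      mul_le_mul_of_nonneg_right (h x hx) h3
    calc |a x - b x| * Real.log x / x ≤ C * Real.sqrt x * Real.log x / x :=
          div_le_div_of_nonneg_right h5 h4.le
      _ = C * (Real.sqrt x * Real.log x / x) := by ring
  have h2 := h1.add hb
  simp only [zero_add] at h2
  refine h2.congr fun x => ?_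
  ring

end MEA

theorem stmt_MEA (hHOM : Stmt_HOM) (hTEN : Stmt_TEN) (hORD : Stmt_ORD) (hDG1 : Stmt_DG1)
    (_hDGB : Stmt_DGB) (hRDC : Stmt_RDC) (hPIT : Stmt_PIT) : Stmt_MEA := by
  classical
  intro F _ _
  have first : ∀ (K : Type) [Field K] [NumberField K] [Algebra F K],
      Tendsto (fun x : ℝ => (∑ v ∈ upTo F x, (degOne F K v : ℝ)) * Real.log x / x) atTop
        (𝓝 1) := by
    intro K _ _ _
    obtain ⟨C, hC⟩ := hDG1 F K
    exact MEA.close hC (hPIT K)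
  refine ⟨fun K _ _ _ => first K, ?_⟩
  intro K₁ _ _ _ K₂ _ _ _
  obtain ⟨hred, hfin, -, -⟩ := hRDC F K₁ K₂
  obtain ⟨R, hR1, hR2, hR3⟩ := hTEN F K₁ K₂ (K₁ ⊗[F] K₂)
    Algebra.TensorProduct.includeLeft Algebra.TensorProduct.includeRight (by
      have : Algebra.TensorProduct.productMap
          (Algebra.TensorProduct.includeLeft : K₁ →ₐ[F] K₁ ⊗[F] K₂)
          (Algebra.TensorProduct.includeRight : K₂ →ₐ[F] K₁ ⊗[F] K₂) = AlgHom.id F _ := by
        ext <;> simp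
      rw [this]
      exact Function.bijective_id)
  obtain ⟨L, i1, i2, i3, hL⟩ := hORD F (K₁ ⊗[F] K₂) R hR1 hR2
  set S := hR3.toFinset ∪ hL.toFinset with hS
  have key : ∀ v ∉ S, (degOne F K₁ v : ℝ) * (degOne F K₂ v : ℝ) =
      ∑ j, (degOne F (L j) v : ℝ) := by
    intro v hv
    rw [hS, Finset.mem_union, not_or, Set.Finite.mem_toFinset, Set.Finite.mem_toFinset] at hv
    obtain ⟨h1, h2⟩ := hv
    rw [Set.mem_ofPred_eq, not_not] at h1 h2
    rw [hHOM F K₁ v, hHOM F K₂ v, ← Nat.cast_mul, h1, h2]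
    push_cast
    refine Finset.sum_congr rfl fun j _ => ?_
    rw [hHOM F (L j) v]
  have hsum : Tendsto (fun x : ℝ => (∑ v ∈ upTo F x, ∑ j, (degOne F (L j) v : ℝ)) *
      Real.log x / x) atTop (𝓝 (Nat.card (PrimeSpectrum (K₁ ⊗[F] K₂)) : ℝ)) := by
    have h1 : Tendsto (fun x : ℝ => ∑ j, (∑ v ∈ upTo F x, (degOne F (L j) v : ℝ)) *
        Real.log x / x) atTop
          (𝓝 (∑ _j : Fin (Nat.card (PrimeSpectrum (K₁ ⊗[F] K₂))), (1 : ℝ))) :=
      tendsto_finsetSum _ fun j _ => first (L j)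
    have h2 : (∑ _j : Fin (Nat.card (PrimeSpectrum (K₁ ⊗[F] K₂))), (1 : ℝ)) =
        (Nat.card (PrimeSpectrum (K₁ ⊗[F] K₂)) : ℝ) := by simp
    rw [h2] at h1
    refine h1.congr fun x => ?_
    rw [← Finset.sum_div, ← Finset.sum_mul, Finset.sum_comm]
  refine MEA.close (C := ∑ v ∈ S, |(degOne F K₁ v : ℝ) * (degOne F K₂ v : ℝ) -
      ∑ j, (degOne F (L j) v : ℝ)|) ?_ hsum
  intro x hx
  rw [← Finset.sum_sub_distrib]
  have h0 : 0 ≤ ∑ v ∈ S, |(degOne F K₁ v : ℝ) * (degOne F K₂ v : ℝ) -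
      ∑ j, (degOne F (L j) v : ℝ)| := Finset.sum_nonneg fun _ _ => abs_nonneg _
  have h1 : (1 : ℝ) ≤ Real.sqrt x := by
    rw [show (1 : ℝ) = Real.sqrt 1 by simp]
    exact Real.sqrt_le_sqrt hx
  calc |∑ v ∈ upTo F x, ((degOne F K₁ v : ℝ) * (degOne F K₂ v : ℝ) -
        ∑ j, (degOne F (L j) v : ℝ))|
      ≤ ∑ v ∈ upTo F x, |(degOne F K₁ v : ℝ) * (degOne F K₂ v : ℝ) -
        ∑ j, (degOne F (L j) v : ℝ)| := Finset.abs_sum_le_sum_abs _ _
    _ = ∑ v ∈ (upTo F x).filter (· ∈ S), |(degOne F K₁ v : ℝ) * (degOne F K₂ v : ℝ) -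
        ∑ j, (degOne F (L j) v : ℝ)| := by
        rw [Finset.sum_filter]
        refine Finset.sum_congr rfl fun v _ => ?_
        split_ifs with hv
        · rfl
        · rw [key v hv, sub_self, abs_zero]
    _ ≤ ∑ v ∈ S, |(degOne F K₁ v : ℝ) * (degOne F K₂ v : ℝ) -
        ∑ j, (degOne F (L j) v : ℝ)| :=
        Finset.sum_le_sum_of_subset_of_nonneg
          (fun v hv => (Finset.mem_filter.mp hv).2) fun _ _ _ => abs_nonneg _
    _ ≤ (∑ v ∈ S, |(degOne F K₁ v : ℝ) * (degOne F K₂ v : ℝ) -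
        ∑ j, (degOne F (L j) v : ℝ)|) * Real.sqrt x := le_mul_of_one_le_right h0 h1

end Pool.DS
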