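import Pool.Agent.Work.MP_6dc561_ds.Interface

/-!
# ORA: homomorphisms do not see a finite index prime to the target
-/

set_option autoImplicit false

namespace Pool.DS

namespace ORA

variable {A : Type} [CommRing A] {B : Type} [CommRing B] [Algebra A B] {R R' : Subalgebra A B}
  {k : Type} [Field k] [Algebra A k] {c : A}

/-- multiplication by `c` as a map from `R'` to `R` -/
def mulc (h : ∀ b ∈ R', c • b ∈ R) (x : R') : R := ⟨c • (x : B), h x x.2⟩

theorem mulc_mul (h : ∀ b ∈ R', c • b ∈ R) (x y : R') :
    mulc h x * mulc h y = algebraMap A R c * mulc h (x * y) := by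
  apply Subtype.ext
  simp only [mulc, MulMemClass.coe_mul, Subalgebra.coe_algebraMap, Algebra.smul_def]
  ring

theorem mulc_add (h : ∀ b ∈ R', c • b ∈ R) (x y : R') :
    mulc h (x + y) = mulc h x + mulc h y := by
  apply Subtype.ext
  simp [mulc]

theorem mulc_algebraMap (h : ∀ b ∈ R', c • b ∈ R) (a : A) :
    mulc h (algebraMap A R' a) = algebraMap A R c * algebraMap A R a := by
  apply Subtype.ext
  simp [mulc, Algebra.smul_def]

/-- the extension of a homomorphism of `R` to `R'` -/
noncomputable def extend (h : ∀ b ∈ R', c • b ∈ R) (hc : algebraMap A k c ≠ 0)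
    (φ : R →ₐ[A] k) : R' →ₐ[A] k where
  toFun x := φ (mulc h x) / algebraMap A k c
  map_one' := by
    have h1 := mulc_algebraMap h (1 : A)
    rw [map_one, map_one, mul_one] at h1
    rw [h1, AlgHom.commutes, div_self hc]
  map_mul' x y := by
    have h1 : φ (mulc h x) * φ (mulc h y) = algebraMap A k c * φ (mulc h (x * y)) := by
      rw [← map_mul, mulc_mul, map_mul, AlgHom.commutes]
    field_simp
    linear_combination -h1
  map_zero' := by
    have h1 := mulc_algebraMap h (0 : A)
    rw [map_zero, map_zero, mul_zero] at h1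
    rw [h1, map_zero, zero_div]
  map_add' x y := by
    rw [mulc_add, map_add, add_div]
  commutes' a := by
    rw [mulc_algebraMap, map_mul, AlgHom.commutes, AlgHom.commutes]
    field_simp

end ORA

theorem stmt_ORA : Stmt_ORA := by
  intro A _ B _ _ R R' k _ _ c hle h hc
  symm
  refine Nat.card_congr (Equiv.ofBijective
    (fun ψ : R' →ₐ[A] k => ψ.comp (Subalgebra.inclusion hle)) ⟨?_, ?_⟩)
  · intro ψ ψ' hψ
    apply AlgHom.ext
    intro x
    have h1 := DFunLike.congr_fun hψ (ORA.mulc h x)
    have h2 : Subalgebra.inclusion hle (ORA.mulc h x) = c • x := by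
      apply Subtype.ext
      rfl
    simp only [AlgHom.comp_apply, h2, Algebra.smul_def, map_mul, AlgHom.commutes] at h1
    exact mul_left_cancel₀ hc h1
  · intro φ
    refine ⟨ORA.extend h hc φ, ?_⟩
    apply AlgHom.ext
    intro x
    change φ (ORA.mulc h (Subalgebra.inclusion hle x)) / algebraMap A k c = φ x
    have h2 : ORA.mulc h (Subalgebra.inclusion hle x) = c • x := by
      apply Subtype.ext
      rfl
    rw [h2, map_smul, Algebra.smul_def]
    field_simp

end Pool.DS
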