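import Pool.Agent.Work.MP_6dc561_ds.Interface

/-!
# ORB: homomorphisms of a finite product to a field
-/

set_option autoImplicit false

namespace Pool.DS

theorem stmt_ORB : Stmt_ORB := by
  classical
  intro A _ n S _ _ k _ _ hfin
  rw [← Nat.card_sigma]
  symm
  refine Nat.card_congr (Equiv.ofBijective
    (fun p : (Σ j, S j →ₐ[A] k) => p.2.comp (Pi.evalAlgHom A S p.1)) ⟨?_, ?_⟩)
  · rintro ⟨j, ψ⟩ ⟨j', ψ'⟩ hψ
    have hjj : j = j' := by
      by_contra hne
      have h1 := DFunLike.congr_fun hψ (Pi.single j 1)
      simp only [AlgHom.comp_apply, Pi.evalAlgHom_apply, Pi.single_eq_same, map_one] at h1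
      rw [Pi.single_eq_of_ne (Ne.symm hne), map_zero] at h1
      exact one_ne_zero h1
    subst hjj
    congr 1
    apply AlgHom.ext
    intro x
    have h1 := DFunLike.congr_fun hψ (Pi.single j x)
    simpa using h1
  · intro φ
    have hsum : ∑ j, φ (Pi.single j 1) = 1 := by
      have h1 : ∑ j, Pi.single j 1 = (1 : ∀ j, S j) := Finset.univ_sum_single (1 : ∀ j, S j)
      rw [← map_sum, h1, map_one]
    obtain ⟨j, -, hj⟩ : ∃ j ∈ Finset.univ, φ (Pi.single j 1) ≠ 0 := by
      apply Finset.exists_ne_zero_of_sum_ne_zero
      rw [hsum]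
      exact one_ne_zero
    have hj1 : φ (Pi.single j 1) = 1 := by
      have h1 : φ (Pi.single j 1) * φ (Pi.single j 1) = φ (Pi.single j 1) * 1 := by
        rw [← map_mul, ← Pi.single_mul, mul_one, mul_one]
      exact mul_left_cancel₀ hj h1
    have key : ∀ x : ∀ i, S i, φ (Pi.single j (x j)) = φ x := by
      intro x
      have h1 : x * Pi.single j 1 = Pi.single j (x j) := by
        ext i
        by_cases hi : i = j
        · subst hi
          simp
        · simp [Pi.single_eq_of_ne hi]
      rw [← h1, map_mul, hj1, mul_one]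
    refine ⟨⟨j, { toFun := fun s => φ (Pi.single j s), map_one' := hj1, map_mul' := ?_,
                  map_zero' := ?_, map_add' := ?_, commutes' := ?_ }⟩, ?_⟩
    · intro x y
      rw [Pi.single_mul, map_mul]
    · simp
    · intro x y
      rw [Pi.single_add, map_add]
    · intro a
      have h1 := key (algebraMap A (∀ i, S i) a)
      rw [AlgHom.commutes] at h1
      exact h1
    · apply AlgHom.ext
      intro x
      exact key x

end Pool.DS
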