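import Pool.Agent.Work.MP_6dc561_ds.Interface

/-!
# ORD: homomorphisms of an order in a finite reduced algebra
-/

set_option autoImplicit false

open NumberField IsDedekindDomain

namespace Pool.DS

namespace ORD

theorem exists_denominator (F : Type) [Field F] [NumberField F] (B : Type) [CommRing B]
    [Algebra F B] (R : Subalgebra (𝓞 F) B)
    (hc : ∀ b : B, ∃ c : 𝓞 F, c ≠ 0 ∧ c • b ∈ R) (N : Submodule (𝓞 F) B) (hN : N.FG) :
    ∃ c : 𝓞 F, c ≠ 0 ∧ ∀ b ∈ N, c • b ∈ R := by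
  classical
  obtain ⟨S, rfl⟩ := hN
  choose d hd0 hdR using hc
  refine ⟨∏ b ∈ S, d b, Finset.prod_ne_zero_iff.mpr fun b _ => hd0 b, ?_⟩
  intro b hb
  induction hb using Submodule.span_induction with
  | mem x hx =>
    have hx' : x ∈ S := hx
    rw [← Finset.prod_erase_mul S d hx', mul_smul]
    exact R.smul_mem (hdR x) _
  | zero =>
    rw [smul_zero]
    exact R.zero_mem
  | add x y _ _ hx hy =>
    rw [smul_add]
    exact R.add_mem hx hy
  | smul a x _ hx =>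
    rw [smul_comm]
    exact R.smul_mem hx _

theorem core (hA : Stmt_ORA) (hB : Stmt_ORB) (F : Type) [Field F] [NumberField F] (B : Type)
    [CommRing B] [Algebra F B] (R : Subalgebra (𝓞 F) B) (hR : Module.Finite (𝓞 F) R)
    (hc : ∀ b : B, ∃ c : 𝓞 F, c ≠ 0 ∧ c • b ∈ R) (n : ℕ)
    (L : Fin n → Type) [∀ j, Field (L j)] [∀ j, NumberField (L j)] [∀ j, Algebra F (L j)]
    (e : B ≃ₐ[F] ∀ j, L j) :
      {v : HeightOneSpectrum (𝓞 F) |
        Nat.card (R →ₐ[𝓞 F] (𝓞 F ⧸ v.asIdeal)) ≠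
          ∑ j, Nat.card (𝓞 (L j) →ₐ[𝓞 F] (𝓞 F ⧸ v.asIdeal))}.Finite := by
  classical
  let ι : (∀ j, 𝓞 (L j)) →ₐ[𝓞 F] (∀ j, L j) := Pi.algHom (𝓞 F) _ fun j =>
    (IsScalarTower.toAlgHom (𝓞 F) (𝓞 (L j)) (L j)).comp (Pi.evalAlgHom (𝓞 F) _ j)
  have hιa : ∀ x j, ι x j = algebraMap (𝓞 (L j)) (L j) (x j) := fun x j => rfl
  have hι : Function.Injective ι := by
    intro x y hxy
    funext j
    have h1 := congrFun hxy j
    rw [hιa, hιa] at h1
    exact RingOfIntegers.coe_injective h1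
  let e' : B ≃ₐ[𝓞 F] ∀ j, L j := e.restrictScalars (𝓞 F)
  let ψ : (∀ j, 𝓞 (L j)) →ₐ[𝓞 F] B := (e'.symm : (∀ j, L j) →ₐ[𝓞 F] B).comp ι
  have hψ : Function.Injective ψ := e'.symm.injective.comp hι
  have hle : R ≤ ψ.range := by
    intro b hb
    have hint : IsIntegral (𝓞 F) b := (IsIntegral.of_finite (𝓞 F) (⟨b, hb⟩ : R)).map R.val
    have hj : ∀ j, ∃ y : 𝓞 (L j), algebraMap (𝓞 (L j)) (L j) y = e' b j := by
      intro j
      have h1 : IsIntegral (𝓞 F) (e' b j) :=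
        hint.map ((Pi.evalAlgHom (𝓞 F) L j).comp (e' : B →ₐ[𝓞 F] ∀ j, L j))
      have h2 : IsIntegral ℤ (e' b j) := isIntegral_trans _ h1
      exact ⟨⟨e' b j, h2⟩, rfl⟩
    choose y hy using hj
    refine ⟨y, ?_⟩
    change e'.symm (ι y) = b
    rw [AlgEquiv.symm_apply_eq]
    funext j
    rw [hιa, hy]
  have hfg : (Subalgebra.toSubmodule ψ.range).FG := by
    have h1 : Module.Finite (𝓞 F) (∀ j, 𝓞 (L j)) := inferInstance
    have h2 : Subalgebra.toSubmodule ψ.range = LinearMap.range ψ.toLinearMap := by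
      ext x
      simp
    rw [h2]
    exact Module.Finite.iff_fg.mp inferInstance
  obtain ⟨c, hc0, hcR⟩ := exists_denominator F B R hc _ hfg
  have hfin : {v : HeightOneSpectrum (𝓞 F) | v.asIdeal ∣ Ideal.span {c}}.Finite := by
    apply Ideal.finite_factors
    rw [Ne, Ideal.zero_eq_bot, Ideal.span_singleton_eq_bot]
    exact hc0
  refine hfin.subset ?_
  intro v hv
  by_contra hvc
  apply hv
  have hc1 : algebraMap (𝓞 F) (𝓞 F ⧸ v.asIdeal) c ≠ 0 := by
    intro h0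
    apply hvc
    change v.asIdeal ∣ Ideal.span {c}
    rw [Ideal.dvd_span_singleton]
    exact Ideal.Quotient.eq_zero_iff_mem.mp h0
  letI : Field (𝓞 F ⧸ v.asIdeal) := Ideal.Quotient.field v.asIdeal
  have h1 := hA (𝓞 F) B R ψ.range (𝓞 F ⧸ v.asIdeal) c hle hcR hc1
  have h2 := hB (𝓞 F) n (fun j => 𝓞 (L j)) (𝓞 F ⧸ v.asIdeal) (fun j => inferInstance)
  rw [h1, ← h2]
  exact Nat.card_congr ((AlgEquiv.ofInjective ψ hψ).arrowCongr AlgEquiv.refl).symm

end ORD

theorem stmt_ORD (hA : Stmt_ORA) (hB : Stmt_ORB) : Stmt_ORD := by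
  intro F _ _ B _ _ _ _ R hR hc
  classical
  haveI : IsArtinianRing B := IsArtinianRing.of_finite F B
  haveI : Finite (PrimeSpectrum B) := inferInstance
  let P : Fin (Nat.card (PrimeSpectrum B)) ≃ MaximalSpectrum B :=
    (Finite.equivFin (PrimeSpectrum B)).symm.trans
      IsArtinianRing.primeSpectrumEquivMaximalSpectrum
  haveI hmax : ∀ j, (P j).asIdeal.IsMaximal := fun j => (P j).isMaximal
  let fi : ∀ j, Field (B ⧸ (P j).asIdeal) := fun j => Ideal.Quotient.field (P j).asIdeal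
  have hnf : ∀ j, @NumberField (B ⧸ (P j).asIdeal) (fi j) := fun j => by
    letI := fi j
    exact NumberField.of_module_finite F (B ⧸ (P j).asIdeal)
  refine ⟨fun j => B ⧸ (P j).asIdeal, fi, hnf, fun j => inferInstance, ?_⟩
  let e₁ : B ≃ₐ[F] ∀ I : MaximalSpectrum B, B ⧸ I.asIdeal :=
    (IsArtinianRing.equivPi B).restrictScalars F
  let e₂ : (∀ I : MaximalSpectrum B, B ⧸ I.asIdeal) ≃ₐ[F] ∀ j, B ⧸ (P j).asIdeal :=
    (AlgEquiv.piCongrLeft F (fun I : MaximalSpectrum B => B ⧸ I.asIdeal) P).symm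
  exact ORD.core hA hB F B R hR hc _ (fun j => B ⧸ (P j).asIdeal) (e₁.trans e₂)

end Pool.DS
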