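import Pool.Agent.Work.MP_6dc561_ds.VMA

/-!
PIT: the prime ideal theorem from the asymptotics of the sum of the von Mangoldt function.
-/

set_option autoImplicit false

open NumberField IsDedekindDomain Ideal Polynomial Filter Topology MeasureTheory
open scoped TensorProduct ENNReal NNReal Pointwise

namespace Pool.DS

namespace PIT

open VMA

variable (K : Type) [Field K] [NumberField K]

theorem card_upTo_le (y : ℝ) (hy : 0 ≤ y) :
    ((upTo K y).card : ℝ) ≤ Module.finrank ℚ K * y := by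
  classical
  have h1 : (upTo K y).card ≤ Module.finrank ℚ K * ((upTo K y).image rp).card := by
    refine Finset.card_le_mul_card_image _ _ fun p hp => ?_
    obtain ⟨w, _, hw⟩ := Finset.mem_image.1 hp
    refine card_over p (hw ▸ rp_prime w) _ fun v hv => ?_
    exact (Finset.mem_filter.1 hv).2
  have h2 : ((upTo K y).image rp).card ≤ ⌊y⌋₊ := by
    have h3 : (upTo K y).image rp ⊆ Finset.Icc 1 ⌊y⌋₊ := by
      intro p hp
      obtain ⟨w, hw, rfl⟩ := Finset.mem_image.1 hp
      rw [Finset.mem_Icc]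
      refine ⟨(rp_prime w).one_le, Nat.le_floor ?_⟩
      refine le_trans ?_ (mem_upTo.1 hw)
      exact_mod_cast rp_le_norm w
    refine le_trans (Finset.card_le_card h3) ?_
    simp
  calc ((upTo K y).card : ℝ) ≤ ((Module.finrank ℚ K * ((upTo K y).image rp).card : ℕ) : ℝ) := by
        exact_mod_cast h1
    _ = (Module.finrank ℚ K : ℝ) * (((upTo K y).image rp).card : ℝ) := by push_cast; ring
    _ ≤ (Module.finrank ℚ K : ℝ) * y := by
        refine mul_le_mul_of_nonneg_left ?_ (Nat.cast_nonneg _)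
        exact le_trans (Nat.cast_le.2 h2) (Nat.floor_le hy)

/-- the Chebyshev function -/
noncomputable def th (x : ℝ) : ℝ := ∑ w ∈ upTo K x, Real.log (absNorm w.asIdeal)

/-- number of exponents -/
noncomputable def cw (M : ℕ) (w : HeightOneSpectrum (𝓞 K)) : ℕ :=
  ((Finset.range M).filter (fun k => absNorm w.asIdeal ^ (k + 1) ≤ M)).card

theorem psi_eq (x : ℝ) (hx : 0 ≤ x) :
    (∑ k ∈ Finset.Icc 1 ⌊x⌋₊, LamK K k) =
      ∑ w ∈ upTo K x, (cw K ⌊x⌋₊ w : ℝ) * Real.log (absNorm w.asIdeal) := by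
  classical
  set M := ⌊x⌋₊ with hM
  set S := ((upTo K x) ×ˢ (Finset.range M)).filter
    (fun p => absNorm p.1.asIdeal ^ (p.2 + 1) ≤ M) with hS
  have h1 : ∀ n ∈ Finset.Icc 1 M, LamK K n = ∑ p ∈ S,
      (if absNorm p.1.asIdeal ^ (p.2 + 1) = n then Real.log (absNorm p.1.asIdeal) else 0) := by
    intro n hn
    rw [Finset.mem_Icc] at hn
    unfold LamK
    refine finsum_eq_sum_of_support_subset _ ?_
    intro p hp
    rw [Function.mem_support] at hp
    have hpn : absNorm p.1.asIdeal ^ (p.2 + 1) = n := by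
      by_contra hc
      rw [if_neg hc] at hp
      exact hp rfl
    rw [Finset.mem_coe, hS, Finset.mem_filter, Finset.mem_product, mem_upTo, Finset.mem_range]
    refine ⟨⟨?_, ?_⟩, by omega⟩
    · have h2 : absNorm p.1.asIdeal ≤ M := by
        refine le_trans ?_ (hpn ▸ hn.2)
        exact Nat.le_self_pow (Nat.succ_ne_zero _) _
      exact le_trans (Nat.cast_le.2 h2) (Nat.floor_le hx)
    · have h3 : p.2 + 1 < 2 ^ (p.2 + 1) := Nat.lt_two_pow_self
      have h4 : 2 ^ (p.2 + 1) ≤ absNorm p.1.asIdeal ^ (p.2 + 1) :=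
        Nat.pow_le_pow_left (two_le_norm p.1) _
      omega
  rw [Finset.sum_congr rfl h1, Finset.sum_comm]
  have h5 : ∀ p ∈ S, (∑ n ∈ Finset.Icc 1 M,
      (if absNorm p.1.asIdeal ^ (p.2 + 1) = n then Real.log (absNorm p.1.asIdeal) else 0)) =
        Real.log (absNorm p.1.asIdeal) := by
    intro p hp
    rw [Finset.sum_ite_eq, if_pos]
    rw [hS, Finset.mem_filter] at hp
    rw [Finset.mem_Icc]
    refine ⟨?_, hp.2⟩
    exact Nat.one_le_pow _ _ (by have := two_le_norm p.1; omega)
  rw [Finset.sum_congr rfl h5, hS, Finset.sum_filter, Finset.sum_product]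
  refine Finset.sum_congr rfl fun w _ => ?_
  rw [← Finset.sum_filter]
  dsimp only
  rw [Finset.sum_const, nsmul_eq_mul]
  rfl

theorem cw_pos (x : ℝ) (w : HeightOneSpectrum (𝓞 K)) (hw : w ∈ upTo K x) :
    1 ≤ cw K ⌊x⌋₊ w := by
  rw [mem_upTo] at hw
  have h1 : absNorm w.asIdeal ≤ ⌊x⌋₊ := Nat.le_floor hw
  have h2 := two_le_norm w
  unfold cw
  rw [Nat.one_le_iff_ne_zero, ← Nat.pos_iff_ne_zero, Finset.card_pos]
  refine ⟨0, Finset.mem_filter.2 ⟨Finset.mem_range.2 (by omega), ?_⟩⟩
  simpa using h1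

theorem cw_log (x : ℝ) (w : HeightOneSpectrum (𝓞 K)) (hw : w ∈ upTo K x) :
    (cw K ⌊x⌋₊ w : ℝ) * Real.log (absNorm w.asIdeal) ≤ Real.log x := by
  rw [mem_upTo] at hw
  have h1 : absNorm w.asIdeal ≤ ⌊x⌋₊ := Nat.le_floor hw
  have h2 := two_le_norm w
  have hx0 : 0 ≤ x := le_trans (Nat.cast_nonneg _) hw
  have h3 : cw K ⌊x⌋₊ w ≤ Nat.log (absNorm w.asIdeal) ⌊x⌋₊ := by
    unfold cw
    calc _ ≤ (Finset.range (Nat.log (absNorm w.asIdeal) ⌊x⌋₊)).card := by
          refine Finset.card_le_card ?_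
          intro k hk
          rw [Finset.mem_filter] at hk
          rw [Finset.mem_range]
          have := (Nat.le_log_iff_pow_le (by omega) (by omega)).2 hk.2
          omega
      _ = _ := Finset.card_range _
  calc (cw K ⌊x⌋₊ w : ℝ) * Real.log (absNorm w.asIdeal)
      ≤ (Nat.log (absNorm w.asIdeal) ⌊x⌋₊ : ℝ) * Real.log (absNorm w.asIdeal) := by
        refine mul_le_mul_of_nonneg_right ?_ (log_nonneg w)
        exact_mod_cast h3
    _ = Real.log ((absNorm w.asIdeal : ℝ) ^ Nat.log (absNorm w.asIdeal) ⌊x⌋₊) := by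
        rw [Real.log_pow]
    _ ≤ Real.log x := by
        refine Real.log_le_log ?_ ?_
        · have : (0 : ℝ) < absNorm w.asIdeal := by
            exact_mod_cast (show 0 < absNorm w.asIdeal by omega)
          positivity
        · have h4 := Nat.pow_log_le_self (absNorm w.asIdeal) (x := ⌊x⌋₊) (by omega)
          calc (absNorm w.asIdeal : ℝ) ^ Nat.log (absNorm w.asIdeal) ⌊x⌋₊
              ≤ (⌊x⌋₊ : ℝ) := by exact_mod_cast h4
            _ ≤ x := Nat.floor_le hx0

theorem cw_one (x : ℝ) (w : HeightOneSpectrum (𝓞 K)) (hw : w ∉ upTo K (Real.sqrt x)) :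
    cw K ⌊x⌋₊ w ≤ 1 := by
  rw [mem_upTo, not_le] at hw
  unfold cw
  rw [Finset.card_le_one]
  have key : ∀ k, absNorm w.asIdeal ^ (k + 1) ≤ ⌊x⌋₊ → k = 0 := by
    intro k hk
    by_contra hne
    have h0 : 0 < ⌊x⌋₊ := lt_of_lt_of_le
      (Nat.pow_pos (by have := two_le_norm w; omega)) hk
    have hx : 0 ≤ x := by
      by_contra hc
      rw [Nat.floor_of_nonpos (by linarith)] at h0
      exact lt_irrefl _ h0
    have h1 : absNorm w.asIdeal ^ 2 ≤ absNorm w.asIdeal ^ (k + 1) :=
      Nat.pow_le_pow_right (by have := two_le_norm w; omega) (by omega)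
    have h2 : ((absNorm w.asIdeal : ℝ)) ^ 2 ≤ x := by
      calc ((absNorm w.asIdeal : ℝ)) ^ 2 ≤ (⌊x⌋₊ : ℝ) := by exact_mod_cast h1.trans hk
        _ ≤ x := Nat.floor_le hx
    have h3 : (absNorm w.asIdeal : ℝ) ≤ Real.sqrt x := Real.le_sqrt_of_sq_le h2
    linarith
  intro a ha b hb
  rw [Finset.mem_filter] at ha hb
  rw [key a ha.2, key b hb.2]

theorem th_le_psi (x : ℝ) (hx : 0 ≤ x) : th K x ≤ ∑ k ∈ Finset.Icc 1 ⌊x⌋₊, LamK K k := by
  rw [psi_eq K x hx]
  unfold th
  refine Finset.sum_le_sum fun w hw => ?_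
  have h1 : (1 : ℝ) ≤ cw K ⌊x⌋₊ w := by exact_mod_cast cw_pos K x w hw
  have h2 := log_nonneg w
  nlinarith

theorem psi_le (x : ℝ) (hx : 1 ≤ x) : (∑ k ∈ Finset.Icc 1 ⌊x⌋₊, LamK K k) ≤
    th K x + Module.finrank ℚ K * Real.sqrt x * Real.log x := by
  classical
  have hlx : 0 ≤ Real.log x := Real.log_nonneg hx
  rw [psi_eq K x (by linarith)]
  have h1 : ∀ w ∈ upTo K x, (cw K ⌊x⌋₊ w : ℝ) * Real.log (absNorm w.asIdeal) ≤
      Real.log (absNorm w.asIdeal) + (if w ∈ upTo K (Real.sqrt x) then Real.log x else 0) := by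
    intro w hw
    have h2 := log_nonneg w
    split_ifs with h
    · have := cw_log K x w hw
      linarith
    · have h3 : (cw K ⌊x⌋₊ w : ℝ) ≤ 1 := by exact_mod_cast cw_one K x w h
      nlinarith
  refine le_trans (Finset.sum_le_sum h1) ?_
  rw [Finset.sum_add_distrib]
  unfold th
  refine add_le_add (le_refl _) ?_
  rw [← Finset.sum_filter, Finset.sum_const, nsmul_eq_mul]
  refine mul_le_mul_of_nonneg_right ?_ hlx
  refine le_trans ?_ (card_upTo_le K (Real.sqrt x) (Real.sqrt_nonneg x))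
  refine Nat.cast_le.2 (Finset.card_le_card ?_)
  intro w hw
  exact (Finset.mem_filter.1 hw).2

theorem th_le_pi (x : ℝ) : th K x ≤ (upTo K x).card * Real.log x := by
  unfold th
  rw [← nsmul_eq_mul, ← Finset.sum_const]
  refine Finset.sum_le_sum fun w hw => ?_
  refine Real.log_le_log ?_ (mem_upTo.1 hw)
  exact_mod_cast (show 0 < absNorm w.asIdeal by have := two_le_norm w; omega)

theorem pi_le (x a : ℝ) (hx : 1 ≤ x) (ha : 0 < a) :
    ((upTo K x).card : ℝ) * (a * Real.log x) ≤ th K x +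
      Module.finrank ℚ K * x ^ a * (a * Real.log x) := by
  classical
  have hlx : 0 ≤ Real.log x := Real.log_nonneg hx
  have h1 : ∀ w ∈ upTo K x, a * Real.log x ≤ Real.log (absNorm w.asIdeal) +
      (if w ∈ upTo K (x ^ a) then a * Real.log x else 0) := by
    intro w hw
    have h2 := log_nonneg w
    split_ifs with h
    · linarith
    · rw [mem_upTo, not_le] at h
      rw [add_zero, ← Real.log_rpow (by linarith)]
      refine Real.log_le_log ?_ h.le
      exact Real.rpow_pos_of_pos (by linarith) _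
  have h3 := Finset.sum_le_sum h1
  rw [Finset.sum_const, nsmul_eq_mul, Finset.sum_add_distrib] at h3
  refine le_trans h3 ?_
  unfold th
  refine add_le_add (le_refl _) ?_
  rw [← Finset.sum_filter, Finset.sum_const, nsmul_eq_mul]
  refine mul_le_mul_of_nonneg_right ?_ (mul_nonneg ha.le hlx)
  refine le_trans ?_ (card_upTo_le K (x ^ a) (Real.rpow_nonneg (by linarith) _))
  refine Nat.cast_le.2 (Finset.card_le_card ?_)
  intro w hw
  exact (Finset.mem_filter.1 hw).2

/-- `x ^ b * log x / x → 0` for `b < 1` -/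
theorem tend0 (b : ℝ) (hb : b < 1) (C : ℝ) :
    Tendsto (fun x : ℝ => C * x ^ b * Real.log x / x) atTop (𝓝 0) := by
  have h1 : Tendsto (fun x : ℝ => C * (Real.log x / x ^ (1 - b))) atTop (𝓝 (C * 0)) :=
    ((isLittleO_log_rpow_atTop (by linarith : 0 < 1 - b)).tendsto_div_nhds_zero).const_mul C
  rw [mul_zero] at h1
  refine h1.congr' ?_
  filter_upwards [eventually_gt_atTop (0 : ℝ)] with x hx
  rw [Real.rpow_sub hx, Real.rpow_one]
  have h2 : 0 < x ^ b := Real.rpow_pos_of_pos hx _
  field_simp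

theorem th_tendsto (hPSI : Stmt_PSI) : Tendsto (fun x : ℝ => th K x / x) atTop (𝓝 1) := by
  have h1 := hPSI K
  have h2 := tend0 (1 / 2) (by norm_num) (Module.finrank ℚ K : ℝ)
  have h3 := h1.sub h2
  rw [sub_zero] at h3
  refine tendsto_of_tendsto_of_tendsto_of_le_of_le' h3 h1 ?_ ?_
  · filter_upwards [eventually_ge_atTop (1 : ℝ)] with x hx
    have h4 := psi_le K x hx
    rw [Real.sqrt_eq_rpow] at h4
    rw [div_sub_div_same]
    exact div_le_div_of_nonneg_right (by linarith) (by linarith)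
  · filter_upwards [eventually_ge_atTop (1 : ℝ)] with x hx
    exact div_le_div_of_nonneg_right (th_le_psi K x (by linarith)) (by linarith)

end PIT

open PIT in
theorem stmt_PIT (hPSI : Stmt_PSI) : Stmt_PIT := by
  intro K _ _
  have hth := th_tendsto K hPSI
  rw [tendsto_order]
  constructor
  · intro b hb
    filter_upwards [(tendsto_order.1 hth).1 b hb, eventually_ge_atTop (1 : ℝ)] with x hx hx1
    refine lt_of_lt_of_le hx (div_le_div_of_nonneg_right (th_le_pi K x) (by linarith))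
  · intro b hb
    obtain ⟨a, ha1, ha2⟩ : ∃ a : ℝ, 1 / b < a ∧ a < 1 :=
      exists_between (by rw [div_lt_one (by linarith)]; exact hb)
    have ha0 : 0 < a := lt_trans (by positivity) ha1
    have h1 : Tendsto (fun x : ℝ => 1 / a * (th K x / x) +
        (Module.finrank ℚ K : ℝ) * x ^ a * Real.log x / x) atTop (𝓝 (1 / a * 1 + 0)) :=
      (hth.const_mul (1 / a)).add (tend0 a ha2 _)
    have h2 : 1 / a * 1 + 0 < b := by
      rw [mul_one, add_zero, div_lt_iff₀ ha0]
      rw [div_lt_iff₀ (by linarith)] at ha1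
      linarith
    filter_upwards [(tendsto_order.1 h1).2 b h2, eventually_ge_atTop (1 : ℝ)] with x hx hx1
    refine lt_of_le_of_lt ?_ hx
    have h3 := pi_le K x a hx1 ha0
    have hx0 : 0 < x := by linarith
    have h4 : ((upTo K x).card : ℝ) * Real.log x ≤ 1 / a * th K x +
        Module.finrank ℚ K * x ^ a * Real.log x := by
      have h5 : a * (((upTo K x).card : ℝ) * Real.log x) ≤ a * (1 / a * th K x +
        Module.finrank ℚ K * x ^ a * Real.log x) := by
        have h6 : a * (1 / a * th K x) = th K x := by field_simp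
        nlinarith
      exact le_of_mul_le_mul_left h5 ha0
    calc ((upTo K x).card : ℝ) * Real.log x / x
        ≤ (1 / a * th K x + Module.finrank ℚ K * x ^ a * Real.log x) / x :=
          div_le_div_of_nonneg_right h4 hx0.le
      _ = 1 / a * (th K x / x) + (Module.finrank ℚ K : ℝ) * x ^ a * Real.log x / x := by
          ring

end Pool.DS
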