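import Pool.Agent.Work.MP_6dc561_ds.Interface
import Pool.Agent.Work.PNT70.WI3

/-!
# Block PSI: `∑_{n ≤ x} Λ_K(n) ~ x`
-/

set_option autoImplicit false

open NumberField Filter Topology Ideal

namespace Pool.DS

namespace PSI

theorem theta_nonneg (K : Type) [Field K] [NumberField K] :
    (0 : ℝ) ≤ 1 - 1 / (Module.finrank ℚ K : ℝ) := by
  have h : (1 : ℝ) ≤ Module.finrank ℚ K := by
    exact_mod_cast (Module.finrank_pos : 0 < Module.finrank ℚ K)
  have : 1 / (Module.finrank ℚ K : ℝ) ≤ 1 := by
    rw [div_le_one (by linarith)]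
    exact h
  linarith

theorem theta_lt (K : Type) [Field K] [NumberField K] :
    (1 : ℝ) - 1 / (Module.finrank ℚ K : ℝ) < 1 := by
  have h : (0 : ℝ) < Module.finrank ℚ K := by
    exact_mod_cast (Module.finrank_pos : 0 < Module.finrank ℚ K)
  have : 0 < 1 / (Module.finrank ℚ K : ℝ) := by positivity
  linarith

theorem cheb (hVMA : Stmt_VMA) (K : Type) [Field K] [NumberField K] :
    ∃ C : ℝ, ∀ n : ℕ, ∑ k ∈ Finset.Icc 1 n, LamK K k ≤ C * n := by
  refine ⟨(Module.finrank ℚ K : ℝ) * (Real.log 4 + 4), fun n => ?_⟩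
  have h1 : ∑ k ∈ Finset.Icc 1 n, LamK K k ≤
      ∑ k ∈ Finset.Icc 1 n, (Module.finrank ℚ K : ℝ) * ArithmeticFunction.vonMangoldt k :=
    Finset.sum_le_sum fun k _ => (hVMA K k).2
  have h2 : Chebyshev.psi n = ∑ k ∈ Finset.Icc 1 n, ArithmeticFunction.vonMangoldt k := by
    unfold Chebyshev.psi
    rw [Nat.floor_natCast]
    rfl
  have h3 : Chebyshev.psi n ≤ (Real.log 4 + 4) * n := Chebyshev.psi_le_const_mul_self (Nat.cast_nonneg n)
  rw [← Finset.mul_sum, ← h2] at h1
  calc _ ≤ (Module.finrank ℚ K : ℝ) * Chebyshev.psi n := h1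
    _ ≤ (Module.finrank ℚ K : ℝ) * ((Real.log 4 + 4) * n) :=
        mul_le_mul_of_nonneg_left h3 (Nat.cast_nonneg _)
    _ = _ := by ring

end PSI

open PSI in
theorem stmt_PSI (hIDL : Stmt_IDL) (hANC : Stmt_ANC) (hVMA : Stmt_VMA) (hLDZ : Stmt_LDZ)
    (hNVL : Stmt_NVL) : Stmt_PSI := by
  intro K _ _
  obtain ⟨C, hC⟩ := hIDL K
  obtain ⟨D, hD⟩ := cheb hVMA K
  obtain ⟨_, H, hH, hz⟩ := hANC (fun n => (idc K n : ℝ)) (dedekindZeta_residue K) C _
    (theta_nonneg K) (theta_lt K) (fun n => Nat.cast_nonneg _) hC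
  set θ : ℝ := 1 - 1 / (Module.finrank ℚ K : ℝ) with hθ
  have hz' : ∀ s : ℂ, 1 < s.re → dedekindZeta K s = dedekindZeta_residue K / (s - 1) + H s := by
    intro s hs
    have h := hz s hs
    simp only [Complex.ofReal_natCast] at h
    exact h
  have hθ1 : θ < 1 := theta_lt K
  have hU : IsOpen {s : ℂ | θ < s.re} := isOpen_lt continuous_const Complex.continuous_re
  set W : ℂ → ℂ := fun s => dedekindZeta_residue K + (s - 1) * H s with hW
  have hWd : DifferentiableOn ℂ W {s : ℂ | θ < s.re} := by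
    refine (differentiableOn_const _).add (DifferentiableOn.mul ?_ hH)
    exact (differentiable_id.sub_const 1).differentiableOn
  have hWz : ∀ s : ℂ, 1 < s.re → W s = (s - 1) * dedekindZeta K s := by
    intro s hs
    have hs1 : s - 1 ≠ 0 := by
      intro h
      rw [sub_eq_zero] at h
      rw [h] at hs
      simp at hs
    rw [hz' s hs, hW]
    field_simp
  have hWne : ∀ s : ℂ, 1 ≤ s.re → W s ≠ 0 := by
    intro s hs
    rcases lt_or_eq_of_le hs with h | h
    · rw [hWz s h]
      refine mul_ne_zero ?_ (hLDZ K s h).2.1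
      intro h'
      rw [sub_eq_zero] at h'
      rw [h'] at h
      simp at h
    · by_cases ht : s.im = 0
      · have hs1 : s = 1 := Complex.ext (by simp [← h]) (by simp [ht])
        rw [hs1, hW]
        simp only [sub_self, zero_mul, add_zero]
        exact_mod_cast dedekindZeta_residue_ne_zero K
      · have hs1 : s = 1 + s.im * Complex.I := Complex.ext (by simp [← h]) (by simp)
        have h1 := hNVL K θ H hθ1 hH hz' s.im ht
        have h2 : W s = (s.im * Complex.I) *
            ((dedekindZeta_residue K : ℂ) / (s.im * Complex.I) + H (1 + s.im * Complex.I)) := by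
          have h3 : (s.im * Complex.I : ℂ) ≠ 0 :=
            mul_ne_zero (by exact_mod_cast ht) Complex.I_ne_zero
          rw [mul_add, mul_div_cancel₀ _ h3, ← hs1, hW]
          have h4 : s - 1 = s.im * Complex.I := by
            rw [sub_eq_iff_eq_add]
            rw [add_comm]
            exact hs1
          simp only [h4]
        rw [h2]
        exact mul_ne_zero (mul_ne_zero (by exact_mod_cast ht) Complex.I_ne_zero) h1
  have hGc : ContinuousOn (fun s => - deriv W s / W s) {s : ℂ | 1 ≤ s.re} := by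
    have hsub : {s : ℂ | 1 ≤ s.re} ⊆ {s : ℂ | θ < s.re} := fun s hs => lt_of_lt_of_le hθ1 hs
    refine ContinuousOn.div ?_ (hWd.continuousOn.mono hsub) hWne
    exact ((hWd.deriv hU).continuousOn.mono hsub).neg
  have hG : ∀ s : ℂ, 1 < s.re → (fun s => - deriv W s / W s) s =
      LSeries (fun n => (LamK K n : ℂ)) s - (1 : ℝ) / (s - 1) := by
    intro s hs
    obtain ⟨_, h0, hd, hL⟩ := hLDZ K s hs
    have hs1 : s - 1 ≠ 0 := by
      intro h
      rw [sub_eq_zero] at h
      rw [h] at hs
      simp at hs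
    have hU1 : IsOpen {s : ℂ | 1 < s.re} := isOpen_lt continuous_const Complex.continuous_re
    have h1 : deriv W s = deriv (fun z => (z - 1) * dedekindZeta K z) s := by
      refine Filter.EventuallyEq.deriv_eq ?_
      filter_upwards [hU1.mem_nhds hs] with z hz
      exact hWz z hz
    have h2 : HasDerivAt (fun z => (z - 1) * dedekindZeta K z)
        (1 * dedekindZeta K s + (s - 1) * deriv (dedekindZeta K) s) s :=
      ((hasDerivAt_id s).sub_const 1).mul hd.hasDerivAt
    simp only []
    rw [h1, h2.deriv, hWz s hs, hL]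
    push_cast
    field_simp
    ring
  exact Pool.Agent.Work.PNT70.wiener_ikehara (fun n => (hVMA K n).1) hD hG hGc zero_le_one

end Pool.DS
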