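import Pool.Agent.Work.MP_6dc561_ds.Interface2

/-!
# QCH: quadratic characters over number fields have mean zero in natural density
-/

set_option autoImplicit false

open NumberField IsDedekindDomain Ideal Polynomial Filter Topology

namespace Pool.DS.QCH

open Pool.Agent.Work.MP_6dc561_nt

variable {F K : Type} [Field F] [NumberField F] [Field K] [NumberField K] [Algebra F K]

/-- a prime of `K` above `v` as a member of `primesOver` -/
theorem mem_over {v : HeightOneSpectrum (𝓞 F)} {w : HeightOneSpectrum (𝓞 K)}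
    (h : below F w = v) : w.asIdeal ∈ v.asIdeal.primesOver (𝓞 K) := by
  refine ⟨w.isPrime, ⟨?_⟩⟩
  rw [← h]
  rfl

theorem below_of_mem {v : HeightOneSpectrum (𝓞 F)} (p : v.asIdeal.primesOver (𝓞 K)) :
    below F (⟨p.1, p.2.1, ne_bot_of_mem_primesOver v.ne_bot p.2⟩ : HeightOneSpectrum (𝓞 K)) = v := by
  apply HeightOneSpectrum.ext
  change Ideal.comap _ _ = _
  exact p.2.2.over.symm

theorem degOne_eq (hD : Stmt_DGB) (h2 : Module.finrank F K = 2) (e : 𝓞 F) (θ : 𝓞 K)
    (hθ : θ ^ 2 = algebraMap (𝓞 F) (𝓞 K) e) (σ : 𝓞 K →ₐ[𝓞 F] 𝓞 K) (hσ : σ θ = -θ)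
    (v : HeightOneSpectrum (𝓞 F)) (hv : v ∉ bad e) :
    (degOne F K v : ℝ) = 1 + chi e v := by
  classical
  have h2v : (2 : 𝓞 F) ∉ v.asIdeal := fun h => hv (Or.inl h)
  have hev : e ∉ v.asIdeal := fun h => hv (Or.inr h)
  have hmax := v.isMaximal
  by_cases hsq : IsSquare (Ideal.Quotient.mk v.asIdeal e)
  · obtain ⟨w₁, w₂, hne⟩ := exists_two e θ hθ σ hσ v h2v hev hsq
    have hc : chi e v = 1 := by unfold chi; rw [if_neg hev, if_pos hsq]
    rw [hc]
    have hle : degOne F K v ≤ 2 := h2 ▸ (hD F K v).2.2.1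
    have hnorm : ∀ w w' : v.asIdeal.primesOver (𝓞 K), w ≠ w' → absNorm w.1 = absNorm v.asIdeal := by
      intro w w' hww
      have hfin : Finite (v.asIdeal.primesOver (𝓞 K)) :=
        (IsDedekindDomain.primesOver_finite v.asIdeal (𝓞 K)).to_subtype
      have : Fintype (v.asIdeal.primesOver (𝓞 K)) := Fintype.ofFinite _
      have hs := sum_ef (K := K) h2 v
      have h3 : ∑ q ∈ ({w, w'} : Finset (v.asIdeal.primesOver (𝓞 K))),
          q.1.ramificationIdx (𝓞 F) * q.1.inertiaDeg (𝓞 F) ≤ 2 := by
        rw [← hs]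
        exact Finset.sum_le_sum_of_subset (Finset.subset_univ _)
      rw [Finset.sum_pair hww] at h3
      have e1 := one_le_e v w
      have f1 := one_le_f v w
      have e2 := one_le_e v w'
      have f2 := one_le_f v w'
      have h4 : 1 ≤ w'.1.ramificationIdx (𝓞 F) * w'.1.inertiaDeg (𝓞 F) := Right.one_le_mul e2 f2
      have h5 : w.1.ramificationIdx (𝓞 F) * w.1.inertiaDeg (𝓞 F) ≤ 1 := by omega
      have h6 : w.1.inertiaDeg (𝓞 F) ≤ 1 := by nlinarith
      rw [absNorm_over, show w.1.inertiaDeg (𝓞 F) = 1 by omega, pow_one]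
    let u : v.asIdeal.primesOver (𝓞 K) → HeightOneSpectrum (𝓞 K) := fun p =>
      ⟨p.1, p.2.1, ne_bot_of_mem_primesOver v.ne_bot p.2⟩
    have hu : Function.Injective u := by
      intro p q hpq
      exact Subtype.ext (congrArg (fun z => z.asIdeal) hpq)
    have hge : 2 ≤ degOne F K v := by
      have hfin : Finite {w : HeightOneSpectrum (𝓞 K) // below F w = v ∧
          absNorm w.asIdeal = absNorm v.asIdeal} := by
        refine Set.Finite.to_subtype ((hD F K v).1.subset ?_)
        intro w hw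
        exact hw.1
      let a : {w : HeightOneSpectrum (𝓞 K) // below F w = v ∧
          absNorm w.asIdeal = absNorm v.asIdeal} := ⟨u w₁, below_of_mem w₁, hnorm w₁ w₂ hne⟩
      let b : {w : HeightOneSpectrum (𝓞 K) // below F w = v ∧
          absNorm w.asIdeal = absNorm v.asIdeal} := ⟨u w₂, below_of_mem w₂, hnorm w₂ w₁ hne.symm⟩
      have hab : a ≠ b := by
        intro h
        exact hne (hu (congrArg (fun z => z.1) h))
      unfold degOne
      have : Nontrivial {w : HeightOneSpectrum (𝓞 K) // below F w = v ∧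
          absNorm w.asIdeal = absNorm v.asIdeal} := ⟨a, b, hab⟩
      exact Finite.one_lt_card
    have : degOne F K v = 2 := le_antisymm hle hge
    rw [this]
    norm_num
  · have hc : chi e v = -1 := by unfold chi; rw [if_neg hev, if_neg hsq]
    have h0 : degOne F K v = 0 := by
      unfold degOne
      rw [Nat.card_eq_zero]
      left
      constructor
      rintro ⟨w, hw1, hw2⟩
      have h := two_le_f (K := K) e θ hθ v hsq ⟨w.asIdeal, mem_over hw1⟩
      have h3 := absNorm_over (K := K) v ⟨w.asIdeal, mem_over hw1⟩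
      simp only at h3 h
      rw [hw2] at h3
      have h4 := two_le_norm v
      have h5 : absNorm v.asIdeal ^ 1 < absNorm v.asIdeal ^ (w.asIdeal.inertiaDeg (𝓞 F)) :=
        Nat.pow_lt_pow_right (by omega) (by omega)
      rw [pow_one] at h5
      omega
    rw [h0, hc]
    norm_num

end Pool.DS.QCH

namespace Pool.DS

open Pool.Agent.Work.MP_6dc561_nt QCH

theorem stmt_QCH (hMEA : Stmt_MEA) (hDGB : Stmt_DGB) : Stmt_QCH := by
  classical
  intro F _ _ e he
  have he0 : e ≠ 0 := by
    rintro rfl
    apply he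
    exact ⟨0, by simp⟩
  -- the quadratic extension
  obtain ⟨K, iK, iN, iA, hrank, θ, hθ, σ, hσ⟩ : ∃ (K : Type) (_ : Field K) (_ : NumberField K)
      (_ : Algebra F K), Module.finrank F K = 2 ∧ ∃ θ : 𝓞 K, θ ^ 2 = algebraMap (𝓞 F) (𝓞 K) e ∧
        ∃ σ : 𝓞 K →ₐ[𝓞 F] 𝓞 K, σ θ = -θ := by
    set p : F[X] := X ^ 2 - C (e : F) with hp
    have hdeg : p.natDegree = 2 := natDegree_X_pow_sub_C
    have hirr : Irreducible p := by
      rw [Polynomial.irreducible_iff_roots_eq_zero_of_degree_le_three (by rw [hdeg])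
        (by rw [hdeg]; norm_num)]
      rw [Multiset.eq_zero_iff_forall_notMem]
      intro a ha
      rw [mem_roots', IsRoot.def, hp, eval_sub, eval_pow, eval_X, eval_C] at ha
      apply he
      exact ⟨a, by linear_combination -ha.2⟩
    have : Fact (Irreducible p) := ⟨hirr⟩
    let K := AdjoinRoot p
    have hpb := (AdjoinRoot.powerBasis hirr.ne_zero)
    have hfin : Module.Finite F K := (AdjoinRoot.powerBasis hirr.ne_zero).finite
    have hrank : Module.finrank F K = 2 := by
      rw [(AdjoinRoot.powerBasis hirr.ne_zero).finrank, AdjoinRoot.powerBasis_dim, hdeg]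
    have hchar : CharZero K := charZero_of_injective_algebraMap (algebraMap F K).injective
    have hfinQ : FiniteDimensional ℚ K := Module.Finite.trans F K
    have hNF : NumberField K := ⟨⟩
    have hev : ∀ {L : Type _} [CommRing L] (φ : F →+* L) (x : L),
        eval₂ φ x p = x ^ 2 - φ (e : F) := by
      intro L _ φ x
      rw [hp]
      simp
    have hroot : (AdjoinRoot.root p) ^ 2 = algebraMap F K (e : F) := by
      have h := AdjoinRoot.eval₂_root p
      rw [hev] at h
      exact sub_eq_zero.mp h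
    let σ₀ : K →ₐ[F] K := AdjoinRoot.liftAlgHom p (Algebra.ofId F K) (-(AdjoinRoot.root p)) (by
      rw [hev, neg_sq, hroot]
      exact sub_self _)
    have hσ₀ : σ₀ (AdjoinRoot.root p) = -(AdjoinRoot.root p) := AdjoinRoot.liftAlgHom_root ..
    have hint : IsIntegral ℤ (AdjoinRoot.root p : K) := by
      apply IsIntegral.of_pow (n := 2) (by norm_num)
      rw [hroot]
      exact (NumberField.RingOfIntegers.isIntegral_coe e).algebraMap
    let θ : 𝓞 K := ⟨AdjoinRoot.root p, hint⟩
    have hθ : θ ^ 2 = algebraMap (𝓞 F) (𝓞 K) e := by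
      apply NumberField.RingOfIntegers.ext
      exact hroot
    let σ : 𝓞 K →ₐ[𝓞 F] 𝓞 K :=
      { NumberField.RingOfIntegers.mapRingHom σ₀.toRingHom with
        commutes' := by
          intro r
          apply NumberField.RingOfIntegers.ext
          exact σ₀.commutes (r : F) }
    have hσ : σ θ = -θ := by
      apply NumberField.RingOfIntegers.ext
      exact hσ₀
    exact ⟨K, inferInstance, hNF, inferInstance, hrank, θ, hθ, σ, hσ⟩
  have h1 := (hMEA F).1 K
  have h2 := (hMEA F).1 F
  have h3 : Tendsto (fun x : ℝ => ((∑ v ∈ upTo F x, (degOne F K v : ℝ)) -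
      (∑ v ∈ upTo F x, (degOne F F v : ℝ))) * Real.log x / x) atTop (𝓝 0) := by
    have := h1.sub h2
    rw [sub_self] at this
    refine this.congr fun x => ?_
    ring
  have hfin := bad_finite e he0
  -- the difference is bounded
  have hbd : ∀ x : ℝ, |(∑ v ∈ upTo F x, chi e v) - ((∑ v ∈ upTo F x, (degOne F K v : ℝ)) -
      (∑ v ∈ upTo F x, (degOne F F v : ℝ)))| ≤ 4 * hfin.toFinset.card := by
    intro x
    rw [← Finset.sum_sub_distrib, ← Finset.sum_sub_distrib]
    have h4 : ∀ v : HeightOneSpectrum (𝓞 F),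
        |chi e v - ((degOne F K v : ℝ) - (degOne F F v : ℝ))| ≤
          if v ∈ hfin.toFinset then 4 else 0 := by
      intro v
      have hF : degOne F F v = 1 := (hDGB F F v).2.2.2
      by_cases hv : v ∈ bad e
      · rw [if_pos (hfin.mem_toFinset.mpr hv)]
        have hK : degOne F K v ≤ 2 := hrank ▸ (hDGB F K v).2.2.1
        have hK' : (degOne F K v : ℝ) ≤ 2 := by exact_mod_cast hK
        have hK0 : (0:ℝ) ≤ degOne F K v := Nat.cast_nonneg _
        have hc := abs_le.mp (chi_abs_le e v)
        rw [hF, Nat.cast_one, abs_le]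
        constructor <;> linarith [hc.1, hc.2]
      · rw [if_neg (fun h => hv (hfin.mem_toFinset.mp h)),
          degOne_eq hDGB hrank e θ hθ σ hσ v hv, hF]
        simp
    refine (Finset.abs_sum_le_sum_abs _ _).trans ((Finset.sum_le_sum fun v _ => h4 v).trans ?_)
    rw [← Finset.sum_filter, Finset.sum_const, nsmul_eq_mul, mul_comm]
    have : ((upTo F x).filter (· ∈ hfin.toFinset)).card ≤ hfin.toFinset.card := by
      refine Finset.card_le_card fun v hv => ?_
      exact (Finset.mem_filter.mp hv).2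
    have h5 : (((upTo F x).filter (· ∈ hfin.toFinset)).card : ℝ) ≤ hfin.toFinset.card := by
      exact_mod_cast this
    linarith
  have hlog : Tendsto (fun x : ℝ => Real.log x / x) atTop (𝓝 0) := by
    have := Real.isLittleO_log_id_atTop.tendsto_div_nhds_zero
    exact this
  have h6 : Tendsto (fun x : ℝ => ((∑ v ∈ upTo F x, chi e v) -
      ((∑ v ∈ upTo F x, (degOne F K v : ℝ)) - (∑ v ∈ upTo F x, (degOne F F v : ℝ)))) *
        (Real.log x / x)) atTop (𝓝 0) := by
    have hb : IsBoundedUnder (· ≤ ·) atTop (fun x : ℝ => ‖(∑ v ∈ upTo F x, chi e v) -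
      ((∑ v ∈ upTo F x, (degOne F K v : ℝ)) - (∑ v ∈ upTo F x, (degOne F F v : ℝ)))‖) :=
      isBoundedUnder_of ⟨_, fun x => hbd x⟩
    exact isBoundedUnder_le_mul_tendsto_zero hb hlog
  have h7 := h6.add h3
  rw [add_zero] at h7
  refine h7.congr fun x => ?_
  ring

end Pool.DS
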