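import Pool.Agent.Work.MP_6dc561_ds.Interface

/-!
RDC: the tensor product of number fields is reduced and finite over the base.
-/

set_option autoImplicit false

open NumberField IsDedekindDomain Ideal Polynomial Filter Topology MeasureTheory
open scoped TensorProduct ENNReal NNReal Pointwise

namespace Pool.DS

theorem stmt_RDC : Stmt_RDC := by
  intro F _ _ K₁ _ _ _ K₂ _ _ _
  have hf1 : Module.Finite F K₁ := Module.Finite.of_restrictScalars_finite ℚ F K₁
  have hf2 : Module.Finite F K₂ := Module.Finite.of_restrictScalars_finite ℚ F K₂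
  have hsep : Algebra.IsSeparable F K₂ := inferInstance
  have hu : Algebra.FormallyUnramified F K₂ := Algebra.FormallyUnramified.of_isSeparable F K₂
  have hu1 : Algebra.FormallyUnramified K₁ (K₁ ⊗[F] K₂) := inferInstance
  have hfin : Module.Finite K₁ (K₁ ⊗[F] K₂) := inferInstance
  have hred : IsReduced (K₁ ⊗[F] K₂) :=
    Algebra.FormallyUnramified.isReduced_of_field K₁ (K₁ ⊗[F] K₂)
  have hfinF : Module.Finite F (K₁ ⊗[F] K₂) := inferInstance
  have hart : IsArtinianRing (K₁ ⊗[F] K₂) := IsArtinianRing.of_finite K₁ (K₁ ⊗[F] K₂)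
  have hnt : Nontrivial (K₁ ⊗[F] K₂) := inferInstance
  have hfs : Finite (PrimeSpectrum (K₁ ⊗[F] K₂)) := inferInstance
  have hne : Nonempty (PrimeSpectrum (K₁ ⊗[F] K₂)) := inferInstance
  refine ⟨hred, hfinF, Nat.card_pos, fun hfield => ?_⟩
  have hs := Ring.isField_iff_isSimpleOrder_ideal.1 hfield
  have hb : ∀ p : PrimeSpectrum (K₁ ⊗[F] K₂), p.asIdeal = ⊥ := fun p =>
    (eq_bot_or_eq_top p.asIdeal).resolve_right p.2.ne_top
  rw [Nat.card_eq_one_iff_unique]
  exact ⟨⟨fun p q => PrimeSpectrum.ext ((hb p).trans (hb q).symm)⟩, hne⟩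

end Pool.DS
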