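import Pool.Agent.Work.MP_6dc561_ds.Interface

/-!
# Block RED: the reduction of the curve at a prime of relative degree one
-/

set_option autoImplicit false

open NumberField IsDedekindDomain Ideal Polynomial

namespace Pool.DS.RED

open Pool.Agent.Work.MP_6dc561_nt

/-- the number of points is invariant under isomorphisms of the base field -/
theorem numPoints_equiv {k k' : Type*} [Field k] [Field k'] (σ : k ≃+* k') (n : ℕ) (c : k)
    (f : k[X]) : numPoints k' n (σ c) (f.map (σ : k →+* k')) = numPoints k n c f := by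
  set τ : AlgebraicClosure k ≃+* AlgebraicClosure k' :=
    IsAlgClosure.equivOfEquiv (AlgebraicClosure k) (AlgebraicClosure k') σ with hτ
  have hτσ : ∀ a : k, τ (algebraMap k (AlgebraicClosure k) a) =
      algebraMap k' (AlgebraicClosure k') (σ a) :=
    fun a => IsAlgClosure.equivOfEquiv_algebraMap (AlgebraicClosure k) (AlgebraicClosure k') σ a
  have hcard : Nat.card k' = Nat.card k := (Nat.card_congr σ.toEquiv).symm
  have hev : ∀ x : AlgebraicClosure k, aeval (τ x) (f.map (σ : k →+* k')) = τ (aeval x f) := by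
    intro x
    have hcomp : (algebraMap k' (AlgebraicClosure k')).comp (σ : k →+* k') =
        (τ : AlgebraicClosure k →+* AlgebraicClosure k').comp
          (algebraMap k (AlgebraicClosure k)) := by
      ext a
      exact (hτσ a).symm
    rw [aeval_def, eval₂_map, hcomp, aeval_def]
    exact (hom_eval₂ f (algebraMap k (AlgebraicClosure k))
      (τ : AlgebraicClosure k →+* AlgebraicClosure k') x).symm
  unfold numPoints
  congr 1
  · have himg : affinePoints k' n (σ c) (f.map (σ : k →+* k')) =
        (fun P : AlgebraicClosure k × AlgebraicClosure k => (τ P.1, τ P.2)) ''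
          affinePoints k n c f := by
      ext P
      simp only [affinePoints, Set.mem_image, Set.mem_ofPred_eq]
      constructor
      · rintro ⟨h1, h2, h3⟩
        refine ⟨(τ.symm P.1, τ.symm P.2), ⟨?_, ?_, ?_⟩, ?_⟩
        · apply τ.injective
          rw [map_pow, τ.apply_symm_apply, ← hcard, h1]
        · apply τ.injective
          rw [map_pow, τ.apply_symm_apply, ← hcard, h2]
        · apply τ.injective
          rw [map_mul, map_pow, τ.apply_symm_apply, hτσ, h3, ← hev, τ.apply_symm_apply]
        · exact Prod.ext (τ.apply_symm_apply _) (τ.apply_symm_apply _)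
      · rintro ⟨Q, ⟨h1, h2, h3⟩, rfl⟩
        refine ⟨?_, ?_, ?_⟩
        · change (τ Q.1) ^ _ = τ Q.1
          rw [← map_pow, hcard, h1]
        · change (τ Q.2) ^ _ = τ Q.2
          rw [← map_pow, hcard, h2]
        · change algebraMap k' _ (σ c) * (τ Q.2) ^ 2 = aeval (τ Q.1) (f.map (σ : k →+* k'))
          rw [← hτσ, ← map_pow, ← map_mul, h3, hev]
    rw [himg, Set.ncard_image_of_injective]
    intro P Q h
    have h' : (τ P.1, τ P.2) = (τ Q.1, τ Q.2) := h
    rw [Prod.mk.injEq] at h'
    exact Prod.ext (τ.injective h'.1) (τ.injective h'.2)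
  · have himg : pointsAtInfinity k' n (σ c) (f.map (σ : k →+* k')) =
        τ '' pointsAtInfinity k n c f := by
      ext y
      simp only [pointsAtInfinity, Set.mem_image, Set.mem_ofPred_eq]
      constructor
      · rintro ⟨h1, h2⟩
        refine ⟨τ.symm y, ⟨?_, ?_⟩, τ.apply_symm_apply _⟩
        · apply τ.injective
          rw [map_pow, τ.apply_symm_apply, ← hcard, h1]
        · apply τ.injective
          rw [map_mul, map_pow, τ.apply_symm_apply, hτσ, h2, hτσ, coeff_map]
          rfl
      · rintro ⟨z, ⟨h1, h2⟩, rfl⟩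
        refine ⟨?_, ?_⟩
        · rw [← map_pow, hcard, h1]
        · rw [← hτσ, ← map_pow, ← map_mul, h2, hτσ, coeff_map]
          rfl
    rw [himg, Set.ncard_image_of_injective]
    exact τ.injective


variable (F : Type) [Field F] [NumberField F] {K : Type} [Field K] [NumberField K] [Algebra F K]

/-- the map of the residue fields -/
noncomputable def qmap (w : HeightOneSpectrum (𝓞 K)) :
    (𝓞 F ⧸ (below F w).asIdeal) →+* (𝓞 K ⧸ w.asIdeal) :=
  Ideal.quotientMap w.asIdeal (algebraMap (𝓞 F) (𝓞 K)) le_rfl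

theorem qmap_mk (w : HeightOneSpectrum (𝓞 K)) (a : 𝓞 F) :
    qmap F w (Ideal.Quotient.mk _ a) = Ideal.Quotient.mk w.asIdeal (algebraMap (𝓞 F) (𝓞 K) a) :=
  Ideal.quotientMap_mk

theorem qmap_injective (w : HeightOneSpectrum (𝓞 K)) : Function.Injective (qmap F w) :=
  Ideal.quotientMap_injective' le_rfl

theorem qmap_bijective (w : HeightOneSpectrum (𝓞 K))
    (hw : absNorm w.asIdeal = absNorm (below F w).asIdeal) : Function.Bijective (qmap F w) := by
  have hfin : Finite (𝓞 F ⧸ (below F w).asIdeal) :=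
    (below F w).asIdeal.finiteQuotientOfFreeOfNeBot (below F w).ne_bot
  have hfin' : Finite (𝓞 K ⧸ w.asIdeal) := w.asIdeal.finiteQuotientOfFreeOfNeBot w.ne_bot
  rw [Nat.bijective_iff_injective_and_card]
  refine ⟨qmap_injective F w, ?_⟩
  rw [absNorm_apply, absNorm_apply, Submodule.cardQuot_apply, Submodule.cardQuot_apply] at hw
  exact hw.symm

theorem map_map_qmap (f : (𝓞 F)[X]) (w : HeightOneSpectrum (𝓞 K)) :
    (f.map (algebraMap (𝓞 F) (𝓞 K))).map (Ideal.Quotient.mk w.asIdeal) =
      (f.map (Ideal.Quotient.mk (below F w).asIdeal)).map (qmap F w) := by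
  rw [Polynomial.map_map, Polynomial.map_map]
  congr 1

theorem mem_below (w : HeightOneSpectrum (𝓞 K)) (a : 𝓞 F) :
    a ∈ (below F w).asIdeal ↔ algebraMap (𝓞 F) (𝓞 K) a ∈ w.asIdeal := Iff.rfl

theorem good_iff (f : (𝓞 F)[X]) (w : HeightOneSpectrum (𝓞 K)) :
    w ∈ goodPrimes (f.map (algebraMap (𝓞 F) (𝓞 K))) 1 ↔ below F w ∈ goodPrimes f 1 := by
  have hnt : Nontrivial (𝓞 K ⧸ w.asIdeal) := Ideal.Quotient.nontrivial_iff.2 w.isPrime.ne_top
  let _ : Field (𝓞 F ⧸ (below F w).asIdeal) := residueField (below F w)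
  unfold goodPrimes
  simp only [Set.mem_ofPred_eq]
  rw [map_map_qmap, mem_below, mem_below, map_one, map_ofNat]
  have h1 := Polynomial.separable_map (qmap F w) (p := f.map (Ideal.Quotient.mk (below F w).asIdeal))
  have h2 := Polynomial.natDegree_map (qmap F w) (p := f.map (Ideal.Quotient.mk (below F w).asIdeal))
  rw [h1, h2]

theorem pointCount_eq (f : (𝓞 F)[X]) (w : HeightOneSpectrum (𝓞 K))
    (hw : absNorm w.asIdeal = absNorm (below F w).asIdeal) (n : ℕ) :
    pointCount (f.map (algebraMap (𝓞 F) (𝓞 K))) 1 w n = pointCount f 1 (below F w) n := by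
  have hbij := qmap_bijective F w hw
  let _ : Field (𝓞 K ⧸ w.asIdeal) := residueField w
  let _ : Field (𝓞 F ⧸ (below F w).asIdeal) := residueField (below F w)
  have key := numPoints_equiv (RingEquiv.ofBijective (qmap F w) hbij) n
    (1 : 𝓞 F ⧸ (below F w).asIdeal) (f.map (Ideal.Quotient.mk (below F w).asIdeal))
  have e1 : ((RingEquiv.ofBijective (qmap F w) hbij :
      (𝓞 F ⧸ (below F w).asIdeal) ≃+* (𝓞 K ⧸ w.asIdeal)) :
      (𝓞 F ⧸ (below F w).asIdeal) →+* (𝓞 K ⧸ w.asIdeal)) = qmap F w := by
    ext; rfl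
  rw [e1, map_one, ← map_map_qmap] at key
  unfold pointCount
  rw [map_one, map_one]
  exact key

end Pool.DS.RED

namespace Pool.DS

open Pool.Agent.Work.MP_6dc561_nt

theorem stmt_RED : Stmt_RED := by
  intro F _ _ K _ _ _ f w hw
  have h1 := RED.pointCount_eq F f w hw
  have h2 : frobTrace (f.map (algebraMap (𝓞 F) (𝓞 K))) 1 w = frobTrace f 1 (below F w) := by
    unfold frobTrace nrm
    rw [h1, hw]
  refine ⟨RED.good_iff F f w, h2, ?_⟩
  unfold frobSecond nrm
  rw [h1, h2, hw]

end Pool.DS
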