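import Pool.Agent.Work.MP_6dc561_ds.Interface3

/-!
# RNK: the number of fields in `K ⊗ K`
-/

set_option autoImplicit false

open NumberField IsDedekindDomain
open scoped TensorProduct

namespace Pool.DS

theorem stmt_RNK (hRDC : Stmt_RDC) : Stmt_RNK := by
  classical
  intro F _ _ K _ _ _ h1
  have hfinFK : Module.Finite F K := Module.finite_of_finrank_pos (by omega)
  obtain ⟨hred, hfin, hpos, -⟩ := hRDC F K K
  have hartF : IsArtinianRing (K ⊗[F] K) := IsArtinianRing.of_finite F (K ⊗[F] K)
  have hfinK : Module.Finite K (K ⊗[F] K) := inferInstance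
  have hfs : Finite (PrimeSpectrum (K ⊗[F] K)) := inferInstance
  have : Fintype (PrimeSpectrum (K ⊗[F] K)) := Fintype.ofFinite _
  have hrank : Module.finrank K (K ⊗[F] K) = Module.finrank F K := Module.finrank_baseChange
  constructor
  · by_contra hlt
    push Not at hlt
    have hcard : Fintype.card (PrimeSpectrum (K ⊗[F] K)) = 1 := by
      rw [← Nat.card_eq_fintype_card]
      omega
    obtain ⟨p, hp⟩ := Fintype.card_eq_one_iff.mp hcard
    have hloc : IsLocalRing (K ⊗[F] K) := by
      refine IsLocalRing.of_unique_max_ideal ⟨p.asIdeal, ?_, ?_⟩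
      · exact (inferInstance : p.asIdeal.IsMaximal)
      · intro m hm
        have := hp ⟨m, hm.isPrime⟩
        exact congrArg (fun z => z.asIdeal) this
    have hfield : IsField (K ⊗[F] K) := IsArtinianRing.isField_of_isReduced_of_isLocalRing _
    let φ : K ⊗[F] K →ₐ[F] K := Algebra.TensorProduct.productMap (AlgHom.id F K) (AlgHom.id F K)
    have hinj : Function.Injective φ := by
      let _ := hfield.toField
      exact φ.toRingHom.injective
    have hle : Module.finrank F (K ⊗[F] K) ≤ Module.finrank F K :=
      LinearMap.finrank_le_finrank_of_injective (f := φ.toLinearMap) hinj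
    rw [Module.finrank_tensorProduct] at hle
    nlinarith
  · rw [← hrank, IsArtinianRing.finrank_eq_sum_primeSpectrum (K ⊗[F] K) K, Nat.card_eq_fintype_card,
      ← Finset.card_univ, Finset.card_eq_sum_ones]
    refine Finset.sum_le_sum fun p _ => ?_
    have : Module.Finite K (Localization.AtPrime p.asIdeal) :=
      Module.Finite.of_surjective
        (Algebra.algHom K (K ⊗[F] K) (Localization.AtPrime p.asIdeal)).toLinearMap
        (IsArtinianRing.localization_surjective p.asIdeal.primeCompl
          (Localization.AtPrime p.asIdeal))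
    exact Module.finrank_pos

end Pool.DS
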