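import Pool.Agent.Work.MP_6dc561_ds.Interface

/-!
# TEN: pairs of homomorphisms are homomorphisms of the tensor product of the rings of integers
-/

set_option autoImplicit false

open NumberField IsDedekindDomain Ideal
open scoped TensorProduct

namespace Pool.DS

namespace TEN

/-- the ring of integers of `K` inside `B` -/
noncomputable def jj {F : Type} [Field F] [NumberField F] {K : Type} [Field K] [NumberField K]
    [Algebra F K] {B : Type} [CommRing B] [Algebra F B] (i : K →ₐ[F] B) : 𝓞 K →ₐ[𝓞 F] B :=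
  (i.restrictScalars (𝓞 F)).comp (IsScalarTower.toAlgHom (𝓞 F) (𝓞 K) K)

theorem jj_apply {F : Type} [Field F] [NumberField F] {K : Type} [Field K] [NumberField K]
    [Algebra F K] {B : Type} [CommRing B] [Algebra F B] (i : K →ₐ[F] B) (x : 𝓞 K) :
    jj i x = i (algebraMap (𝓞 K) K x) := rfl

variable {F : Type} [Field F] [NumberField F] {K₁ : Type} [Field K₁] [NumberField K₁]
  [Algebra F K₁] {K₂ : Type} [Field K₂] [NumberField K₂] [Algebra F K₂] {B : Type} [CommRing B]
  [Algebra F B] (i₁ : K₁ →ₐ[F] B) (i₂ : K₂ →ₐ[F] B)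

/-- the homomorphism from the tensor product of the rings of integers -/
noncomputable def Phi : 𝓞 K₁ ⊗[𝓞 F] 𝓞 K₂ →ₐ[𝓞 F] B :=
  Algebra.TensorProduct.productMap (jj i₁) (jj i₂)

theorem map_injective (F : Type) [Field F] [NumberField F] (K₁ : Type) [Field K₁] [NumberField K₁]
    [Algebra F K₁] (K₂ : Type) [Field K₂] [NumberField K₂] [Algebra F K₂] :
    Function.Injective (TensorProduct.map (Algebra.ofId (𝓞 K₁) K₁ |>.restrictScalars (𝓞 F)).toLinearMap
      (Algebra.ofId (𝓞 K₂) K₂ |>.restrictScalars (𝓞 F)).toLinearMap) := by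
  have h1 := Module.Flat.lTensor_preserves_injective_linearMap (M := 𝓞 K₁)
    (Algebra.ofId (𝓞 K₂) K₂ |>.restrictScalars (𝓞 F)).toLinearMap
    (RingOfIntegers.coe_injective)
  have h2 := Module.Flat.rTensor_preserves_injective_linearMap (M := K₂)
    (Algebra.ofId (𝓞 K₁) K₁ |>.restrictScalars (𝓞 F)).toLinearMap
    (RingOfIntegers.coe_injective)
  rw [← LinearMap.rTensor_comp_lTensor]
  exact h2.comp h1

theorem phi_eq (x : 𝓞 K₁ ⊗[𝓞 F] 𝓞 K₂) :
    Phi i₁ i₂ x = Algebra.TensorProduct.productMap i₁ i₂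
      ((IsLocalization.algebraTensorEquiv (nonZeroDivisors (𝓞 F)) F K₁ K₂).symm
        (TensorProduct.map (Algebra.ofId (𝓞 K₁) K₁ |>.restrictScalars (𝓞 F)).toLinearMap
      (Algebra.ofId (𝓞 K₂) K₂ |>.restrictScalars (𝓞 F)).toLinearMap x)) := by
  induction x using TensorProduct.induction_on with
  | zero => simp
  | tmul a b => rfl
  | add x y hx hy => rw [map_add, map_add, map_add, map_add, hx, hy]

theorem phi_injective (hb : Function.Bijective (Algebra.TensorProduct.productMap i₁ i₂)) :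
    Function.Injective (Phi i₁ i₂) := by
  intro x y hxy
  rw [phi_eq, phi_eq] at hxy
  exact map_injective F K₁ K₂ (AlgEquiv.injective _ (hb.1 hxy))

theorem exists_mul (F : Type) [Field F] [NumberField F] (K : Type) [Field K] [NumberField K]
    [Algebra F K] (x : K) : ∃ c : 𝓞 F, c ≠ 0 ∧ ∃ y : 𝓞 K, algebraMap (𝓞 K) K y = c • x := by
  have hx : IsAlgebraic (𝓞 F) x :=
    (IsFractionRing.isAlgebraic_iff (𝓞 F) F K).mpr (Algebra.IsAlgebraic.isAlgebraic x)
  obtain ⟨c, hc, hi⟩ := hx.exists_integral_multiple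
  refine ⟨c, hc, ?_⟩
  have h2 : IsIntegral ℤ (c • x) := isIntegral_trans (c • x) hi
  exact ⟨⟨c • x, h2⟩, rfl⟩

theorem clear (hb : Function.Bijective (Algebra.TensorProduct.productMap i₁ i₂)) (b : B) :
    ∃ c : 𝓞 F, c ≠ 0 ∧ c • b ∈ (Phi i₁ i₂).range := by
  obtain ⟨t, rfl⟩ := hb.2 b
  induction t using TensorProduct.induction_on with
  | zero => exact ⟨1, one_ne_zero, by simp⟩
  | tmul x y =>
    obtain ⟨c, hc, x', hx⟩ := exists_mul F K₁ x
    obtain ⟨d, hd, y', hy⟩ := exists_mul F K₂ y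
    refine ⟨c * d, mul_ne_zero hc hd, x' ⊗ₜ y', ?_⟩
    change jj i₁ x' * jj i₂ y' = (c * d) • (i₁ x * i₂ y)
    rw [jj_apply, jj_apply, hx, hy]
    have e1 : i₁ (c • x) = c • i₁ x := map_smul (i₁.restrictScalars (𝓞 F)) c x
    have e2 : i₂ (d • y) = d • i₂ y := map_smul (i₂.restrictScalars (𝓞 F)) d y
    rw [e1, e2, smul_mul_smul_comm]
  | add s t hs ht =>
    obtain ⟨c, hc, hcs⟩ := hs
    obtain ⟨d, hd, hdt⟩ := ht
    refine ⟨c * d, mul_ne_zero hc hd, ?_⟩
    rw [map_add, smul_add]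
    refine add_mem ?_ ?_
    · rw [mul_comm, mul_smul]
      exact Subalgebra.smul_mem _ hcs d
    · rw [mul_smul]
      exact Subalgebra.smul_mem _ hdt c

end TEN

open TEN in
theorem stmt_TEN : Stmt_TEN := by
  intro F _ _ K₁ _ _ _ K₂ _ _ _ B _ _ i₁ i₂ hb
  refine ⟨(Phi i₁ i₂).range, ?_, fun b => clear i₁ i₂ hb b, ?_⟩
  · exact Module.Finite.range (Phi i₁ i₂).toLinearMap
  · convert Set.finite_empty
    ext v
    simp only [Set.mem_ofPred_eq, Set.mem_empty_iff_false, iff_false, not_not]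
    let e : (𝓞 K₁ ⊗[𝓞 F] 𝓞 K₂) ≃ₐ[𝓞 F] (Phi i₁ i₂).range :=
      AlgEquiv.ofInjective _ (phi_injective i₁ i₂ hb)
    rw [← Nat.card_prod]
    apply Nat.card_congr
    let e1 : (𝓞 K₁ ⊗[𝓞 F] 𝓞 K₂ →ₐ[𝓞 F] (𝓞 F ⧸ v.asIdeal)) ≃
        ((Phi i₁ i₂).range →ₐ[𝓞 F] (𝓞 F ⧸ v.asIdeal)) := AlgEquiv.arrowCongr e AlgEquiv.refl
    refine Equiv.trans ?_ e1
    exact
      { toFun := fun p => Algebra.TensorProduct.productMap p.1 p.2
        invFun := fun φ => (φ.comp Algebra.TensorProduct.includeLeft,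
          φ.comp Algebra.TensorProduct.includeRight)
        left_inv := fun p => by
          ext1
          · exact Algebra.TensorProduct.productMap_left _ _
          · exact Algebra.TensorProduct.productMap_right _ _
        right_inv := fun φ => by
          apply Algebra.TensorProduct.ext'
          intro a b
          change φ (a ⊗ₜ 1) * φ (1 ⊗ₜ b) = φ (a ⊗ₜ b)
          rw [← map_mul, Algebra.TensorProduct.tmul_mul_tmul, mul_one, one_mul] }

end Pool.DS
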