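import Pool.Agent.Work.MP_6dc561_ds.Interface

/-!
# THK: the thickening of a Lipschitz image of a cube of codimension one
-/

set_option autoImplicit false

open MeasureTheory Metric
open scoped ENNReal NNReal

namespace Pool.DS

theorem stmt_THK : Stmt_THK := by
  classical
  intro E _ _ _ _ _ μ _ m hm φ C hφ
  set B : ℝ := (μ (ball (0 : E) 1)).toReal with hB
  have hBtop : μ (ball (0 : E) 1) ≠ ⊤ := measure_ball_lt_top.ne
  refine ⟨2 ^ m * ((C : ℝ) + 1) ^ (m + 1) * B, fun ε hε hε1 => ?_⟩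
  set N : ℕ := ⌈1 / ε⌉₊ with hN
  have h1ε : 1 ≤ 1 / ε := by rw [le_div_iff₀ hε]; linarith
  have hN1 : 1 / ε ≤ N := Nat.le_ceil _
  have hNpos : 0 < (N : ℝ) := by linarith
  have hNposn : 0 < N := by exact_mod_cast hNpos
  have hN2 : (N : ℝ) ≤ 2 / ε := by
    have := (Nat.ceil_lt_add_one (by positivity : (0:ℝ) ≤ 1 / ε)).le
    have h3 : 2 / ε = 1 / ε + 1 / ε := by ring
    rw [h3]
    linarith
  have hNε : 1 / (N : ℝ) ≤ ε := by
    rw [div_le_iff₀ hNpos]
    have := (div_le_iff₀ hε).mp hN1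
    linarith
  let c : (Fin m → Fin N) → (Fin m → ℝ) := fun k i => ((k i : ℕ) : ℝ) / N
  have hc : ∀ k, c k ∈ Set.Icc (0 : Fin m → ℝ) 1 := by
    intro k
    constructor
    · intro i
      exact div_nonneg (Nat.cast_nonneg _) hNpos.le
    · intro i
      change ((k i : ℕ) : ℝ) / N ≤ 1
      rw [div_le_one hNpos]
      exact_mod_cast (k i).2.le
  have hcover : thickening ε (φ '' Set.Icc 0 1) ⊆
      ⋃ k : Fin m → Fin N, closedBall (φ (c k)) (((C : ℝ) + 1) * ε) := by
    intro y hy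
    obtain ⟨_, ⟨x, hx, rfl⟩, hyx⟩ := mem_thickening_iff.mp hy
    let k : Fin m → Fin N := fun i => ⟨min ⌊(N : ℝ) * x i⌋₊ (N - 1), by omega⟩
    have hk : dist x (c k) ≤ ε := by
      rw [dist_pi_le_iff hε.le]
      intro i
      refine le_trans ?_ hNε
      have hx0 : 0 ≤ x i := hx.1 i
      have hx1 : x i ≤ 1 := hx.2 i
      have hfl := Nat.floor_le (mul_nonneg hNpos.le hx0)
      have hfl2 := Nat.lt_floor_add_one ((N : ℝ) * x i)
      have key : |(N : ℝ) * x i - (min ⌊(N : ℝ) * x i⌋₊ (N - 1) : ℕ)| ≤ 1 := by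
        rcases le_total ⌊(N : ℝ) * x i⌋₊ (N - 1) with h | h
        · rw [min_eq_left h, abs_le]
          constructor <;> linarith
        · rw [min_eq_right h]
          have h4 : ((N - 1 : ℕ) : ℝ) = (N : ℝ) - 1 := by
            rw [Nat.cast_sub hNposn, Nat.cast_one]
          have h5 : ((N - 1 : ℕ) : ℝ) ≤ (⌊(N : ℝ) * x i⌋₊ : ℝ) := by exact_mod_cast h
          rw [h4] at h5 ⊢
          have h6 : (N : ℝ) * x i ≤ N := by nlinarith
          rw [abs_le]
          constructor <;> linarith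
      rw [Real.dist_eq]
      change |x i - ((min ⌊(N : ℝ) * x i⌋₊ (N - 1) : ℕ) : ℝ) / N| ≤ 1 / N
      have h7 : x i - ((min ⌊(N : ℝ) * x i⌋₊ (N - 1) : ℕ) : ℝ) / N =
          ((N : ℝ) * x i - (min ⌊(N : ℝ) * x i⌋₊ (N - 1) : ℕ)) / N := by
        field_simp
      rw [h7, abs_div, abs_of_pos hNpos]
      exact div_le_div_of_nonneg_right key hNpos.le
    refine Set.mem_iUnion.mpr ⟨k, ?_⟩
    rw [mem_closedBall]
    have h8 := hφ.dist_le_mul x hx (c k) (hc k)
    have h9 : dist y (φ (c k)) ≤ dist y (φ x) + dist (φ x) (φ (c k)) := dist_triangle _ _ _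
    have h10 : (C : ℝ) * dist x (c k) ≤ C * ε := mul_le_mul_of_nonneg_left hk C.2
    linarith
  have hr : 0 ≤ ((C : ℝ) + 1) * ε := mul_nonneg (add_nonneg C.2 zero_le_one) hε.le
  calc μ (thickening ε (φ '' Set.Icc 0 1))
      ≤ μ (⋃ k : Fin m → Fin N, closedBall (φ (c k)) (((C : ℝ) + 1) * ε)) := measure_mono hcover
    _ ≤ ∑ k : Fin m → Fin N, μ (closedBall (φ (c k)) (((C : ℝ) + 1) * ε)) :=
        measure_iUnion_fintype_le _ _
    _ = ∑ _k : Fin m → Fin N, ENNReal.ofReal ((((C : ℝ) + 1) * ε) ^ (m + 1) * B) := by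
        refine Finset.sum_congr rfl fun k _ => ?_
        rw [Measure.addHaar_closedBall _ _ hr, hm, ENNReal.ofReal_mul (by positivity), hB,
          ENNReal.ofReal_toReal hBtop]
    _ = ENNReal.ofReal ((N : ℝ) ^ m * ((((C : ℝ) + 1) * ε) ^ (m + 1) * B)) := by
        rw [Finset.sum_const, Finset.card_univ, Fintype.card_fun, Fintype.card_fin,
          Fintype.card_fin, nsmul_eq_mul, Nat.cast_pow,
          ENNReal.ofReal_mul (p := (N : ℝ) ^ m) (by positivity),
          ENNReal.ofReal_pow hNpos.le, ENNReal.ofReal_natCast]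
    _ ≤ ENNReal.ofReal (2 ^ m * ((C : ℝ) + 1) ^ (m + 1) * B * ε) := by
        apply ENNReal.ofReal_le_ofReal
        have hB0 : 0 ≤ B := ENNReal.toReal_nonneg
        have hC0 : 0 ≤ ((C : ℝ) + 1) ^ (m + 1) := pow_nonneg (add_nonneg C.2 zero_le_one) _
        have h11 : (N : ℝ) ^ m * ε ^ m ≤ 2 ^ m := by
          rw [← mul_pow]
          apply pow_le_pow_left₀ (by positivity)
          have := (le_div_iff₀ hε).mp hN2
          exact this
        calc (N : ℝ) ^ m * ((((C : ℝ) + 1) * ε) ^ (m + 1) * B)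
            = ((N : ℝ) ^ m * ε ^ m) * (((C : ℝ) + 1) ^ (m + 1) * B * ε) := by
              rw [mul_pow, pow_succ ε m]
              ring
          _ ≤ 2 ^ m * (((C : ℝ) + 1) ^ (m + 1) * B * ε) :=
              mul_le_mul_of_nonneg_right h11 (by positivity)
          _ = _ := by ring

end Pool.DS
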