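import Pool.Agent.Work.MP_6dc561_ds.Interface3

/-!
# TIE: disjoint totally imaginary quadratic extensions
-/

set_option autoImplicit false

open NumberField IsDedekindDomain Polynomial
open scoped TensorProduct

namespace Pool.DS.TIE

/-- the tensor product of `F(θ)`, `θ² = e`, with `E` is a field if `e` is no square in `E` -/
theorem field_tensor (F K E : Type) [Field F] [Field K] [Field E] [Algebra F K] [Algebra F E]
    (θ : K) (e : F) (hθ : θ * θ = algebraMap F K e)
    (hspan : ∀ x : K, ∃ a b : F, x = algebraMap F K a + algebraMap F K b * θ)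
    (hsq : ∀ z : E, z * z ≠ algebraMap F E e) : IsField (K ⊗[F] E) := by
  have hrep : ∀ y : K ⊗[F] E, ∃ u w : E, y = 1 ⊗ₜ[F] u + θ ⊗ₜ[F] w := by
    intro y
    induction y using TensorProduct.induction_on with
    | zero => exact ⟨0, 0, by simp⟩
    | tmul x z =>
      obtain ⟨a, b, rfl⟩ := hspan x
      refine ⟨a • z, b • z, ?_⟩
      rw [TensorProduct.add_tmul, TensorProduct.tmul_smul, TensorProduct.tmul_smul,
        TensorProduct.smul_tmul', TensorProduct.smul_tmul', Algebra.smul_def, mul_one,
        Algebra.smul_def]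
    | add x y hx hy =>
      obtain ⟨u, w, rfl⟩ := hx
      obtain ⟨u', w', rfl⟩ := hy
      refine ⟨u + u', w + w', ?_⟩
      rw [TensorProduct.tmul_add, TensorProduct.tmul_add]
      abel
  refine ⟨exists_pair_ne _, mul_comm, ?_⟩
  intro y hy
  obtain ⟨u, w, rfl⟩ := hrep y
  have hne : u * u - algebraMap F E e * (w * w) ≠ 0 := by
    intro h
    by_cases hw : w = 0
    · subst hw
      have hu : u = 0 := by
        have : u * u = 0 := by simpa using h
        exact mul_self_eq_zero.mp this
      subst hu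
      exact hy (by simp)
    · apply hsq (u / w)
      have : u * u = algebraMap F E e * (w * w) := sub_eq_zero.mp h
      rw [div_mul_div_comm, this]
      field_simp
  refine ⟨(1 ⊗ₜ[F] u - θ ⊗ₜ[F] w) * 1 ⊗ₜ[F] (u * u - algebraMap F E e * (w * w))⁻¹, ?_⟩
  have h1 : (1 ⊗ₜ[F] u + θ ⊗ₜ[F] w) * (1 ⊗ₜ[F] u - θ ⊗ₜ[F] w) =
      (1 : K) ⊗ₜ[F] (u * u - algebraMap F E e * (w * w)) := by
    have h2 : (θ * θ) ⊗ₜ[F] (w * w) = (1 : K) ⊗ₜ[F] (algebraMap F E e * (w * w)) := by
      rw [hθ, ← Algebra.smul_def, ← mul_one (algebraMap F K e), ← Algebra.smul_def,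
        TensorProduct.smul_tmul]
    rw [add_mul, mul_sub, mul_sub, Algebra.TensorProduct.tmul_mul_tmul,
      Algebra.TensorProduct.tmul_mul_tmul, Algebra.TensorProduct.tmul_mul_tmul,
      Algebra.TensorProduct.tmul_mul_tmul, h2, TensorProduct.tmul_sub, one_mul, one_mul, mul_one,
      mul_comm w u]
    abel
  rw [← mul_assoc, h1, Algebra.TensorProduct.tmul_mul_tmul, mul_inv_cancel₀ hne, one_mul,
    Algebra.TensorProduct.one_def]

/-- a square root of a nonsquare has trace zero -/
theorem trace_zero (E : Type) [Field E] [NumberField E] (y : E) (r : ℚ) (hr : ¬ IsSquare r)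
    (hy : y * y = algebraMap ℚ E r) : Algebra.trace ℚ E y = 0 := by
  have hirr : Irreducible (X ^ 2 - C r : ℚ[X]) := by
    rw [Polynomial.irreducible_iff_roots_eq_zero_of_degree_le_three
      (by rw [natDegree_X_pow_sub_C]) (by rw [natDegree_X_pow_sub_C]; norm_num)]
    rw [Multiset.eq_zero_iff_forall_notMem]
    intro a ha
    rw [mem_roots', IsRoot.def, eval_sub, eval_pow, eval_X, eval_C] at ha
    exact hr ⟨a, by linear_combination -ha.2⟩
  have hmin : minpoly ℚ y = X ^ 2 - C r := by
    symm
    refine minpoly.eq_of_irreducible_of_monic hirr ?_ (monic_X_pow_sub_C r two_ne_zero)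
    simp [sq, hy]
  rw [trace_eq_finrank_mul_minpoly_nextCoeff, hmin]
  have : (X ^ 2 - C r : ℚ[X]).nextCoeff = 0 := by
    rw [nextCoeff, natDegree_X_pow_sub_C]
    simp [coeff_X_pow]
  rw [this]
  simp

theorem not_sq_prime_mul {p q : ℕ} (hp : p.Prime) (hq : q.Prime) (hpq : p ≠ q) :
    ¬ IsSquare ((p : ℚ) * q) := by
  intro h
  have h1 : IsSquare (((p * q : ℕ)) : ℚ) := by
    push_cast
    exact h
  rw [Rat.isSquare_natCast_iff] at h1
  obtain ⟨k, hk⟩ := h1
  have h2 : p ∣ k := by
    have : p ∣ k * k := hk ▸ dvd_mul_right p q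
    rcases (Nat.Prime.dvd_mul hp).mp this with h | h <;> exact h
  obtain ⟨j, rfl⟩ := h2
  have h3 : q = p * (j * j) := by
    apply Nat.eq_of_mul_eq_mul_left hp.pos
    rw [hk]; ring
  have h4 : p ∣ q := h3 ▸ dvd_mul_right p _
  exact hpq ((Nat.prime_dvd_prime_iff_eq hp hq).mp h4)

/-- only finitely many primes `q` have `c q` a square in `E` -/
theorem finite_sq (E : Type) [Field E] [NumberField E] (c : ℚ) (hc : c ≠ 0) :
    {q : ℕ | q.Prime ∧ ∃ z : E, z * z = algebraMap ℚ E (c * q)}.Finite := by
  classical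
  by_contra hinf
  obtain ⟨S, hS, hcard⟩ := Set.Infinite.exists_subset_card_eq hinf (Module.finrank ℚ E + 1)
  choose! z hz using fun (q : ℕ) (hq : q ∈ S) => (hS hq).2
  have hli : LinearIndependent ℚ (fun q : S => z q) := by
    rw [Fintype.linearIndependent_iff]
    intro g hg q₀
    have h1 : Algebra.trace ℚ E ((∑ q : S, g q • z q) * z q₀) = 0 := by
      rw [hg, zero_mul, map_zero]
    rw [Finset.sum_mul, map_sum, Finset.sum_eq_single q₀] at h1
    · rw [smul_mul_assoc, map_smul, hz q₀ q₀.2, Algebra.trace_algebraMap, smul_eq_mul,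
        nsmul_eq_mul] at h1
      have hq0 : ((q₀ : ℕ) : ℚ) ≠ 0 := by
        exact_mod_cast (hS q₀.2).1.ne_zero
      have hn : ((Module.finrank ℚ E : ℕ) : ℚ) ≠ 0 := by
        exact_mod_cast Module.finrank_pos.ne'
      rcases mul_eq_zero.mp h1 with h | h
      · exact h
      · exact absurd h (mul_ne_zero hn (mul_ne_zero hc hq0))
    · intro q _ hq
      rw [smul_mul_assoc, map_smul]
      have hne : (q : ℕ) ≠ q₀ := fun h => hq (Subtype.ext h)
      have : Algebra.trace ℚ E (z q * z q₀) = 0 := by
        refine trace_zero E _ (c * c * ((q : ℕ) * (q₀ : ℕ))) ?_ ?_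
        · rintro ⟨s, hs⟩
          apply not_sq_prime_mul (hS q.2).1 (hS q₀.2).1 hne
          refine ⟨s / c, ?_⟩
          rw [div_mul_div_comm, ← hs]
          field_simp
        · have h3 := hz q q.2
          have h4 := hz q₀ q₀.2
          calc z q * z q₀ * (z q * z q₀) = (z q * z q) * (z q₀ * z q₀) := by ring
            _ = _ := by
              rw [h3, h4, ← map_mul]
              congr 1
              ring
      rw [this, smul_zero]
    · intro h
      exact absurd (Finset.mem_univ _) h
  have h2 := hli.fintype_card_le_finrank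
  rw [Fintype.card_coe, hcard] at h2
  omega

/-- the quadratic extension `F(√-p)` -/
theorem exists_quad (F : Type) [Field F] [NumberField F] (p : ℕ) (hp : p.Prime)
    (h : ∀ z : F, z * z ≠ algebraMap ℚ F (-1 * p)) :
    ∃ (K : Type) (_ : Field K) (_ : NumberField K) (_ : Algebra F K), Module.finrank F K = 2 ∧
      IsTotallyComplex K ∧ ∃ θ : K, θ * θ = algebraMap F K (-p) ∧
        ∀ x : K, ∃ a b : F, x = algebraMap F K a + algebraMap F K b * θ := by
  set f : F[X] := X ^ 2 - C (-(p : F)) with hf
  have hdeg : f.natDegree = 2 := natDegree_X_pow_sub_C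
  have hirr : Irreducible f := by
    rw [Polynomial.irreducible_iff_roots_eq_zero_of_degree_le_three (by rw [hdeg])
      (by rw [hdeg]; norm_num)]
    rw [Multiset.eq_zero_iff_forall_notMem]
    intro a ha
    rw [mem_roots', IsRoot.def, hf, eval_sub, eval_pow, eval_X, eval_C] at ha
    apply h a
    simp only [map_mul, map_neg, map_one, map_natCast]
    linear_combination ha.2
  have : Fact (Irreducible f) := ⟨hirr⟩
  let K := AdjoinRoot f
  have hfin : Module.Finite F K := (AdjoinRoot.powerBasis hirr.ne_zero).finite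
  have hrank : Module.finrank F K = 2 := by
    rw [(AdjoinRoot.powerBasis hirr.ne_zero).finrank, AdjoinRoot.powerBasis_dim, hdeg]
  have hchar : CharZero K := charZero_of_injective_algebraMap (algebraMap F K).injective
  have hfinQ : FiniteDimensional ℚ K := Module.Finite.trans F K
  have hNF : NumberField K := ⟨⟩
  have hroot : (AdjoinRoot.root f : K) * AdjoinRoot.root f = algebraMap F K (-p) := by
    have h := AdjoinRoot.eval₂_root f
    rw [hf] at h
    simp only [eval₂_sub, eval₂_pow, eval₂_X, eval₂_C] at h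
    rw [← sq]
    exact sub_eq_zero.mp h
  refine ⟨K, inferInstance, hNF, inferInstance, hrank, ⟨fun v => ?_⟩, AdjoinRoot.root f, hroot, ?_⟩
  · by_contra hv
    rw [InfinitePlace.not_isComplex_iff_isReal] at hv
    let φ := InfinitePlace.embedding_of_isReal hv
    have h1 : φ (AdjoinRoot.root f) * φ (AdjoinRoot.root f) = -(p : ℝ) := by
      rw [← map_mul, hroot]
      simp
    have h2 : 0 < (p : ℝ) := by exact_mod_cast hp.pos
    nlinarith [mul_self_nonneg (φ (AdjoinRoot.root f))]
  · intro x
    set pb := AdjoinRoot.powerBasis hirr.ne_zero with hpb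
    have hdim : pb.dim = 2 := by rw [hpb, AdjoinRoot.powerBasis_dim, hdeg]
    have hgen : pb.gen = AdjoinRoot.root f := by rw [hpb, AdjoinRoot.powerBasis_gen]
    obtain ⟨g, hg, hx⟩ := pb.exists_eq_aeval x
    have hg1 : g.natDegree ≤ 1 := by omega
    rw [hgen] at hx
    refine ⟨g.coeff 0, g.coeff 1, ?_⟩
    rw [hx, eq_X_add_C_of_natDegree_le_one hg1, map_add, map_mul, aeval_C, aeval_X, aeval_C,
      add_comm]
    simp only [coeff_add, coeff_C_mul, coeff_X_zero, coeff_X_one, coeff_C_zero, coeff_C_succ,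
      mul_zero, mul_one, zero_add, add_zero]
    rfl

/-- a quadratic extension contains no further square roots -/
theorem no_root (F K : Type) [Field F] [NumberField F] [Field K] [NumberField K] [Algebra F K]
    (p q : ℕ) (θ : K) (hθ : θ * θ = algebraMap F K (-p))
    (hspan : ∀ x : K, ∃ a b : F, x = algebraMap F K a + algebraMap F K b * θ)
    (hp : ∀ z : F, z * z ≠ algebraMap ℚ F (-1 * p)) (hq : ∀ z : F, z * z ≠ algebraMap ℚ F (-1 * q))
    (hpq : ∀ z : F, z * z ≠ algebraMap ℚ F (p * q)) (z : K) : z * z ≠ algebraMap F K (-q) := by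
  intro h
  obtain ⟨a, b, rfl⟩ := hspan z
  have h1 : algebraMap F K (a * a - p * (b * b) + q) + algebraMap F K (2 * (a * b)) * θ = 0 := by
    have e : (algebraMap F K a + algebraMap F K b * θ) * (algebraMap F K a + algebraMap F K b * θ) =
        algebraMap F K (a * a) + algebraMap F K (b * b) * (θ * θ) +
          algebraMap F K (2 * (a * b)) * θ := by
      simp only [map_mul, map_ofNat]
      ring
    rw [e, hθ] at h
    simp only [map_mul, map_neg, map_natCast, map_sub, map_add, map_ofNat] at h ⊢
    linear_combination h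
  have hinj : Function.Injective (algebraMap F K) := (algebraMap F K).injective
  by_cases hab : a * b = 0
  · rw [hab, mul_zero, map_zero, zero_mul, add_zero] at h1
    have h2 : a * a - p * (b * b) + q = 0 := hinj (by rw [h1, map_zero])
    rcases mul_eq_zero.mp hab with ha | hb
    · subst ha
      apply hpq (p * b)
      simp only [map_mul, map_natCast]
      linear_combination -(p : F) * h2
    · subst hb
      apply hq a
      simp only [map_mul, map_neg, map_one, map_natCast]
      linear_combination h2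
  · have h2ab : (2 : F) * (a * b) ≠ 0 := mul_ne_zero two_ne_zero hab
    set t : F := -(a * a - p * (b * b) + q) / (2 * (a * b)) with ht
    have h3 : θ = algebraMap F K t := by
      rw [ht, map_div₀, eq_div_iff ((map_ne_zero_iff _ hinj).mpr h2ab), map_neg]
      linear_combination h1
    apply hp t
    apply hinj
    rw [map_mul, ← h3, hθ]
    congr 1
    simp

end Pool.DS.TIE

namespace Pool.DS

open TIE in
theorem stmt_TIE : Stmt_TIE := by
  classical
  intro F _ _ E _ _ _
  obtain ⟨p, hp, hpp⟩ := exists_seq_of_forall_finset_exists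
    (fun p : ℕ => p.Prime ∧ ∀ z : E, z * z ≠ algebraMap ℚ E (-1 * p))
    (fun p q : ℕ => ∀ z : F, z * z ≠ algebraMap ℚ F (p * q)) (by
      intro s hs
      have h1 := finite_sq E (-1) (by norm_num)
      have h2 : ∀ x ∈ s, {q : ℕ | q.Prime ∧ ∃ z : F, z * z = algebraMap ℚ F (x * q)}.Finite :=
        fun x hx => finite_sq F x (by exact_mod_cast (hs x hx).1.ne_zero)
      have h3 : ({q : ℕ | q.Prime ∧ ∃ z : E, z * z = algebraMap ℚ E (-1 * q)} ∪
          ⋃ x ∈ s, {q : ℕ | q.Prime ∧ ∃ z : F, z * z = algebraMap ℚ F (x * q)}).Finite :=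
        h1.union (s.finite_toSet.biUnion h2)
      obtain ⟨q, hq, hq'⟩ := (Nat.infinite_setOfPred_prime.sdiff h3).nonempty
      have hqp : q.Prime := hq
      rw [Set.mem_union, not_or] at hq'
      refine ⟨q, ⟨hqp, fun z hz => hq'.1 ⟨hqp, z, hz⟩⟩, fun x hx z hz => hq'.2 ?_⟩
      rw [Set.mem_iUnion₂]
      exact ⟨x, hx, hqp, z, hz⟩)
  have hF : ∀ n, ∀ z : F, z * z ≠ algebraMap ℚ F (-1 * p n) := by
    intro n z hz
    apply (hp n).2 (algebraMap F E z)
    rw [← map_mul, hz, ← IsScalarTower.algebraMap_apply]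
  choose K iF iN iA hrank htc θ hθ hspan using fun n => exists_quad F (p n) (hp n).1 (hF n)
  refine ⟨K, iF, iN, iA, hrank, htc, fun n => ?_, ?_⟩
  · refine field_tensor F (K n) E (θ n) (-(p n)) (hθ n) (hspan n) fun z hz => ?_
    apply (hp n).2 z
    rw [hz]
    simp
  · intro i j hij
    have hpij : ∀ z : F, z * z ≠ algebraMap ℚ F (p j * p i) := by
      rcases lt_or_gt_of_ne hij with h | h
      · intro z hz
        exact hpp i j h z (by rw [hz, mul_comm])
      · exact hpp j i h
    exact field_tensor F (K i) (K j) (θ i) (-(p i)) (hθ i) (hspan i)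
      (no_root F (K j) (p j) (p i) (θ j) (hθ j) (hspan j) (hF j) (hF i) hpij)

end Pool.DS
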