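import Pool.Agent.Work.MP_6dc561_ds.DG1
import Pool.Agent.Work.MP_6dc561_nt.Twist

/-! Block AVG (helper17): the average over `K` is the mean of `e_K g` -/

set_option autoImplicit false

open NumberField IsDedekindDomain Ideal Polynomial Filter Topology

namespace Pool.DS

open Pool.Agent.Work.MP_6dc561_nt

namespace AVG

theorem log_div_tendsto : Tendsto (fun x : ℝ => Real.log x / x) atTop (𝓝 0) := by
  have := Real.isLittleO_log_id_atTop.tendsto_div_nhds_zero
  exact this

theorem sqrt_log_tendsto : Tendsto (fun x : ℝ => Real.sqrt x * (Real.log x / x)) atTop (𝓝 0) := by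
  have h1 : Tendsto (fun x : ℝ => Real.log x / x ^ (1 / 2 : ℝ)) atTop (𝓝 0) :=
    (isLittleO_log_rpow_atTop (by norm_num)).tendsto_div_nhds_zero
  refine h1.congr' ?_
  filter_upwards [eventually_gt_atTop (0 : ℝ)] with x hx
  rw [← Real.sqrt_eq_rpow]
  have h2 : 0 < Real.sqrt x := Real.sqrt_pos.mpr hx
  have h3 : Real.sqrt x * Real.sqrt x = x := Real.mul_self_sqrt hx.le
  rw [div_eq_iff h2.ne']
  have h4 : Real.sqrt x * (Real.log x / x) * Real.sqrt x =
      Real.sqrt x * Real.sqrt x * Real.log x / x := by ring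
  rw [h4, h3]
  field_simp

/-- the abstract comparison -/
theorem compare {N D S : ℝ → ℝ} {M C : ℝ} (hM : 0 ≤ M) (hD0 : ∀ x, 0 ≤ D x)
    (hN : ∀ x, |N x| ≤ M * D x) (hS : ∀ x, 1 ≤ x → |N x - S x| ≤ C * Real.sqrt x)
    (hD : Tendsto (fun x => D x * Real.log x / x) atTop (𝓝 1)) :
    Tendsto (fun x => N x / D x - S x * Real.log x / x) atTop (𝓝 0) := by
  have h1 : Tendsto (fun x : ℝ => M * |1 - D x * Real.log x / x| +
      |C| * (Real.sqrt x * (Real.log x / x))) atTop (𝓝 0) := by
    have e1 : Tendsto (fun x : ℝ => M * |1 - D x * Real.log x / x|) atTop (𝓝 0) := by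
      have := ((tendsto_const_nhds (x := (1 : ℝ))).sub hD).abs.const_mul M
      simpa using this
    have e2 := sqrt_log_tendsto.const_mul |C|
    have := e1.add e2
    simpa using this
  refine squeeze_zero_norm' ?_ h1
  filter_upwards [eventually_ge_atTop (1 : ℝ)] with x hx
  rw [Real.norm_eq_abs]
  have hx0 : 0 < x := by linarith
  have hl : 0 ≤ Real.log x := Real.log_nonneg hx
  have hlx : 0 ≤ Real.log x / x := div_nonneg hl hx0.le
  have e1 : |N x / D x - N x * (Real.log x / x)| ≤ M * |1 - D x * Real.log x / x| := by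
    rcases (hD0 x).eq_or_lt with h | h
    · have hN0 : N x = 0 := by
        have := hN x
        rw [← h, mul_zero] at this
        exact abs_nonpos_iff.mp this
      rw [hN0, zero_div, zero_mul, sub_zero, abs_zero]
      positivity
    · have e : N x / D x - N x * (Real.log x / x) = N x / D x * (1 - D x * Real.log x / x) := by
        field_simp
      rw [e, abs_mul]
      apply mul_le_mul_of_nonneg_right _ (abs_nonneg _)
      rw [abs_div, abs_of_pos h, div_le_iff₀ h]
      exact hN x
  have e2 : |(N x - S x) * (Real.log x / x)| ≤ |C| * (Real.sqrt x * (Real.log x / x)) := by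
    rw [abs_mul, abs_of_nonneg hlx, ← mul_assoc]
    apply mul_le_mul_of_nonneg_right _ hlx
    refine (hS x hx).trans ?_
    exact mul_le_mul_of_nonneg_right (le_abs_self C) (Real.sqrt_nonneg x)
  have e3 : N x / D x - S x * Real.log x / x =
      (N x / D x - N x * (Real.log x / x)) + (N x - S x) * (Real.log x / x) := by ring
  rw [e3]
  exact (abs_add_le _ _).trans (add_le_add e1 e2)

/-- removing finitely many primes does not change the density -/
theorem density {D U : ℝ → ℝ} {c : ℝ} (hU : Tendsto (fun x => U x * Real.log x / x) atTop (𝓝 1))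
    (h : ∀ x, |U x - D x| ≤ c) : Tendsto (fun x => D x * Real.log x / x) atTop (𝓝 1) := by
  have h1 : Tendsto (fun x => (U x - D x) * (Real.log x / x)) atTop (𝓝 0) := by
    have e := log_div_tendsto.const_mul c
    rw [mul_zero] at e
    refine squeeze_zero_norm' ?_ e
    filter_upwards [eventually_ge_atTop (1 : ℝ)] with x hx
    have hlx : 0 ≤ Real.log x / x := div_nonneg (Real.log_nonneg hx) (by linarith)
    rw [Real.norm_eq_abs, abs_mul, abs_of_nonneg hlx]
    exact mul_le_mul_of_nonneg_right (h x) hlx
  have h2 := hU.sub h1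
  rw [sub_zero] at h2
  refine h2.congr fun x => ?_
  ring

end AVG

open scoped Classical in
open AVG DG1 in
theorem stmt_AVG (_hDG1 : Stmt_DG1) (hRED : Stmt_RED) (hPIT : Stmt_PIT) : Stmt_AVG := by
  intro F _ _ K _ _ _ f hdeg hsep G M₀ hG₀
  obtain ⟨M, hM0, hG⟩ : ∃ M : ℝ, 0 ≤ M ∧ ∀ v a b, |G v a b| ≤ M :=
    ⟨max M₀ 0, le_max_right _ _, fun v a b => (hG₀ v a b).trans (le_max_left _ _)⟩
  set fK := f.map (algebraMap (𝓞 F) (𝓞 K)) with hfK
  have hinj : Function.Injective (algebraMap (𝓞 F) (𝓞 K)) :=
    FaithfulSMul.algebraMap_injective (𝓞 F) (𝓞 K)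
  have hfin : (goodPrimes fK 1)ᶜ.Finite := by
    apply good_cofinite fK
    · rw [hfK, natDegree_map_eq_of_injective hinj]
      exact hdeg
    · have e : fK.map (algebraMap (𝓞 K) K) = (f.map (algebraMap (𝓞 F) F)).map (algebraMap F K) := by
        rw [hfK, Polynomial.map_map, Polynomial.map_map, ← IsScalarTower.algebraMap_eq,
          ← IsScalarTower.algebraMap_eq]
      rw [e]
      exact hsep.map
    · exact one_ne_zero
  set hw : HeightOneSpectrum (𝓞 K) → ℝ := fun w =>
    G (below F w) (frobTrace fK 1 w / Real.sqrt (nrm w)) (frobSecond fK 1 w / nrm w) with hhw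
  set W : ℝ → Finset (HeightOneSpectrum (𝓞 K)) := fun x =>
    (upTo K x).filter (fun w => w ∈ goodPrimes fK 1) with hW
  have hset : ∀ x, goodUpTo fK 1 x = (W x : Set (HeightOneSpectrum (𝓞 K))) := by
    intro x
    ext w
    simp only [goodUpTo, hW, Finset.coe_filter, mem_upTo, Set.mem_setOf_eq, nrm]
    exact and_comm
  have hav : ∀ x, stAverage F K f G x = (∑ w ∈ W x, hw w) / ((W x).card : ℝ) := by
    intro x
    unfold stAverage
    rw [← hfK, hset, Set.ncard_coe_finset]
    congr 1
    exact finsum_mem_coe_finset _ _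
  simp_rw [hav]
  refine compare (M := M) (C := M * Module.finrank ℚ K) hM0 (fun x => by positivity) ?_ ?_ ?_
  · intro x
    refine (Finset.abs_sum_le_sum_abs _ _).trans ?_
    refine (Finset.sum_le_sum fun w _ => hG _ _ _).trans ?_
    rw [Finset.sum_const, nsmul_eq_mul, mul_comm]
  · intro x hx
    -- the degree one part
    have hone : ∀ w : HeightOneSpectrum (𝓞 K), absNorm w.asIdeal = absNorm (below F w).asIdeal →
        (if w ∈ goodPrimes fK 1 then hw w else 0) = gv F f G (below F w) := by
      intro w hnw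
      obtain ⟨r1, r2, r3⟩ := hRED F K f w hnw
      rw [← hfK] at r1 r2 r3
      have hn : nrm w = nrm (below F w) := hnw
      unfold gv
      by_cases hg : w ∈ goodPrimes fK 1
      · rw [if_pos hg, if_pos (r1.mp hg)]
        simp only [hhw]
        rw [r2, r3, hn]
      · rw [if_neg hg, if_neg fun h => hg (r1.mpr h)]
    have e1 : ∑ w ∈ W x, hw w = ∑ w ∈ upTo K x, (if w ∈ goodPrimes fK 1 then hw w else 0) := by
      simp only [hW]
      rw [Finset.sum_filter]
    have e2 := Finset.sum_filter_add_sum_filter_not (upTo K x)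
      (fun w => absNorm w.asIdeal = absNorm (below F w).asIdeal)
      (fun w => if w ∈ goodPrimes fK 1 then hw w else 0)
    have e3 : ∑ w ∈ (upTo K x).filter (fun w => absNorm w.asIdeal = absNorm (below F w).asIdeal),
        (if w ∈ goodPrimes fK 1 then hw w else 0) =
        ∑ v ∈ upTo F x, (degOne F K v : ℝ) * gv F f G v := by
      rw [sum_group]
      exact Finset.sum_congr rfl fun w hw' => hone w (Finset.mem_filter.mp hw').2
    rw [e1, ← e2, e3, add_sub_cancel_left]
    refine (Finset.abs_sum_le_sum_abs _ _).trans ?_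
    have e4 : ∀ w ∈ (upTo K x).filter
        (fun w => ¬ absNorm w.asIdeal = absNorm (below F w).asIdeal),
        |if w ∈ goodPrimes fK 1 then hw w else 0| ≤ M := by
      intro w _
      split_ifs
      · exact hG _ _ _
      · rw [abs_zero]
        exact hM0
    refine (Finset.sum_le_sum e4).trans ?_
    rw [Finset.sum_const, nsmul_eq_mul]
    have e5 := bad_card F K x (by linarith) ((upTo K x).filter
      (fun w => ¬ absNorm w.asIdeal = absNorm (below F w).asIdeal))
      (fun w hw => Finset.mem_filter.mp hw)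
    have e6 := mul_le_mul_of_nonneg_right e5 hM0
    refine e6.trans (le_of_eq (by ring))
  · refine density (U := fun x => ((upTo K x).card : ℝ)) (c := (hfin.toFinset.card : ℝ))
      (hPIT K) ?_
    intro x
    have h2 := Finset.card_filter_add_card_filter_not (s := upTo K x)
      (fun w => w ∈ goodPrimes fK 1)
    have h3 : ((upTo K x).filter (fun w => ¬ w ∈ goodPrimes fK 1)).card ≤
        hfin.toFinset.card := by
      apply Finset.card_le_card
      intro w hw
      rw [Set.Finite.mem_toFinset]
      exact (Finset.mem_filter.mp hw).2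
    have h4 : ((W x).card : ℝ) +
        ((upTo K x).filter (fun w => ¬ w ∈ goodPrimes fK 1)).card = (upTo K x).card := by
      exact_mod_cast h2
    rw [← h4, add_sub_cancel_left, abs_of_nonneg (by positivity)]
    exact_mod_cast h3

end Pool.DS
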