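import Pool.Agent.Work.MP_6dc561_ds.Interface2
import Pool.Agent.Work.MP_6dc561_ds.AVG
import Pool.Agent.Work.MP_6dc561_nt.Bessel

/-!
# TWB: all quadratic twists have the same limits up to a square summable error
-/

set_option autoImplicit false

open NumberField IsDedekindDomain Ideal Polynomial Filter Topology

namespace Pool.DS.TWB

open Pool.Agent.Work.MP_6dc561_nt

variable {F : Type} [Field F] [NumberField F]

/-- the test function at `v` with the sign `s` -/
noncomputable def sg (f : (𝓞 F)[X]) (G : HeightOneSpectrum (𝓞 F) → ℝ → ℝ → ℝ)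
    (p : HeightOneSpectrum (𝓞 F) × Bool) : ℝ :=
  open Classical in
  if p.1 ∈ goodPrimes f 1 then
    G p.1 ((if p.2 then 1 else -1) * (frobTrace f 1 p.1 / Real.sqrt (nrm p.1)))
      (frobSecond f 1 p.1 / nrm p.1) else 0

theorem abs_sg_le {f : (𝓞 F)[X]} {G : HeightOneSpectrum (𝓞 F) → ℝ → ℝ → ℝ} {M : ℝ}
    (hM : 0 ≤ M) (hG : ∀ v a b, |G v a b| ≤ M) (p : HeightOneSpectrum (𝓞 F) × Bool) :
    |sg f G p| ≤ M := by
  unfold sg
  split_ifs
  · exact hG _ _ _
  · exact hG _ _ _
  · rw [abs_zero]; exact hM

/-- the function `e_i` -/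
noncomputable def ee (d : 𝓞 F) (p : HeightOneSpectrum (𝓞 F) × Bool) : ℝ :=
  1 + (if p.2 then 1 else -1) * chi d p.1

/-- the average of the twist as a mean value over `F` -/
theorem tw_mean (hPIT : Stmt_PIT) (f : (𝓞 F)[X]) (hdeg : f.natDegree = 5 ∨ f.natDegree = 6)
    (hsep : (f.map (algebraMap (𝓞 F) F)).Separable)
    (G : HeightOneSpectrum (𝓞 F) → ℝ → ℝ → ℝ) (M : ℝ) (hM : 0 ≤ M) (hG : ∀ v a b, |G v a b| ≤ M)
    (d : 𝓞 F) (hd : d ≠ 0) :
    Tendsto (fun x => twAverage F f d G x - (∑ v ∈ upTo F x,
      (ee d (v, true) * sg f G (v, true) + ee d (v, false) * sg f G (v, false)) / 2) *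
        Real.log x / x) atTop (𝓝 0) := by
  classical
  have hfin : (goodPrimes f d)ᶜ.Finite := good_cofinite f hdeg hsep d hd
  set h : HeightOneSpectrum (𝓞 F) → ℝ := fun v =>
    G v (frobTrace f d v / Real.sqrt (nrm v)) (frobSecond f d v / nrm v) with hh
  set t : HeightOneSpectrum (𝓞 F) → ℝ := fun v =>
    (ee d (v, true) * sg f G (v, true) + ee d (v, false) * sg f G (v, false)) / 2 with ht
  set W : ℝ → Finset (HeightOneSpectrum (𝓞 F)) := fun x =>
    (upTo F x).filter (fun w => w ∈ goodPrimes f d) with hW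
  have hset : ∀ x, goodUpTo f d x = (W x : Set (HeightOneSpectrum (𝓞 F))) := by
    intro x
    ext w
    simp only [goodUpTo, hW, Finset.coe_filter, mem_upTo, Set.mem_ofPred_eq, nrm]
    exact and_comm
  have hav : ∀ x, twAverage F f d G x = (∑ w ∈ W x, h w) / ((W x).card : ℝ) := by
    intro x
    unfold twAverage
    rw [hset, Set.ncard_coe_finset]
    congr 1
    exact finsum_mem_coe_finset _ _
  simp_rw [hav]
  have hht : ∀ v, v ∈ goodPrimes f d → h v = t v := by
    intro v hv
    have hv1 := (good_iff f d v).mp hv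
    have h2v : (2 : 𝓞 F) ∉ v.asIdeal := hv.1
    simp only [hh, ht, ee, sg, if_pos hv1.1]
    rw [frobTrace_twist f d v h2v hv1.2, frobSecond_twist f d v h2v hv1.2]
    have hchi : chi d v = 1 ∨ chi d v = -1 := by
      unfold chi
      rw [if_neg hv1.2]
      split_ifs <;> simp
    rcases hchi with hc | hc
    · rw [hc]
      simp only [if_true, Bool.false_eq_true, if_false, one_mul]
      ring
    · rw [hc]
      simp only [if_true, Bool.false_eq_true, if_false]
      have e : -1 * frobTrace f 1 v / Real.sqrt (nrm v) =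
          -1 * (frobTrace f 1 v / Real.sqrt (nrm v)) := by ring
      rw [e]
      ring
  have htM : ∀ v, |t v| ≤ M := by
    intro v
    have h1 := abs_le.mp (abs_sg_le (f := f) hM hG (v, true))
    have h2 := abs_le.mp (abs_sg_le (f := f) hM hG (v, false))
    have h3 := abs_le.mp (chi_abs_le d v)
    simp only [ht, ee, if_true, Bool.false_eq_true, if_false]
    rw [abs_le]
    constructor <;> nlinarith [h1.1, h1.2, h2.1, h2.2, h3.1, h3.2]
  have hM' : ∀ x, ∑ w ∈ (upTo F x).filter (fun w => ¬ w ∈ goodPrimes f d), |t w| ≤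
      M * hfin.toFinset.card := by
    intro x
    refine (Finset.sum_le_sum fun v _ => htM v).trans ?_
    rw [Finset.sum_const, nsmul_eq_mul, mul_comm]
    apply mul_le_mul_of_nonneg_left _ hM
    have : ((upTo F x).filter (fun w => ¬ w ∈ goodPrimes f d)).card ≤ hfin.toFinset.card := by
      apply Finset.card_le_card
      intro w hw
      rw [Set.Finite.mem_toFinset]
      exact (Finset.mem_filter.mp hw).2
    exact_mod_cast this
  refine AVG.compare (M := M) (C := M * hfin.toFinset.card) hM (fun x => by positivity) ?_ ?_ ?_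
  · intro x
    refine (Finset.abs_sum_le_sum_abs _ _).trans ?_
    refine (Finset.sum_le_sum fun w _ => hG _ _ _).trans ?_
    rw [Finset.sum_const, nsmul_eq_mul, mul_comm]
  · intro x hx
    have e2 := Finset.sum_filter_add_sum_filter_not (upTo F x) (fun w => w ∈ goodPrimes f d) t
    have e3 : ∑ w ∈ W x, h w = ∑ w ∈ W x, t w :=
      Finset.sum_congr rfl fun w hw => hht w (Finset.mem_filter.mp hw).2
    have e4 : (∑ w ∈ W x, h w) - ∑ w ∈ upTo F x, t w =
        - ∑ w ∈ (upTo F x).filter (fun w => ¬ w ∈ goodPrimes f d), t w := by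
      rw [e3, ← e2]
      ring
    rw [e4, abs_neg]
    refine (Finset.abs_sum_le_sum_abs _ _).trans ((hM' x).trans ?_)
    have h1 : 1 ≤ Real.sqrt x := Real.one_le_sqrt.mpr hx
    exact le_mul_of_one_le_right (by positivity) h1
  · refine AVG.density (U := fun x => ((upTo F x).card : ℝ)) (c := (hfin.toFinset.card : ℝ))
      (hPIT F) ?_
    intro x
    have h2 := Finset.card_filter_add_card_filter_not (s := upTo F x)
      (fun w => w ∈ goodPrimes f d)
    have h3 : ((upTo F x).filter (fun w => ¬ w ∈ goodPrimes f d)).card ≤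
        hfin.toFinset.card := by
      apply Finset.card_le_card
      intro w hw
      rw [Set.Finite.mem_toFinset]
      exact (Finset.mem_filter.mp hw).2
    have h4 : ((W x).card : ℝ) +
        ((upTo F x).filter (fun w => ¬ w ∈ goodPrimes f d)).card = (upTo F x).card := by
      exact_mod_cast h2
    rw [← h4, add_sub_cancel_left, abs_of_nonneg (by positivity)]
    exact_mod_cast h3

/-- mean value of `χ²` -/
theorem chi_sq_mean (hPIT : Stmt_PIT) (d : 𝓞 F) (hd : d ≠ 0) :
    Tendsto (fun x : ℝ => (∑ v ∈ upTo F x, chi d v * chi d v) * Real.log x / x) atTop (𝓝 1) := by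
  classical
  have hfin := bad_finite d hd
  refine AVG.density (U := fun x => ((upTo F x).card : ℝ)) (c := (hfin.toFinset.card : ℝ))
    (hPIT F) ?_
  intro x
  have h1 : ((upTo F x).card : ℝ) - ∑ v ∈ upTo F x, chi d v * chi d v =
      ∑ v ∈ upTo F x, (1 - chi d v * chi d v) := by
    rw [Finset.sum_sub_distrib, Finset.sum_const, nsmul_eq_mul, mul_one]
  rw [h1]
  have h4 : ∀ v : HeightOneSpectrum (𝓞 F),
      |1 - chi d v * chi d v| ≤ if v ∈ hfin.toFinset then 1 else 0 := by
    intro v
    by_cases hv : v ∈ bad d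
    · rw [if_pos (hfin.mem_toFinset.mpr hv)]
      have hc := abs_le.mp (chi_abs_le d v)
      rw [abs_le]
      constructor <;> nlinarith [hc.1, hc.2]
    · rw [if_neg (fun h => hv (hfin.mem_toFinset.mp h))]
      have hdv : d ∉ v.asIdeal := fun h => hv (Or.inr h)
      have hchi : chi d v = 1 ∨ chi d v = -1 := by
        unfold chi
        rw [if_neg hdv]
        split_ifs <;> simp
      rcases hchi with hc | hc <;> rw [hc] <;> norm_num
  refine (Finset.abs_sum_le_sum_abs _ _).trans ((Finset.sum_le_sum fun v _ => h4 v).trans ?_)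
  rw [← Finset.sum_filter, Finset.sum_const, nsmul_eq_mul, mul_one]
  have : ((upTo F x).filter (· ∈ hfin.toFinset)).card ≤ hfin.toFinset.card := by
    refine Finset.card_le_card fun v hv => ?_
    exact (Finset.mem_filter.mp hv).2
  exact_mod_cast this

theorem below_self (v : HeightOneSpectrum (𝓞 F)) : below F v = v := by
  apply HeightOneSpectrum.ext
  ext x
  exact Iff.rfl

omit [NumberField F] in
theorem map_self (f : (𝓞 F)[X]) :
    f.map (@algebraMap (𝓞 F) (𝓞 F) _ _ (RingOfIntegers.mapRingHom (algebraMap F F)).toAlgebra) = f := by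
  ext n
  rw [coeff_map]
  rfl

omit [NumberField F] in
theorem sum_prod_bool (s : Finset (HeightOneSpectrum (𝓞 F)))
    (a : HeightOneSpectrum (𝓞 F) × Bool → ℝ) :
    ∑ p ∈ s ×ˢ (Finset.univ : Finset Bool), a p = ∑ v ∈ s, (a (v, true) + a (v, false)) := by
  rw [Finset.sum_product]
  refine Finset.sum_congr rfl fun v _ => ?_
  rw [Fintype.sum_bool]

end Pool.DS.TWB

namespace Pool.DS

open Pool.Agent.Work.MP_6dc561_nt TWB

theorem stmt_TWB (hQCH : Stmt_QCH) (hBES : Stmt_BES) (hPIT : Stmt_PIT) : Stmt_TWB := by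
  classical
  intro F _ _ f hdeg hsep G M₀ hG₀ ι d hd hdd l hl hlt T hT
  have hM₀ : 0 ≤ M₀ := by
    obtain ⟨v⟩ : Nonempty (HeightOneSpectrum (𝓞 F)) := by
      have := infinite_primes F
      infer_instance
    exact (abs_nonneg _).trans (hG₀ v 0 0)
  -- the weights
  set c : ℝ → ℝ := fun x => max (Real.log x / x) 0 / 2 with hc
  have hcx : ∀ᶠ x in l, c x = Real.log x / x / 2 := by
    refine hlt ?_
    filter_upwards [eventually_ge_atTop (1:ℝ)] with x hx
    rw [hc]
    simp only
    rw [max_eq_left]
    exact div_nonneg (Real.log_nonneg hx) (by linarith)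
  have main := hBES (HeightOneSpectrum (𝓞 F) × Bool)
    (fun x => upTo F x ×ˢ (Finset.univ : Finset Bool)) c M₀ (sg f G) ι (fun i => ee (d i))
    (fun _ => 2) l T hl (abs_sg_le hM₀ hG₀) (fun x => by positivity) (fun i => by norm_num)
  have transfer : ∀ (S : ℝ → ℝ) (L : ℝ), Tendsto (fun x => S x * Real.log x / x) atTop (𝓝 L) →
      Tendsto (fun x => c x * (2 * S x)) l (𝓝 L) := by
    intro S L hS
    refine (hS.mono_left hlt).congr' ?_
    filter_upwards [hcx] with x hx
    rw [hx]
    ring
  have h1 : Tendsto (fun x => c x * ((upTo F x ×ˢ (Finset.univ : Finset Bool)).card : ℝ)) l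
      (𝓝 1) := by
    refine (transfer _ _ (hPIT F)).congr fun x => ?_
    rw [Finset.card_product, Finset.card_univ, Fintype.card_bool]
    push_cast
    ring
  have h2 : ∀ i, Tendsto (fun x => c x * ∑ v ∈ upTo F x ×ˢ (Finset.univ : Finset Bool),
      ee (d i) v) l (𝓝 1) := by
    intro i
    refine (transfer _ _ (hPIT F)).congr fun x => ?_
    rw [sum_prod_bool]
    congr 1
    have : ∀ v : HeightOneSpectrum (𝓞 F), ee (d i) (v, true) + ee (d i) (v, false) = 2 := by
      intro v
      simp only [ee, if_true, Bool.false_eq_true, if_false]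
      ring
    simp only [this, Finset.sum_const, nsmul_eq_mul]
    ring
  have hprod : ∀ i j x, ∑ v ∈ upTo F x ×ˢ (Finset.univ : Finset Bool), ee (d i) v * ee (d j) v =
      2 * (((upTo F x).card : ℝ) + ∑ v ∈ upTo F x, chi (d i) v * chi (d j) v) := by
    intro i j x
    rw [sum_prod_bool]
    have : ∀ v : HeightOneSpectrum (𝓞 F), ee (d i) (v, true) * ee (d j) (v, true) +
        ee (d i) (v, false) * ee (d j) (v, false) = 2 + 2 * (chi (d i) v * chi (d j) v) := by
      intro v
      simp only [ee, if_true, Bool.false_eq_true, if_false]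
      ring
    simp only [this, Finset.sum_add_distrib, Finset.sum_const, nsmul_eq_mul, ← Finset.mul_sum]
    ring
  have h3 : ∀ i j, i ≠ j → Tendsto (fun x => c x * ∑ v ∈ upTo F x ×ˢ (Finset.univ : Finset Bool),
      ee (d i) v * ee (d j) v) l (𝓝 1) := by
    intro i j hij
    simp_rw [hprod]
    apply transfer
    have e1 := hQCH F (d i * d j) (hdd i j hij)
    have e2 := (hPIT F).add e1
    rw [add_zero] at e2
    refine e2.congr fun x => ?_
    simp_rw [chi_mul]
    ring
  have h4 : ∀ i, Tendsto (fun x => c x * ∑ v ∈ upTo F x ×ˢ (Finset.univ : Finset Bool),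
      ee (d i) v * ee (d i) v) l (𝓝 2) := by
    intro i
    simp_rw [hprod]
    apply transfer
    have e2 := (hPIT F).add (chi_sq_mean hPIT (d i) (hd i))
    rw [show (1:ℝ) + 1 = 2 by norm_num] at e2
    refine e2.congr fun x => ?_
    ring
  have h5 : ∀ i, Tendsto (fun x => c x * ∑ v ∈ upTo F x ×ˢ (Finset.univ : Finset Bool),
      ee (d i) v * sg f G v) l (𝓝 (T i)) := by
    intro i
    have e1 := (tw_mean hPIT f hdeg hsep G M₀ hM₀ hG₀ (d i) (hd i)).mono_left hlt
    have e2 := (hT i).sub e1
    rw [sub_zero] at e2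
    refine e2.congr' ?_
    filter_upwards [hcx] with x hx
    rw [hx, sum_prod_bool, sub_sub_cancel, ← Finset.sum_div]
    ring
  have h6 : ∀ E, Tendsto (fun x => c x * ∑ v ∈ upTo F x ×ˢ (Finset.univ : Finset Bool),
      sg f G v) l (𝓝 E) ↔ Tendsto (stAverage F F f (evenPart G)) l (𝓝 E) := by
    intro E
    have hev : ∀ v a b, |evenPart G v a b| ≤ M₀ := by
      intro v a b
      have h1 := abs_le.mp (hG₀ v a b)
      have h2 := abs_le.mp (hG₀ v (-a) b)
      unfold evenPart
      rw [abs_le]
      constructor <;> linarith [h1.1, h1.2, h2.1, h2.2]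
    have e1 := (tw_mean hPIT f hdeg hsep (evenPart G) M₀ hM₀ hev 1 one_ne_zero).mono_left hlt
    have hst : stAverage F F f (evenPart G) = twAverage F f 1 (evenPart G) := by
      funext x
      unfold stAverage twAverage
      have hid := map_self f
      simp only [hid, below_self]
    rw [hst]
    have e2 : ∀ x, (∑ v ∈ upTo F x, (ee 1 (v, true) * sg f (evenPart G) (v, true) +
        ee 1 (v, false) * sg f (evenPart G) (v, false)) / 2) =
        (∑ v ∈ upTo F x ×ˢ (Finset.univ : Finset Bool), sg f G v) / 2 := by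
      intro x
      rw [sum_prod_bool, Finset.sum_div]
      refine Finset.sum_congr rfl fun v _ => ?_
      have hs : sg f (evenPart G) (v, true) = (sg f G (v, true) + sg f G (v, false)) / 2 ∧
          sg f (evenPart G) (v, false) = (sg f G (v, true) + sg f G (v, false)) / 2 := by
        unfold sg evenPart
        simp only [if_true, Bool.false_eq_true, if_false]
        split_ifs
        · constructor
          · simp
          · simp [add_comm]
        · simp
      rw [hs.1, hs.2]
      simp only [ee, if_true, Bool.false_eq_true, if_false]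
      ring
    simp_rw [e2] at e1
    constructor
    · intro h
      have e3 := e1.add h
      rw [zero_add] at e3
      refine e3.congr' ?_
      filter_upwards [hcx] with x hx
      rw [hx]
      ring
    · intro h
      have e3 := h.sub e1
      rw [sub_zero] at e3
      refine e3.congr' ?_
      filter_upwards [hcx] with x hx
      rw [hx]
      ring
  obtain ⟨m1, m2⟩ := main h1 h2 h3 h4 h5
  constructor
  · intro E hE
    have := m1 E ((h6 E).mpr hE)
    norm_num at this
    exact this
  · intro hinf
    obtain ⟨E, hE⟩ := m2 (by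
      norm_num
      rw [summable_const_iff]
      exact one_ne_zero)
    exact ⟨E, (h6 E).mp hE⟩

end Pool.DS
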