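import Pool.Agent.Work.MP_6dc561_ds.Interface

/-!
VMA: elementary properties of the von Mangoldt function of a number field.
-/

set_option autoImplicit false

open NumberField IsDedekindDomain Ideal Polynomial Filter Topology MeasureTheory
open scoped TensorProduct ENNReal NNReal Pointwise

namespace Pool.DS

namespace VMA

variable {K : Type} [Field K] [NumberField K]

/-- the residue characteristic -/
noncomputable def rp (w : HeightOneSpectrum (𝓞 K)) : ℕ := absNorm (under ℤ w.asIdeal)

theorem rp_prime (w : HeightOneSpectrum (𝓞 K)) : (rp w).Prime := by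
  have := w.isPrime
  have : NeZero w.asIdeal := ⟨w.ne_bot⟩
  exact Nat.absNorm_under_prime w.asIdeal

theorem inertia_pos (w : HeightOneSpectrum (𝓞 K)) : 0 < w.asIdeal.inertiaDeg ℤ := by
  have := w.isPrime
  exact inertiaDeg_pos w.asIdeal ℤ

theorem norm_eq (w : HeightOneSpectrum (𝓞 K)) :
    absNorm w.asIdeal = rp w ^ w.asIdeal.inertiaDeg ℤ := by
  have := w.isPrime
  have : w.asIdeal.LiesOver (span {((rp w : ℕ) : ℤ)}) := Int.liesOver_span_absNorm w.asIdeal
  exact (pow_inertiaDeg (rp w) w.asIdeal).symm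

theorem two_le_norm (w : HeightOneSpectrum (𝓞 K)) : 2 ≤ absNorm w.asIdeal := by
  rw [norm_eq]
  exact le_trans (rp_prime w).two_le (Nat.le_self_pow (inertia_pos w).ne' _)

theorem rp_le_norm (w : HeightOneSpectrum (𝓞 K)) : rp w ≤ absNorm w.asIdeal := by
  rw [norm_eq]
  exact Nat.le_self_pow (inertia_pos w).ne' _

/-- the sum of the inertia degrees above a prime number -/
theorem sum_over (p : ℕ) (hp : p.Prime) (T : Finset (HeightOneSpectrum (𝓞 K)))
    (hT : ∀ w ∈ T, rp w = p) : ∑ w ∈ T, w.asIdeal.inertiaDeg ℤ ≤ Module.finrank ℚ K := by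
  classical
  set P : Ideal ℤ := span {(p : ℤ)} with hP
  have hpp : P.IsPrime := by
    rw [hP, span_singleton_prime (by exact_mod_cast hp.ne_zero)]
    exact Nat.prime_iff_prime_int.1 hp
  have : Fintype (P.primesOver (𝓞 K)) :=
    (Algebra.QuasiFinite.finite_primesOver (R := ℤ) (S := 𝓞 K) P).fintype
  have h := sum_ramification_inertia_eq_finrank P (𝓞 K)
  rw [RingOfIntegers.rank] at h
  have hlies : ∀ w ∈ T, w.asIdeal ∈ P.primesOver (𝓞 K) := by
    intro w hw
    refine ⟨w.isPrime, ?_⟩
    have h1 : w.asIdeal.LiesOver (span {((rp w : ℕ) : ℤ)}) := Int.liesOver_span_absNorm w.asIdeal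
    rw [hT w hw] at h1
    exact h1
  rw [← h, ← Finset.sum_attach T]
  calc ∑ w ∈ T.attach, w.1.asIdeal.inertiaDeg ℤ
      = ∑ q ∈ T.attach.image (fun w => (⟨w.1.asIdeal, hlies w.1 w.2⟩ : P.primesOver (𝓞 K))),
          q.1.inertiaDeg ℤ := by
        rw [Finset.sum_image]
        intro a _ b _ hab
        apply Subtype.ext
        apply HeightOneSpectrum.ext
        exact congrArg Subtype.val hab
    _ ≤ ∑ q : P.primesOver (𝓞 K), q.1.inertiaDeg ℤ :=
        Finset.sum_le_sum_of_subset (Finset.subset_univ _)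
    _ ≤ ∑ q : P.primesOver (𝓞 K), q.1.ramificationIdx ℤ * q.1.inertiaDeg ℤ := by
        refine Finset.sum_le_sum fun q _ => ?_
        have := q.2.1
        exact Nat.le_mul_of_pos_left _ (ramificationIdx_pos q.1 ℤ)

/-- at most `[K : ℚ]` primes above a prime number -/
theorem card_over (p : ℕ) (hp : p.Prime) (T : Finset (HeightOneSpectrum (𝓞 K)))
    (hT : ∀ w ∈ T, rp w = p) : T.card ≤ Module.finrank ℚ K := by
  refine le_trans ?_ (sum_over p hp T hT)
  rw [Finset.card_eq_sum_ones]
  exact Finset.sum_le_sum fun w _ => inertia_pos w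

theorem rp_eq {w w' : HeightOneSpectrum (𝓞 K)} {k k' : ℕ}
    (h : absNorm w.asIdeal ^ (k + 1) = absNorm w'.asIdeal ^ (k' + 1)) : rp w = rp w' := by
  have h1 : rp w ∣ absNorm w.asIdeal ^ (k + 1) := by
    rw [norm_eq, ← pow_mul]
    exact dvd_pow_self _ (Nat.mul_ne_zero (inertia_pos w).ne' (Nat.succ_ne_zero k))
  rw [h, norm_eq w', ← pow_mul] at h1
  exact (Nat.prime_dvd_prime_iff_eq (rp_prime w) (rp_prime w')).1
    ((rp_prime w).dvd_of_dvd_pow h1)

theorem log_norm (w : HeightOneSpectrum (𝓞 K)) :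
    Real.log (absNorm w.asIdeal) = w.asIdeal.inertiaDeg ℤ * Real.log (rp w) := by
  rw [norm_eq]
  push_cast
  rw [Real.log_pow]

theorem log_nonneg (w : HeightOneSpectrum (𝓞 K)) : 0 ≤ Real.log (absNorm w.asIdeal) :=
  Real.log_natCast_nonneg _

end VMA

open VMA in
theorem stmt_VMA : Stmt_VMA := by
  classical
  intro K _ _ n
  have hnn : 0 ≤ LamK K n := by
    unfold LamK
    refine finsum_nonneg fun p => ?_
    split_ifs
    · exact log_nonneg p.1
    · exact le_refl _
  refine ⟨hnn, ?_⟩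
  have hR : (0 : ℝ) ≤ Module.finrank ℚ K * ArithmeticFunction.vonMangoldt n :=
    mul_nonneg (Nat.cast_nonneg _) ArithmeticFunction.vonMangoldt_nonneg
  by_cases hfs : (Function.support (fun p : HeightOneSpectrum (𝓞 K) × ℕ =>
      if absNorm p.1.asIdeal ^ (p.2 + 1) = n then Real.log (absNorm p.1.asIdeal) else 0)).Finite
  swap
  · have h0 : LamK K n = 0 := by
      unfold LamK
      exact finsum_of_infinite_support hfs
    rw [h0]; exact hR
  have h1 : LamK K n = ∑ p ∈ hfs.toFinset,
      (if absNorm p.1.asIdeal ^ (p.2 + 1) = n then Real.log (absNorm p.1.asIdeal) else 0) := by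
    unfold LamK
    exact finsum_eq_sum _ hfs
  have hmem : ∀ p ∈ hfs.toFinset, absNorm p.1.asIdeal ^ (p.2 + 1) = n := by
    intro p hp
    rw [Set.Finite.mem_toFinset, Function.mem_support] at hp
    by_contra hc
    rw [if_neg hc] at hp
    exact hp rfl
  rcases hfs.toFinset.eq_empty_or_nonempty with he | ⟨p0, hp0⟩
  · rw [h1, he, Finset.sum_empty]; exact hR
  have hn := hmem p0 hp0
  have hlam : ArithmeticFunction.vonMangoldt n = Real.log (rp p0.1) := by
    rw [← hn, norm_eq, ← pow_mul, ArithmeticFunction.vonMangoldt_apply_pow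
      (Nat.mul_ne_zero (inertia_pos p0.1).ne' (Nat.succ_ne_zero _)),
      ArithmeticFunction.vonMangoldt_apply_prime (rp_prime p0.1)]
  have hrp : ∀ p ∈ hfs.toFinset, rp p.1 = rp p0.1 := fun p hp =>
    rp_eq ((hmem p hp).trans hn.symm)
  have hinj : Set.InjOn (fun p : HeightOneSpectrum (𝓞 K) × ℕ => p.1) hfs.toFinset := by
    intro p hp q hq hpq
    simp only at hpq
    refine Prod.ext hpq ?_
    have h2 := (hmem p hp).trans (hmem q hq).symm
    rw [hpq] at h2
    have h3 := Nat.pow_right_injective (two_le_norm q.1) h2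
    simpa using h3
  rw [h1, hlam]
  calc ∑ p ∈ hfs.toFinset,
      (if absNorm p.1.asIdeal ^ (p.2 + 1) = n then Real.log (absNorm p.1.asIdeal) else 0)
      = ∑ p ∈ hfs.toFinset, (p.1.asIdeal.inertiaDeg ℤ : ℝ) * Real.log (rp p0.1) := by
        refine Finset.sum_congr rfl fun p hp => ?_
        rw [if_pos (hmem p hp), log_norm, hrp p hp]
    _ = ((∑ p ∈ hfs.toFinset, p.1.asIdeal.inertiaDeg ℤ : ℕ) : ℝ) * Real.log (rp p0.1) := by
        push_cast
        rw [Finset.sum_mul]
    _ = ((∑ w ∈ hfs.toFinset.image (fun p => p.1), w.asIdeal.inertiaDeg ℤ : ℕ) : ℝ) *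
          Real.log (rp p0.1) := by
        rw [Finset.sum_image hinj]
    _ ≤ (Module.finrank ℚ K : ℝ) * Real.log (rp p0.1) := by
        refine mul_le_mul_of_nonneg_right ?_ (Real.log_natCast_nonneg _)
        have h4 := sum_over (rp p0.1) (rp_prime p0.1) (hfs.toFinset.image (fun p => p.1)) (by
          intro w hw
          obtain ⟨p, hp, rfl⟩ := Finset.mem_image.1 hw
          exact hrp p hp)
        exact_mod_cast h4

end Pool.DS
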