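import Pool.Agent.Work.MP_6dc561_ds.Interface

/-!
# Block VMC: the convolution identity for the von Mangoldt function of a number field
-/

set_option autoImplicit false

open NumberField IsDedekindDomain Ideal Finset

namespace Pool.DS

namespace VMC

variable {K : Type} [Field K] [NumberField K]

theorem norm_ge_two (w : HeightOneSpectrum (𝓞 K)) : 2 ≤ absNorm w.asIdeal := by
  have h0 : absNorm w.asIdeal ≠ 0 := by
    intro h
    exact w.ne_bot (absNorm_eq_zero_iff.1 h)
  have h1 : absNorm w.asIdeal ≠ 1 := by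
    intro h
    exact w.isPrime.ne_top (absNorm_eq_one_iff.1 h)
  omega

theorem not_unit (w : HeightOneSpectrum (𝓞 K)) : ¬ IsUnit w.asIdeal := by
  rw [Ideal.isUnit_iff]
  exact w.isPrime.ne_top

theorem ne_bot_of_norm {I : Ideal (𝓞 K)} {n : ℕ} (hn : 1 ≤ n) (hI : absNorm I = n) : I ≠ ⊥ := by
  rintro rfl
  rw [absNorm_bot] at hI
  omega

/-- a power of a prime which divides an ideal has a small exponent -/
theorem lt_of_pow_dvd {w : HeightOneSpectrum (𝓞 K)} {I : Ideal (𝓞 K)} {n m : ℕ} (hn : 1 ≤ n)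
    (hI : absNorm I = n) (h : w.asIdeal ^ m ∣ I) : m < n := by
  have h1 : absNorm w.asIdeal ^ m ∣ n := by
    rw [← map_pow, ← hI]
    exact map_dvd absNorm h
  have h2 := Nat.le_of_dvd hn h1
  have h3 : 2 ^ m ≤ absNorm w.asIdeal ^ m := Nat.pow_le_pow_left (norm_ge_two w) m
  have h4 : m < 2 ^ m := Nat.lt_two_pow_self
  omega

theorem card_pow_dvd {w : HeightOneSpectrum (𝓞 K)} {I : Ideal (𝓞 K)} {n : ℕ} (hn : 1 ≤ n)
    (hI : absNorm I = n) [DecidablePred fun k : ℕ => w.asIdeal ^ (k + 1) ∣ I] :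
    ((range n).filter (fun k => w.asIdeal ^ (k + 1) ∣ I)).card = multiplicity w.asIdeal I := by
  have hf : FiniteMultiplicity w.asIdeal I :=
    FiniteMultiplicity.of_not_isUnit (not_unit w) (ne_bot_of_norm hn hI)
  have h1 : (range n).filter (fun k => w.asIdeal ^ (k + 1) ∣ I) =
      range (multiplicity w.asIdeal I) := by
    ext k
    rw [Finset.mem_filter, Finset.mem_range, Finset.mem_range,
      hf.pow_dvd_iff_le_multiplicity]
    constructor
    · rintro ⟨_, h⟩
      exact h
    · intro h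
      have h2 := lt_of_pow_dvd hn hI (hf.pow_dvd_iff_le_multiplicity.2 (le_refl _))
      exact ⟨by omega, h⟩
  rw [h1, Finset.card_range]

theorem mem_upTo_of_pow_dvd {w : HeightOneSpectrum (𝓞 K)} {n k : ℕ} (hn : 1 ≤ n)
    (h : absNorm w.asIdeal ^ (k + 1) ∣ n) : w ∈ upTo K n ∧ k < n := by
  have h1 := Nat.le_of_dvd hn h
  have h2 : absNorm w.asIdeal ≤ absNorm w.asIdeal ^ (k + 1) :=
    Nat.le_self_pow (by omega) _
  have h3 : 2 ^ (k + 1) ≤ absNorm w.asIdeal ^ (k + 1) :=
    Nat.pow_le_pow_left (norm_ge_two w) _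
  have h4 : k + 1 < 2 ^ (k + 1) := Nat.lt_two_pow_self
  refine ⟨?_, by omega⟩
  rw [mem_upTo]
  exact_mod_cast h2.trans h1

/-- the logarithm of the norm -/
theorem log_norm {I : Ideal (𝓞 K)} {n : ℕ} (hn : 1 ≤ n) (hI : absNorm I = n)
    [∀ (w : HeightOneSpectrum (𝓞 K)) (k : ℕ), Decidable (w.asIdeal ^ (k + 1) ∣ I)] :
    Real.log n = ∑ w ∈ upTo K n, ∑ k ∈ range n,
      if w.asIdeal ^ (k + 1) ∣ I then Real.log (absNorm w.asIdeal) else 0 := by
  have hI0 := ne_bot_of_norm hn hI
  have h1 : I = ∏ w ∈ upTo K n, w.asIdeal ^ multiplicity w.asIdeal I := by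
    have h := Ideal.finprod_heightOneSpectrum_pow_multiplicity hI0
    conv_lhs => rw [← h]
    rw [finprod_eq_prod_of_mulSupport_subset]
    intro w hw
    rw [Function.mem_mulSupport] at hw
    have hd : w.asIdeal ∣ I := by
      by_contra hnd
      apply hw
      rw [multiplicity_eq_zero.mpr hnd, pow_zero]
    refine (mem_upTo_of_pow_dvd (k := 0) hn ?_).1
    rw [← map_pow, ← hI, zero_add, pow_one]
    exact map_dvd absNorm hd
  have h2 : (n : ℝ) = ∏ w ∈ upTo K n, (absNorm w.asIdeal : ℝ) ^ multiplicity w.asIdeal I := by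
    conv_lhs => rw [← hI, h1]
    rw [map_prod, Nat.cast_prod]
    refine Finset.prod_congr rfl fun w _ => ?_
    rw [map_pow, Nat.cast_pow]
  conv_lhs => rw [h2]
  rw [Real.log_prod]
  · refine Finset.sum_congr rfl fun w _ => ?_
    rw [Real.log_pow, ← Finset.sum_filter, Finset.sum_const, card_pow_dvd hn hI, nsmul_eq_mul]
  · intro w _
    have h3 := norm_ge_two w
    have h4 : (0 : ℝ) < absNorm w.asIdeal := by
      have : 0 < absNorm w.asIdeal := by omega
      exact_mod_cast this
    positivity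

/-- the ideals of norm `n` -/
noncomputable def ids (K : Type) [Field K] [NumberField K] (n : ℕ) : Finset (Ideal (𝓞 K)) :=
  (Ideal.finite_setOfPred_absNorm_eq (S := 𝓞 K) n).toFinset

theorem mem_ids {n : ℕ} {I : Ideal (𝓞 K)} : I ∈ ids K n ↔ absNorm I = n := by
  unfold ids
  rw [Set.Finite.mem_toFinset]
  rfl

theorem idc_eq (n : ℕ) : idc K n = (ids K n).card := by
  unfold idc
  have h : {I : Ideal (𝓞 K) | absNorm I = n} = (ids K n : Set (Ideal (𝓞 K))) := by
    ext I
    rw [Finset.mem_coe, mem_ids]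
    rfl
  have h2 : Nat.card {I : Ideal (𝓞 K) | absNorm I = n} = (ids K n).card := by
    rw [h]
    exact Nat.card_eq_card_toFinset _ |>.trans (by simp)
  exact h2

/-- the ideals of norm `n` divisible by `Q` -/
theorem card_dvd {Q : Ideal (𝓞 K)} {n d : ℕ} (hn : 1 ≤ n) (hQ : absNorm Q = d)
    [DecidablePred fun I : Ideal (𝓞 K) => Q ∣ I] :
    ((ids K n).filter (fun I => Q ∣ I)).card = if d ∣ n then idc K (n / d) else 0 := by
  split_ifs with hd
  · obtain ⟨m, hm⟩ := hd
    have hd0 : 0 < d := by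
      rcases Nat.eq_zero_or_pos d with h | h
      · rw [h, zero_mul] at hm
        omega
      · exact h
    have hQ0 : Q ≠ ⊥ := ne_bot_of_norm hd0 hQ
    have hnd : n / d = m := by rw [hm, Nat.mul_div_cancel_left _ hd0]
    rw [hnd, idc_eq]
    symm
    refine Finset.card_bij (fun J _ => Q * J) ?_ ?_ ?_
    · intro J hJ
      rw [mem_ids] at hJ
      rw [Finset.mem_filter, mem_ids, map_mul, hQ, hJ, hm]
      exact ⟨rfl, dvd_mul_right _ _⟩
    · intro J _ J' _ h
      exact mul_left_cancel₀ hQ0 h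
    · intro I hI
      rw [Finset.mem_filter, mem_ids] at hI
      obtain ⟨hI1, J, hJ⟩ := hI
      refine ⟨J, ?_, hJ.symm⟩
      rw [mem_ids]
      rw [hJ, map_mul, hQ, hm] at hI1
      exact Nat.eq_of_mul_eq_mul_left hd0 hI1
  · rw [Finset.card_eq_zero, Finset.filter_eq_empty_iff]
    intro I hI hdv
    rw [mem_ids] at hI
    apply hd
    rw [← hQ, ← hI]
    exact map_dvd absNorm hdv

/-- the von Mangoldt function as a finite sum -/
theorem LamK_eq {n d : ℕ} (hn : 1 ≤ n) (hd : d ∣ n) :
    LamK K d = ∑ w ∈ upTo K n, ∑ k ∈ range n,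
      if absNorm w.asIdeal ^ (k + 1) = d then Real.log (absNorm w.asIdeal) else 0 := by
  classical
  unfold LamK
  rw [← Finset.sum_product' (upTo K n) (range n) (fun w k =>
    if absNorm w.asIdeal ^ (k + 1) = d then Real.log (absNorm w.asIdeal) else 0)]
  rw [finsum_eq_sum_of_support_subset]
  intro p hp
  rw [Function.mem_support] at hp
  have h1 : absNorm p.1.asIdeal ^ (p.2 + 1) = d := by
    by_contra hno
    exact hp (if_neg hno)
  obtain ⟨h2, h3⟩ := mem_upTo_of_pow_dvd (w := p.1) (k := p.2) hn (h1 ▸ hd)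
  rw [Finset.mem_coe, Finset.mem_product]
  exact ⟨h2, Finset.mem_range.2 h3⟩

end VMC

open VMC in
/-- **VMC** -/
theorem stmt_VMC : Stmt_VMC := by
  classical
  intro K _ _ n hn
  -- right side
  have hR : (idc K n : ℝ) * Real.log n = ∑ w ∈ upTo K n, ∑ k ∈ range n,
      Real.log (absNorm w.asIdeal) *
        ((if absNorm w.asIdeal ^ (k + 1) ∣ n then idc K (n / absNorm w.asIdeal ^ (k + 1))
          else 0 : ℕ) : ℝ) := by
    calc (idc K n : ℝ) * Real.log n = ∑ _I ∈ ids K n, Real.log n := by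
          rw [Finset.sum_const, nsmul_eq_mul, idc_eq]
      _ = ∑ I ∈ ids K n, ∑ w ∈ upTo K n, ∑ k ∈ range n,
            if w.asIdeal ^ (k + 1) ∣ I then Real.log (absNorm w.asIdeal) else 0 :=
          Finset.sum_congr rfl fun I hI => log_norm hn (mem_ids.1 hI)
      _ = ∑ w ∈ upTo K n, ∑ k ∈ range n, ∑ I ∈ ids K n,
            if w.asIdeal ^ (k + 1) ∣ I then Real.log (absNorm w.asIdeal) else 0 := by
          rw [Finset.sum_comm]
          exact Finset.sum_congr rfl fun w _ => Finset.sum_comm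
      _ = _ := by
          refine Finset.sum_congr rfl fun w _ => Finset.sum_congr rfl fun k _ => ?_
          rw [← Finset.sum_filter, Finset.sum_const, nsmul_eq_mul,
            card_dvd hn (map_pow absNorm w.asIdeal (k + 1)), mul_comm]
  rw [hR, Nat.sum_divisorsAntidiagonal (fun d e => LamK K d * (idc K e : ℝ))]
  calc ∑ d ∈ n.divisors, LamK K d * (idc K (n / d) : ℝ)
      = ∑ d ∈ n.divisors, ∑ w ∈ upTo K n, ∑ k ∈ range n,
          if absNorm w.asIdeal ^ (k + 1) = d then
            Real.log (absNorm w.asIdeal) * (idc K (n / d) : ℝ) else 0 := by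
        refine Finset.sum_congr rfl fun d hd => ?_
        rw [LamK_eq hn (Nat.dvd_of_mem_divisors hd), Finset.sum_mul]
        refine Finset.sum_congr rfl fun w _ => ?_
        rw [Finset.sum_mul]
        refine Finset.sum_congr rfl fun k _ => ?_
        rw [ite_mul, zero_mul]
    _ = ∑ w ∈ upTo K n, ∑ k ∈ range n, ∑ d ∈ n.divisors,
          if absNorm w.asIdeal ^ (k + 1) = d then
            Real.log (absNorm w.asIdeal) * (idc K (n / d) : ℝ) else 0 := by
        rw [Finset.sum_comm]
        exact Finset.sum_congr rfl fun w _ => Finset.sum_comm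
    _ = _ := by
        refine Finset.sum_congr rfl fun w _ => Finset.sum_congr rfl fun k _ => ?_
        rw [Finset.sum_ite_eq]
        by_cases h : absNorm w.asIdeal ^ (k + 1) ∣ n
        · rw [if_pos (Nat.mem_divisors.2 ⟨h, by omega⟩), if_pos h]
        · rw [if_neg (fun h' => h (Nat.dvd_of_mem_divisors h')), if_neg h, Nat.cast_zero, mul_zero]

end Pool.DS
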