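import Pool.Agent.Work.MP_6dc561_ds.Main
import Pool.Agent.Work.MP_6dc561_ds.Final
import Pool.Agent.Work.MP_6dc561_ds.THK
import Pool.Agent.Work.MP_6dc561_ds.CNT
import Pool.Agent.Work.MP_6dc561_ds.FRO
import Pool.Agent.Work.MP_6dc561_ds.IDC
import Pool.Agent.Work.MP_6dc561_ds.IDL
import Pool.Agent.Work.MP_6dc561_ds.ANC
import Pool.Agent.Work.MP_6dc561_ds.VMA
import Pool.Agent.Work.MP_6dc561_ds.VMC
import Pool.Agent.Work.MP_6dc561_ds.LDZ
import Pool.Agent.Work.MP_6dc561_ds.NVL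
import Pool.Agent.Work.MP_6dc561_ds.PSI
import Pool.Agent.Work.MP_6dc561_ds.PIT
import Pool.Agent.Work.MP_6dc561_ds.HOM
import Pool.Agent.Work.MP_6dc561_ds.TEN
import Pool.Agent.Work.MP_6dc561_ds.ORA
import Pool.Agent.Work.MP_6dc561_ds.ORB
import Pool.Agent.Work.MP_6dc561_ds.ORD
import Pool.Agent.Work.MP_6dc561_ds.DG1
import Pool.Agent.Work.MP_6dc561_ds.DGB
import Pool.Agent.Work.MP_6dc561_ds.RDC
import Pool.Agent.Work.MP_6dc561_ds.MEA
import Pool.Agent.Work.MP_6dc561_ds.RED
import Pool.Agent.Work.MP_6dc561_ds.AVG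
import Pool.Agent.Work.MP_6dc561_ds.BES
import Pool.Agent.Work.MP_6dc561_ds.FIN
import Pool.Agent.Work.MP_6dc561_ds.QCH
import Pool.Agent.Work.MP_6dc561_ds.TWB
import Pool.Agent.Work.MP_6dc561_ds.RNK
import Pool.Agent.Work.MP_6dc561_ds.TIE

/-!
# Descent of Sato-Tate: all blocks together
-/

set_option autoImplicit false

open NumberField IsDedekindDomain Polynomial Filter Topology

namespace Pool.DS

/-- ideals in a class, with a power saving -/
theorem idc_all : Stmt_IDC := stmt_IDC stmt_THK stmt_CNT stmt_FRO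

/-- ideals of a number field, with a power saving -/
theorem idl_all : Stmt_IDL := stmt_IDL idc_all

/-- the logarithmic derivative of the Dedekind zeta function -/
theorem ldz_all : Stmt_LDZ := stmt_LDZ idl_all stmt_ANC stmt_VMA stmt_VMC

/-- **Landau's prime ideal theorem** -/
theorem pit_all : Stmt_PIT :=
  stmt_PIT (stmt_PSI idl_all stmt_ANC stmt_VMA ldz_all (stmt_NVL stmt_VMA ldz_all))

/-- mean values of the degree one counting functions -/
theorem mea_all : Stmt_MEA :=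
  stmt_MEA stmt_HOM stmt_TEN (stmt_ORD stmt_ORA stmt_ORB) stmt_DG1 stmt_DGB stmt_RDC pit_all

theorem fin_all : Stmt_FIN :=
  stmt_FIN mea_all (stmt_AVG stmt_DG1 stmt_RED pit_all) stmt_BES pit_all stmt_DGB stmt_RDC

theorem all : Stmt_ALL :=
  stmt_ALL fin_all (stmt_TWB (stmt_QCH mea_all stmt_DGB) stmt_BES pit_all) (stmt_RNK stmt_RDC)
    stmt_TIE

open Pool.Agent.Work.MP_6dc561_nt in
theorem stAverage_self (F : Type) [Field F] [NumberField F] (f : (𝓞 F)[X])
    (G : HeightOneSpectrum (𝓞 F) → ℝ → ℝ → ℝ) : stAverage F F f G = twAverage F f 1 G := by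
  funext x
  unfold stAverage twAverage
  have hid := TWB.map_self f
  simp only [hid, TWB.below_self]

end Pool.DS
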