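import Mathlib
import Pool.Agent.Work.MP_6dc561_nt.Defs

/-!
# Sato-Tate averages over finite extensions: definitions
-/

set_option autoImplicit false

open NumberField IsDedekindDomain Ideal Polynomial

namespace Pool.DS

open Pool.Agent.Work.MP_6dc561_nt

/-- The prime of `F` below the prime `w` of the finite extension `K`. -/
noncomputable def below (F : Type) [Field F] [NumberField F] {K : Type} [Field K] [NumberField K]
    [Algebra F K] (w : HeightOneSpectrum (𝓞 K)) : HeightOneSpectrum (𝓞 F) where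
  asIdeal := w.asIdeal.comap (algebraMap (𝓞 F) (𝓞 K))
  isPrime := Ideal.comap_isPrime _ _
  ne_bot := Ideal.IsIntegral.comap_ne_bot _ w.ne_bot

/-- The average over the primes `w` of `K` of good reduction of `y² = f(x)` with norm at most `x` of
`G (v, a_w/√q_w, b_w/q_w)`, where `v` is the prime of `F` below `w` and
`T⁴ - a_w T³ + b_w T² - q_w a_w T + q_w²` is the Frobenius polynomial at `w`. -/
noncomputable def stAverage (F : Type) [Field F] [NumberField F] (K : Type) [Field K]
    [NumberField K] [Algebra F K] (f : (𝓞 F)[X]) (G : HeightOneSpectrum (𝓞 F) → ℝ → ℝ → ℝ)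
    (x : ℝ) : ℝ :=
  (∑ᶠ w ∈ goodUpTo (f.map (algebraMap (𝓞 F) (𝓞 K))) 1 x,
    G (below F w) (frobTrace (f.map (algebraMap (𝓞 F) (𝓞 K))) 1 w / Real.sqrt (nrm w))
      (frobSecond (f.map (algebraMap (𝓞 F) (𝓞 K))) 1 w / nrm w)) /
    ((goodUpTo (f.map (algebraMap (𝓞 F) (𝓞 K))) 1 x).ncard : ℝ)

/-- The number of primes of `K` above `v` with the same norm as `v`. -/
noncomputable def degOne (F : Type) [Field F] [NumberField F] (K : Type) [Field K]
    [NumberField K] [Algebra F K] (v : HeightOneSpectrum (𝓞 F)) : ℕ :=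
  Nat.card {w : HeightOneSpectrum (𝓞 K) // below F w = v ∧
    absNorm w.asIdeal = absNorm v.asIdeal}

theorem finite_le' (F : Type) [Field F] [NumberField F] (x : ℝ) :
    {v : HeightOneSpectrum (𝓞 F) | (absNorm v.asIdeal : ℝ) ≤ x}.Finite := by
  have h := Ideal.finite_setOfPred_absNorm_le (S := 𝓞 F) ⌊x⌋₊
  refine Set.Finite.of_finite_image (f := fun v => v.asIdeal) (h.subset ?_) ?_
  · rintro _ ⟨v, hv, rfl⟩
    exact Nat.le_floor hv
  · intro v _ w _ h
    exact HeightOneSpectrum.ext h

/-- The primes of norm at most `x`. -/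
noncomputable def upTo (F : Type) [Field F] [NumberField F] (x : ℝ) :
    Finset (HeightOneSpectrum (𝓞 F)) :=
  (finite_le' F x).toFinset

theorem mem_upTo {F : Type} [Field F] [NumberField F] {x : ℝ} {v : HeightOneSpectrum (𝓞 F)} :
    v ∈ upTo F x ↔ (absNorm v.asIdeal : ℝ) ≤ x := by
  unfold upTo
  rw [Set.Finite.mem_toFinset]
  rfl

/-- The von Mangoldt function of `K`, summed over the powers of primes of norm `n`. -/
noncomputable def LamK (K : Type) [Field K] [NumberField K] (n : ℕ) : ℝ :=
  ∑ᶠ p : HeightOneSpectrum (𝓞 K) × ℕ,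
    if absNorm p.1.asIdeal ^ (p.2 + 1) = n then Real.log (absNorm p.1.asIdeal) else 0

/-- The number of ideals of norm `n`. -/
noncomputable def idc (K : Type) [Field K] [NumberField K] (n : ℕ) : ℕ :=
  Nat.card {I : Ideal (𝓞 K) // absNorm I = n}

end Pool.DS
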