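import Pool.Agent.Work.MP_6dc561_ds.Defs

/-!
# Block statements: descent of Sato-Tate (MP_6dc561_nt) and the prime ideal theorem

Block X: file `X.lean`, `theorem stmt_X (hY : Stmt_Y) .. : Stmt_X` (dependencies as hypotheses).
Proofs on paper: BLUEPRINT.md.
-/

set_option autoImplicit false

open NumberField IsDedekindDomain Ideal Polynomial Filter Topology MeasureTheory
open scoped TensorProduct ENNReal NNReal Pointwise

namespace Pool.DS

open Pool.Agent.Work.MP_6dc561_nt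

/-! ## Part L: counting ideals -/

/-- THK: the thickening of a Lipschitz image of the `m`-dimensional cube in dimension `m + 1` -/
def Stmt_THK : Prop :=
  ∀ (E : Type) [NormedAddCommGroup E] [NormedSpace ℝ E] [FiniteDimensional ℝ E]
    [MeasurableSpace E] [BorelSpace E] (μ : Measure E) [μ.IsAddHaarMeasure] (m : ℕ),
    Module.finrank ℝ E = m + 1 →
    ∀ (φ : (Fin m → ℝ) → E) (C : ℝ≥0), LipschitzOnWith C φ (Set.Icc 0 1) →
    ∃ C' : ℝ, ∀ ε : ℝ, 0 < ε → ε ≤ 1 →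
      μ (Metric.thickening ε (φ '' Set.Icc 0 1)) ≤ ENNReal.ofReal (C' * ε)

/-- CNT: lattice points in `t X`, uniformly in a shift -/
def Stmt_CNT : Prop :=
  ∀ (E : Type) [NormedAddCommGroup E] [NormedSpace ℝ E] [FiniteDimensional ℝ E]
    [MeasurableSpace E] [BorelSpace E] (μ : Measure E) [μ.IsAddHaarMeasure]
    (L : Submodule ℤ E) [DiscreteTopology L] [IsZLattice ℝ L] (X : Set E),
    Bornology.IsBounded X → MeasurableSet X →
    (∃ C : ℝ, ∀ ε : ℝ, 0 < ε → ε ≤ 1 →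
      μ (Metric.thickening ε (frontier X)) ≤ ENNReal.ofReal (C * ε)) →
    ∃ C : ℝ, ∀ t : ℝ, 1 ≤ t → ∀ y : E,
      |(Nat.card {z : L // (z : E) + y ∈ t • X} : ℝ) -
        μ.real X / ZLattice.covolume L μ * t ^ Module.finrank ℝ E| ≤
          C * t ^ (Module.finrank ℝ E - 1)

open scoped Classical in
/-- FRO: the frontier of Mathlib's region `normLeOne` is covered by Lipschitz images of cubes of
dimension `n - 1` -/
def Stmt_FRO : Prop :=
  ∀ (K : Type) [Field K] [NumberField K],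
    ∃ (N : ℕ) (φ : Fin N → (Fin (Module.finrank ℚ K - 1) → ℝ) → mixedEmbedding.mixedSpace K)
      (C : ℝ≥0),
      (∀ j, LipschitzOnWith C (φ j) (Set.Icc 0 1)) ∧
      frontier (mixedEmbedding.fundamentalCone.normLeOne K) ⊆ ⋃ j, φ j '' Set.Icc 0 1

/-- IDC: ideals in a class, with a power saving error term (from THK, CNT, FRO) -/
def Stmt_IDC : Prop :=
  ∀ (K : Type) [Field K] [NumberField K] (c : ClassGroup (𝓞 K)), ∃ C : ℝ, ∀ s : ℝ, 1 ≤ s →
    |(Nat.card {I : (nonZeroDivisors (Ideal (𝓞 K))) //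
        (absNorm (I : Ideal (𝓞 K)) : ℝ) ≤ s ∧ ClassGroup.mk0 I = c} : ℝ) -
      (2 ^ InfinitePlace.nrRealPlaces K * (2 * Real.pi) ^ InfinitePlace.nrComplexPlaces K *
        Units.regulator K) / (Units.torsionOrder K * Real.sqrt |discr K|) * s| ≤
      C * s ^ (1 - 1 / (Module.finrank ℚ K : ℝ))

/-- IDL: all ideals (from IDC) -/
def Stmt_IDL : Prop :=
  ∀ (K : Type) [Field K] [NumberField K], ∃ C : ℝ, ∀ n : ℕ, 1 ≤ n →
    |(∑ k ∈ Finset.Icc 1 n, (idc K k : ℝ)) - dedekindZeta_residue K * n| ≤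
      C * (n : ℝ) ^ (1 - 1 / (Module.finrank ℚ K : ℝ))

/-! ## Part Z: the prime ideal theorem -/

/-- ANC: analytic continuation from summatory asymptotics (general Dirichlet series) -/
def Stmt_ANC : Prop :=
  ∀ (a : ℕ → ℝ) (A C θ : ℝ), 0 ≤ θ → θ < 1 → (∀ n, 0 ≤ a n) →
    (∀ n : ℕ, 1 ≤ n → |(∑ k ∈ Finset.Icc 1 n, a k) - A * n| ≤ C * (n : ℝ) ^ θ) →
    (∀ s : ℂ, 1 < s.re → LSeriesSummable (fun n => (a n : ℂ)) s) ∧
    ∃ H : ℂ → ℂ, DifferentiableOn ℂ H {s : ℂ | θ < s.re} ∧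
      ∀ s : ℂ, 1 < s.re → LSeries (fun n => (a n : ℂ)) s = A / (s - 1) + H s

/-- VMA: elementary properties of the von Mangoldt function of `K` -/
def Stmt_VMA : Prop :=
  ∀ (K : Type) [Field K] [NumberField K] (n : ℕ),
    0 ≤ LamK K n ∧ LamK K n ≤ Module.finrank ℚ K * ArithmeticFunction.vonMangoldt n

/-- VMC: the convolution identity `∑_{d e = n} Λ_K(d) a(e) = a(n) log n` (unique factorisation) -/
def Stmt_VMC : Prop :=
  ∀ (K : Type) [Field K] [NumberField K] (n : ℕ), 1 ≤ n →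
    ∑ p ∈ n.divisorsAntidiagonal, LamK K p.1 * (idc K p.2 : ℝ) = (idc K n : ℝ) * Real.log n

/-- LDZ: the logarithmic derivative of the zeta function (from IDL, ANC, VMA, VMC) -/
def Stmt_LDZ : Prop :=
  ∀ (K : Type) [Field K] [NumberField K] (s : ℂ), 1 < s.re →
    LSeriesSummable (fun n => (LamK K n : ℂ)) s ∧ dedekindZeta K s ≠ 0 ∧
    DifferentiableAt ℂ (dedekindZeta K) s ∧
    LSeries (fun n => (LamK K n : ℂ)) s = - deriv (dedekindZeta K) s / dedekindZeta K s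

/-- NVL: nonvanishing on the line `Re s = 1` (from LDZ; abstract 3-4-1 argument) -/
def Stmt_NVL : Prop :=
  ∀ (K : Type) [Field K] [NumberField K] (θ : ℝ) (H : ℂ → ℂ), θ < 1 →
    DifferentiableOn ℂ H {s : ℂ | θ < s.re} →
    (∀ s : ℂ, 1 < s.re → dedekindZeta K s = dedekindZeta_residue K / (s - 1) + H s) →
    ∀ t : ℝ, t ≠ 0 →
      (dedekindZeta_residue K : ℂ) / (t * Complex.I) + H (1 + t * Complex.I) ≠ 0

/-- PSI: `∑_{n ≤ x} Λ_K(n) ~ x` (from IDL, ANC, VMA, LDZ, NVL and Wiener-Ikehara) -/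
def Stmt_PSI : Prop :=
  ∀ (K : Type) [Field K] [NumberField K],
    Tendsto (fun x : ℝ => (∑ k ∈ Finset.Icc 1 ⌊x⌋₊, LamK K k) / x) atTop (𝓝 1)

/-- PIT: the prime ideal theorem (from VMA, PSI) -/
def Stmt_PIT : Prop :=
  ∀ (K : Type) [Field K] [NumberField K],
    Tendsto (fun x : ℝ => ((upTo K x).card : ℝ) * Real.log x / x) atTop (𝓝 1)

/-! ## Part D: extensions -/

/-- HOM: primes of relative degree one are homomorphisms to the residue field -/
def Stmt_HOM : Prop :=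
  ∀ (F : Type) [Field F] [NumberField F] (K : Type) [Field K] [NumberField K] [Algebra F K]
    (v : HeightOneSpectrum (𝓞 F)),
    degOne F K v = Nat.card (𝓞 K →ₐ[𝓞 F] (𝓞 F ⧸ v.asIdeal))

/-- TEN: pairs of homomorphisms are homomorphisms of the tensor product modulo torsion, for almost
all `v` (`B = K₁ ⊗ K₂`, `R` = the subalgebra generated by `𝓞 K₁` and `𝓞 K₂`) -/
def Stmt_TEN : Prop :=
  ∀ (F : Type) [Field F] [NumberField F] (K₁ : Type) [Field K₁] [NumberField K₁] [Algebra F K₁]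
    (K₂ : Type) [Field K₂] [NumberField K₂] [Algebra F K₂] (B : Type) [CommRing B] [Algebra F B]
    (i₁ : K₁ →ₐ[F] B) (i₂ : K₂ →ₐ[F] B),
    Function.Bijective (Algebra.TensorProduct.productMap i₁ i₂) →
    ∃ R : Subalgebra (𝓞 F) B, Module.Finite (𝓞 F) R ∧
      (∀ b : B, ∃ c : 𝓞 F, c ≠ 0 ∧ c • b ∈ R) ∧
      {v : HeightOneSpectrum (𝓞 F) |
        Nat.card (𝓞 K₁ →ₐ[𝓞 F] (𝓞 F ⧸ v.asIdeal)) * Nat.card (𝓞 K₂ →ₐ[𝓞 F] (𝓞 F ⧸ v.asIdeal)) ≠
          Nat.card (R →ₐ[𝓞 F] (𝓞 F ⧸ v.asIdeal))}.Finite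

/-- ORA: homomorphisms do not see a finite index prime to the target (pure algebra) -/
def Stmt_ORA : Prop :=
  ∀ (A : Type) [CommRing A] (B : Type) [CommRing B] [Algebra A B] (R R' : Subalgebra A B)
    (k : Type) [Field k] [Algebra A k] (c : A), R ≤ R' → (∀ b ∈ R', c • b ∈ R) →
    algebraMap A k c ≠ 0 → Nat.card (R →ₐ[A] k) = Nat.card (R' →ₐ[A] k)

/-- ORB: homomorphisms of a finite product to a field (pure algebra) -/
def Stmt_ORB : Prop :=
  ∀ (A : Type) [CommRing A] (n : ℕ) (S : Fin n → Type) [∀ j, CommRing (S j)]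
    [∀ j, Algebra A (S j)] (k : Type) [Field k] [Algebra A k],
    (∀ j, Finite (S j →ₐ[A] k)) →
    Nat.card ((∀ j, S j) →ₐ[A] k) = ∑ j, Nat.card (S j →ₐ[A] k)

/-- ORD: homomorphisms of an order in a finite reduced algebra (from ORA, ORB) -/
def Stmt_ORD : Prop :=
  ∀ (F : Type) [Field F] [NumberField F] (B : Type) [CommRing B] [Algebra F B] [Module.Finite F B]
    [IsReduced B] (R : Subalgebra (𝓞 F) B), Module.Finite (𝓞 F) R →
    (∀ b : B, ∃ c : 𝓞 F, c ≠ 0 ∧ c • b ∈ R) →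
    ∃ (L : Fin (Nat.card (PrimeSpectrum B)) → Type) (_ : ∀ j, Field (L j))
      (_ : ∀ j, NumberField (L j)) (_ : ∀ j, Algebra F (L j)),
      {v : HeightOneSpectrum (𝓞 F) |
        Nat.card (R →ₐ[𝓞 F] (𝓞 F ⧸ v.asIdeal)) ≠
          ∑ j, Nat.card (𝓞 (L j) →ₐ[𝓞 F] (𝓞 F ⧸ v.asIdeal))}.Finite

/-- DG1: primes of relative degree at least two are rare -/
def Stmt_DG1 : Prop :=
  ∀ (F : Type) [Field F] [NumberField F] (K : Type) [Field K] [NumberField K] [Algebra F K],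
    ∃ C : ℝ, ∀ x : ℝ, 1 ≤ x →
      |(∑ v ∈ upTo F x, (degOne F K v : ℝ)) - ((upTo K x).card : ℝ)| ≤ C * Real.sqrt x

/-- DGB: at most `[K : F]` primes above `v` -/
def Stmt_DGB : Prop :=
  ∀ (F : Type) [Field F] [NumberField F] (K : Type) [Field K] [NumberField K] [Algebra F K]
    (v : HeightOneSpectrum (𝓞 F)),
    {w : HeightOneSpectrum (𝓞 K) | below F w = v}.Finite ∧
    {w : HeightOneSpectrum (𝓞 K) | below F w = v}.ncard ≤ Module.finrank F K ∧
    degOne F K v ≤ Module.finrank F K ∧ degOne F F v = 1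

/-- RDC: the tensor product of number fields is reduced, and finite over `F` -/
def Stmt_RDC : Prop :=
  ∀ (F : Type) [Field F] [NumberField F] (K₁ : Type) [Field K₁] [NumberField K₁] [Algebra F K₁]
    (K₂ : Type) [Field K₂] [NumberField K₂] [Algebra F K₂],
    IsReduced (K₁ ⊗[F] K₂) ∧ Module.Finite F (K₁ ⊗[F] K₂) ∧
    0 < Nat.card (PrimeSpectrum (K₁ ⊗[F] K₂)) ∧
    (IsField (K₁ ⊗[F] K₂) → Nat.card (PrimeSpectrum (K₁ ⊗[F] K₂)) = 1)

/-- MEA: mean values of `e_K` and of `e_K e_K'` (from HOM, TEN, ORD, DG1, DGB, RDC, PIT) -/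
def Stmt_MEA : Prop :=
  ∀ (F : Type) [Field F] [NumberField F],
    (∀ (K : Type) [Field K] [NumberField K] [Algebra F K],
      Tendsto (fun x : ℝ => (∑ v ∈ upTo F x, (degOne F K v : ℝ)) * Real.log x / x) atTop (𝓝 1)) ∧
    ∀ (K₁ : Type) [Field K₁] [NumberField K₁] [Algebra F K₁]
      (K₂ : Type) [Field K₂] [NumberField K₂] [Algebra F K₂],
      Tendsto (fun x : ℝ => (∑ v ∈ upTo F x, (degOne F K₁ v : ℝ) * (degOne F K₂ v : ℝ)) *
        Real.log x / x) atTop (𝓝 (Nat.card (PrimeSpectrum (K₁ ⊗[F] K₂)) : ℝ))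

/-- RED: the reduction of the curve at a prime of relative degree one -/
def Stmt_RED : Prop :=
  ∀ (F : Type) [Field F] [NumberField F] (K : Type) [Field K] [NumberField K] [Algebra F K]
    (f : (𝓞 F)[X]) (w : HeightOneSpectrum (𝓞 K)),
    absNorm w.asIdeal = absNorm (below F w).asIdeal →
    (w ∈ goodPrimes (f.map (algebraMap (𝓞 F) (𝓞 K))) 1 ↔ below F w ∈ goodPrimes f 1) ∧
    frobTrace (f.map (algebraMap (𝓞 F) (𝓞 K))) 1 w = frobTrace f 1 (below F w) ∧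
    frobSecond (f.map (algebraMap (𝓞 F) (𝓞 K))) 1 w = frobSecond f 1 (below F w)

/-- the value of the test function at the prime `v` of `F` (zero at the bad primes) -/
noncomputable def gv (F : Type) [Field F] [NumberField F] (f : (𝓞 F)[X])
    (G : HeightOneSpectrum (𝓞 F) → ℝ → ℝ → ℝ) (v : HeightOneSpectrum (𝓞 F)) : ℝ :=
  open Classical in
  if v ∈ goodPrimes f 1 then
    G v (frobTrace f 1 v / Real.sqrt (nrm v)) (frobSecond f 1 v / nrm v) else 0

/-- AVG: the average over `K` is the mean of `e_K g` (from DG1, RED, PIT) -/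
def Stmt_AVG : Prop :=
  ∀ (F : Type) [Field F] [NumberField F] (K : Type) [Field K] [NumberField K] [Algebra F K]
    (f : (𝓞 F)[X]), (f.natDegree = 5 ∨ f.natDegree = 6) →
    (f.map (algebraMap (𝓞 F) F)).Separable →
    ∀ (G : HeightOneSpectrum (𝓞 F) → ℝ → ℝ → ℝ) (M : ℝ), (∀ v a b, |G v a b| ≤ M) →
    Tendsto (fun x : ℝ => stAverage F K f G x -
      (∑ v ∈ upTo F x, (degOne F K v : ℝ) * gv F f G v) * Real.log x / x) atTop (𝓝 0)

/-- BES: Bessel's inequality for asymptotically orthogonal functions, and the convergence of the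
mean (pure analysis). `T x` finite sets, `c x ≥ 0` weights, `e i` the functions `e_{K_i}`. -/
def Stmt_BES : Prop :=
  ∀ (V : Type) (T : ℝ → Finset V) (c : ℝ → ℝ) (M : ℝ) (g : V → ℝ) (ι : Type) (e : ι → V → ℝ)
    (r : ι → ℝ) (l : Filter ℝ) (L : ι → ℝ), l.NeBot → (∀ v, |g v| ≤ M) → (∀ x, 0 ≤ c x) →
    (∀ i, 1 ≤ r i) →
    Tendsto (fun x => c x * (T x).card) l (𝓝 1) →
    (∀ i, Tendsto (fun x => c x * ∑ v ∈ T x, e i v) l (𝓝 1)) →
    (∀ i j, i ≠ j → Tendsto (fun x => c x * ∑ v ∈ T x, e i v * e j v) l (𝓝 1)) →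
    (∀ i, Tendsto (fun x => c x * ∑ v ∈ T x, e i v * e i v) l (𝓝 (r i))) →
    (∀ i, Tendsto (fun x => c x * ∑ v ∈ T x, e i v * g v) l (𝓝 (L i))) →
    (∀ L₀, Tendsto (fun x => c x * ∑ v ∈ T x, g v) l (𝓝 L₀) →
      Summable (fun i => (L i - L₀) ^ 2 / (r i - 1)) ∧
      L₀ ^ 2 + ∑' i, (L i - L₀) ^ 2 / (r i - 1) ≤ M ^ 2) ∧
    ((¬ Summable fun i => 1 / (r i - 1)) →
      ∃ L₀, Tendsto (fun x => c x * ∑ v ∈ T x, g v) l (𝓝 L₀))

/-- FIN: the theorem (from MEA, AVG, BES, PIT, DGB, RDC) -/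
def Stmt_FIN : Prop :=
  ∀ (F : Type) [Field F] [NumberField F] (f : (𝓞 F)[X]),
    (f.natDegree = 5 ∨ f.natDegree = 6) → (f.map (algebraMap (𝓞 F) F)).Separable →
    ∀ (G : HeightOneSpectrum (𝓞 F) → ℝ → ℝ → ℝ) (M : ℝ), (∀ v a b, |G v a b| ≤ M) →
    ∀ (ι : Type) (K : ι → Type) [∀ i, Field (K i)] [∀ i, NumberField (K i)]
      [∀ i, Algebra F (K i)], (∀ i j, i ≠ j → IsField (K i ⊗[F] K j)) →
    ∀ (l : Filter ℝ), l.NeBot → l ≤ atTop → ∀ (L : ι → ℝ),
    (∀ i, Tendsto (stAverage F (K i) f G) l (𝓝 (L i))) →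
    (∀ L₀, Tendsto (stAverage F F f G) l (𝓝 L₀) →
      Summable (fun i => (L i - L₀) ^ 2 / ((Nat.card (PrimeSpectrum (K i ⊗[F] K i)) : ℝ) - 1)) ∧
      L₀ ^ 2 + ∑' i, (L i - L₀) ^ 2 / ((Nat.card (PrimeSpectrum (K i ⊗[F] K i)) : ℝ) - 1) ≤
        M ^ 2) ∧
    ((¬ Summable fun i => 1 / ((Nat.card (PrimeSpectrum (K i ⊗[F] K i)) : ℝ) - 1)) →
      ∃ L₀, Tendsto (stAverage F F f G) l (𝓝 L₀))

end Pool.DS
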