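import Pool.Agent.Work.MP_6dc561_ds.Interface
import Pool.Agent.Work.MP_6dc561_nt.Orth

/-!
# Block statements, second part: quadratic twists
-/

set_option autoImplicit false

open NumberField IsDedekindDomain Ideal Polynomial Filter Topology
open scoped TensorProduct

namespace Pool.DS

open Pool.Agent.Work.MP_6dc561_nt

/-- The average over the primes `v` of `F` of good reduction of the twist `d y² = f(x)` with norm at
most `x` of `G (v, a_v/√q_v, b_v/q_v)`, where `T⁴ - a_v T³ + b_v T² - q_v a_v T + q_v²` is the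
Frobenius polynomial of the twist at `v`. -/
noncomputable def twAverage (F : Type) [Field F] [NumberField F] (f : (𝓞 F)[X]) (d : 𝓞 F)
    (G : HeightOneSpectrum (𝓞 F) → ℝ → ℝ → ℝ) (x : ℝ) : ℝ :=
  (∑ᶠ v ∈ goodUpTo f d x, G v (frobTrace f d v / Real.sqrt (nrm v)) (frobSecond f d v / nrm v)) /
    ((goodUpTo f d x).ncard : ℝ)

/-- The even part of the test function `G`. -/
noncomputable def evenPart {V : Type} (G : V → ℝ → ℝ → ℝ) (v : V) (a b : ℝ) : ℝ :=
  (G v a b + G v (-a) b) / 2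

/-- QCH: quadratic characters have mean zero in natural density (from MEA and DGB) -/
def Stmt_QCH : Prop :=
  ∀ (F : Type) [Field F] [NumberField F] (d : 𝓞 F), ¬ IsSquare (d : F) →
    Tendsto (fun x : ℝ => (∑ v ∈ upTo F x, chi d v) * Real.log x / x) atTop (𝓝 0)

/-- TWB: all twists have the same limits up to an `ℓ²` error (from QCH, BES, PIT) -/
def Stmt_TWB : Prop :=
  ∀ (F : Type) [Field F] [NumberField F] (f : (𝓞 F)[X]),
    (f.natDegree = 5 ∨ f.natDegree = 6) → (f.map (algebraMap (𝓞 F) F)).Separable →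
    ∀ (G : HeightOneSpectrum (𝓞 F) → ℝ → ℝ → ℝ) (M : ℝ), (∀ v a b, |G v a b| ≤ M) →
    ∀ (ι : Type) (d : ι → 𝓞 F), (∀ i, d i ≠ 0) →
    (∀ i j, i ≠ j → ¬ IsSquare ((d i * d j : 𝓞 F) : F)) →
    ∀ (l : Filter ℝ), l.NeBot → l ≤ atTop → ∀ (T : ι → ℝ),
    (∀ i, Tendsto (twAverage F f (d i) G) l (𝓝 (T i))) →
    (∀ E, Tendsto (stAverage F F f (evenPart G)) l (𝓝 E) →
      Summable (fun i => (T i - E) ^ 2) ∧ E ^ 2 + ∑' i, (T i - E) ^ 2 ≤ M ^ 2) ∧
    (Infinite ι → ∃ E, Tendsto (stAverage F F f (evenPart G)) l (𝓝 E))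

end Pool.DS
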