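import Pool.Agent.Work.MP_6dc561_ds.Interface

/-!
# Assembly (compiled): the order of the dependencies
-/

set_option autoImplicit false

namespace Pool.DS

theorem assembly
    (hTHK : Stmt_THK) (hCNT : Stmt_CNT) (hFRO : Stmt_FRO)
    (hIDC : Stmt_THK → Stmt_CNT → Stmt_FRO → Stmt_IDC) (hIDL : Stmt_IDC → Stmt_IDL)
    (hANC : Stmt_ANC) (hVMA : Stmt_VMA) (hVMC : Stmt_VMC)
    (hLDZ : Stmt_IDL → Stmt_ANC → Stmt_VMA → Stmt_VMC → Stmt_LDZ)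
    (hNVL : Stmt_VMA → Stmt_LDZ → Stmt_NVL)
    (hPSI : Stmt_IDL → Stmt_ANC → Stmt_VMA → Stmt_LDZ → Stmt_NVL → Stmt_PSI)
    (hPIT : Stmt_VMA → Stmt_PSI → Stmt_PIT)
    (hHOM : Stmt_HOM) (hTEN : Stmt_TEN) (hORA : Stmt_ORA) (hORB : Stmt_ORB)
    (hORD : Stmt_ORA → Stmt_ORB → Stmt_ORD) (hDG1 : Stmt_DG1) (hDGB : Stmt_DGB)
    (hRDC : Stmt_RDC)
    (hMEA : Stmt_HOM → Stmt_TEN → Stmt_ORD → Stmt_DG1 → Stmt_DGB → Stmt_RDC → Stmt_PIT → Stmt_MEA)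
    (hRED : Stmt_RED) (hAVG : Stmt_DG1 → Stmt_RED → Stmt_PIT → Stmt_AVG) (hBES : Stmt_BES)
    (hFIN : Stmt_MEA → Stmt_AVG → Stmt_BES → Stmt_PIT → Stmt_DGB → Stmt_RDC → Stmt_FIN) :
    Stmt_FIN := by
  have i := hIDL (hIDC hTHK hCNT hFRO)
  have l := hLDZ i hANC hVMA hVMC
  have p := hPIT hVMA (hPSI i hANC hVMA l (hNVL hVMA l))
  exact hFIN (hMEA hHOM hTEN (hORD hORA hORB) hDG1 hDGB hRDC p) (hAVG hDG1 hRED p) hBES p hDGB hRDC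

end Pool.DS
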