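import Pool.Agent.Work.MP_6dc561_ds.Interface

/-!
MP_6dc561_nt, block NVL: the Dedekind zeta function does not vanish on the line `Re s = 1`.
-/

set_option autoImplicit false

open NumberField Filter Topology

namespace Pool.DS.NVL

/-- Near a zero of order `m` the logarithmic derivative is `m / (s - s₀)` plus a bounded term. -/
theorem tendsto_mul_logDeriv {Z : ℂ → ℂ} {s₀ : ℂ} (hZ : AnalyticAt ℂ Z s₀) {ι : Type}
    {l : Filter ι} [l.NeBot] {u : ι → ℂ} (hu : Tendsto u l (𝓝[≠] s₀))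
    (hne : ∀ᶠ x in l, Z (u x) ≠ 0) :
    ∃ m : ℕ, (Z s₀ = 0 → 1 ≤ m) ∧
      Tendsto (fun x => (u x - s₀) * (deriv Z (u x) / Z (u x))) l (𝓝 (m : ℂ)) := by
  have h1 : ¬ ∀ᶠ z in 𝓝 s₀, Z z = 0 := by
    intro h
    have h2 : ∀ᶠ x in l, Z (u x) = 0 := (hu.mono_right nhdsWithin_le_nhds).eventually h
    obtain ⟨x, hx, hx'⟩ := (h2.and hne).exists
    exact hx' hx
  obtain ⟨m, g, hg, hg0, hE⟩ := hZ.exists_eventuallyEq_pow_smul_nonzero_iff.2 h1
  refine ⟨m, ?_, ?_⟩
  · intro h0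
    by_contra hm
    have hm0 : m = 0 := by omega
    have := hE.self_of_nhds
    rw [hm0, h0] at this
    simp at this
    exact hg0 this.symm
  · have hdE : ∀ᶠ z in 𝓝 s₀, deriv Z z = m * (z - s₀) ^ (m - 1) * g z + (z - s₀) ^ m * deriv g z := by
      have h3 : Z =ᶠ[𝓝 s₀] fun z => (z - s₀) ^ m * g z := by
        filter_upwards [hE] with z hz
        simpa [smul_eq_mul] using hz
      filter_upwards [h3.deriv, hg.eventually_analyticAt] with z hz hgz
      rw [hz]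
      have hd1 : HasDerivAt (fun z : ℂ => (z - s₀) ^ m) (m * (z - s₀) ^ (m - 1) * 1) z :=
        ((hasDerivAt_id z).sub_const s₀).pow m
      have hd2 := hgz.differentiableAt.hasDerivAt
      have := (hd1.mul hd2).deriv
      rw [mul_one] at this
      exact this
    have hgne : ∀ᶠ z in 𝓝 s₀, g z ≠ 0 := hg.continuousAt.eventually_ne hg0
    have hlim : Tendsto (fun z => (m : ℂ) + (z - s₀) * (deriv g z / g z)) (𝓝 s₀) (𝓝 (m : ℂ)) := by
      have hc : ContinuousAt (fun z => (m : ℂ) + (z - s₀) * (deriv g z / g z)) s₀ := by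
        apply ContinuousAt.add continuousAt_const
        apply ContinuousAt.mul (continuousAt_id.sub continuousAt_const)
        exact hg.deriv.continuousAt.div hg.continuousAt hg0
      have := hc.tendsto
      simpa using this
    have hev : ∀ᶠ z in 𝓝[≠] s₀, (z - s₀) * (deriv Z z / Z z) =
        (m : ℂ) + (z - s₀) * (deriv g z / g z) := by
      filter_upwards [nhdsWithin_le_nhds hE, nhdsWithin_le_nhds hdE, nhdsWithin_le_nhds hgne,
        self_mem_nhdsWithin] with z h4 h5 h6 h7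
      have h8 : z - s₀ ≠ 0 := sub_ne_zero.2 h7
      rw [h4, h5, smul_eq_mul]
      have h9 : (z - s₀) ^ m ≠ 0 := pow_ne_zero _ h8
      rcases Nat.eq_zero_or_pos m with hm | hm
      · subst hm
        simp
      · have h10 : (z - s₀) ^ m = (z - s₀) ^ (m - 1) * (z - s₀) := by
          rw [← pow_succ]; congr 1; omega
        rw [h10]
        have h11 : (z - s₀) ^ (m - 1) ≠ 0 := pow_ne_zero _ h8
        field_simp
    have h12 := (hlim.mono_left nhdsWithin_le_nhds).congr'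
      (hev.mono fun z hz => hz.symm)
    exact h12.comp hu

/-- The behaviour at the simple pole. -/
theorem tendsto_mul_logDeriv_pole {H : ℂ → ℂ} {κ : ℂ} (hκ : κ ≠ 0) (hH : AnalyticAt ℂ H 1)
    {ι : Type} {l : Filter ι} {u : ι → ℂ} (hu : Tendsto u l (𝓝[≠] 1)) :
    Tendsto (fun x => (u x - 1) * (deriv (fun s => κ / (s - 1) + H s) (u x) /
      (κ / (u x - 1) + H (u x)))) l (𝓝 (-1 : ℂ)) := by
  have hlim : Tendsto (fun z => (-κ + (z - 1) ^ 2 * deriv H z) / (κ + (z - 1) * H z)) (𝓝 (1 : ℂ))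
      (𝓝 (-1 : ℂ)) := by
    have hc : ContinuousAt (fun z => (-κ + (z - 1) ^ 2 * deriv H z) / (κ + (z - 1) * H z))
        (1 : ℂ) := by
      apply ContinuousAt.div
      · apply ContinuousAt.add continuousAt_const
        exact ((continuousAt_id.sub continuousAt_const).pow 2).mul hH.deriv.continuousAt
      · apply ContinuousAt.add continuousAt_const
        exact (continuousAt_id.sub continuousAt_const).mul hH.continuousAt
      · simpa using hκ
    have := hc.tendsto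
    simpa [neg_div, hκ] using this
  have hev : ∀ᶠ z in 𝓝[≠] (1 : ℂ), (-κ + (z - 1) ^ 2 * deriv H z) / (κ + (z - 1) * H z) =
      (z - 1) * (deriv (fun s => κ / (s - 1) + H s) z / (κ / (z - 1) + H z)) := by
    filter_upwards [nhdsWithin_le_nhds hH.eventually_analyticAt, self_mem_nhdsWithin] with z h1 h2
    have h3 : z - 1 ≠ 0 := sub_ne_zero.2 h2
    have hd : HasDerivAt (fun s : ℂ => κ / (s - 1) + H s) ((0 * (z - 1) - κ * 1) / (z - 1) ^ 2 +
        deriv H z) z :=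
      ((hasDerivAt_const z κ).div ((hasDerivAt_id z).sub_const 1) h3).add
        h1.differentiableAt.hasDerivAt
    rw [hd.deriv]
    have h4 : κ / (z - 1) + H z = (κ + (z - 1) * H z) / (z - 1) := by
      field_simp
    have h5 : (0 * (z - 1) - κ * 1) / (z - 1) ^ 2 + deriv H z =
        (-κ + (z - 1) ^ 2 * deriv H z) / (z - 1) ^ 2 := by
      field_simp
      ring
    rw [h4, h5]
    by_cases h6 : κ + (z - 1) * H z = 0
    · rw [h6]; simp
    · field_simp
  exact ((hlim.mono_left nhdsWithin_le_nhds).congr' hev).comp hu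

/-- The inequality `3 + 4 cos a + cos 2a ≥ 0`, one term of the Dirichlet series. -/
theorem term_nonneg (f : ℕ → ℝ) (hf : ∀ n, 0 ≤ f n) (σ t : ℝ) (n : ℕ) :
    0 ≤ (3 * LSeries.term (fun n => (f n : ℂ)) (σ : ℂ) n +
      4 * LSeries.term (fun n => (f n : ℂ)) ((σ : ℂ) + t * Complex.I) n +
      LSeries.term (fun n => (f n : ℂ)) ((σ : ℂ) + (2 * t : ℝ) * Complex.I) n).re := by
  rcases Nat.eq_zero_or_pos n with hn | hn
  · subst hn
    simp
  · have hn0 : n ≠ 0 := hn.ne'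
    have hnc : (n : ℂ) ≠ 0 := Nat.cast_ne_zero.2 hn0
    rw [LSeries.term_of_ne_zero hn0, LSeries.term_of_ne_zero hn0, LSeries.term_of_ne_zero hn0]
    set w : ℂ := (n : ℂ) ^ ((-t : ℝ) * Complex.I) with hw
    have hwn : ‖w‖ = 1 := by
      rw [hw, Complex.norm_natCast_cpow_of_pos hn]
      simp
    have e1 : (n : ℂ) ^ ((σ : ℂ)) = ((n : ℝ) ^ σ : ℝ) := by
      rw [Complex.ofReal_cpow (Nat.cast_nonneg n)]
      simp
    have hp : (0 : ℝ) < (n : ℝ) ^ σ := Real.rpow_pos_of_pos (Nat.cast_pos.2 hn) _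
    have e2 : (f n : ℂ) / (n : ℂ) ^ ((σ : ℂ) + t * Complex.I) =
        ((f n / (n : ℝ) ^ σ : ℝ) : ℂ) * w := by
      rw [Complex.cpow_add _ _ hnc, e1, div_mul_eq_div_div, hw]
      have : (n : ℂ) ^ (((-t : ℝ) : ℂ) * Complex.I) = ((n : ℂ) ^ ((t : ℂ) * Complex.I))⁻¹ := by
        rw [← Complex.cpow_neg]
        congr 1
        push_cast
        ring
      rw [this, Complex.ofReal_div, div_eq_mul_inv]
    have e3 : (f n : ℂ) / (n : ℂ) ^ ((σ : ℂ) + (2 * t : ℝ) * Complex.I) =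
        ((f n / (n : ℝ) ^ σ : ℝ) : ℂ) * w ^ 2 := by
      rw [Complex.cpow_add _ _ hnc, e1, div_mul_eq_div_div, hw]
      have : ((n : ℂ) ^ (((-t : ℝ) : ℂ) * Complex.I)) ^ 2 =
          ((n : ℂ) ^ (((2 * t : ℝ) : ℂ) * Complex.I))⁻¹ := by
        rw [← Complex.cpow_neg, ← Complex.cpow_nat_mul]
        congr 1
        push_cast
        ring
      rw [this, Complex.ofReal_div, div_eq_mul_inv]
    rw [e1, e2, e3]
    have hr : 0 ≤ f n / (n : ℝ) ^ σ := div_nonneg (hf n) hp.le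
    have e4 : 3 * ((f n : ℂ) / (((n : ℝ) ^ σ : ℝ) : ℂ)) + 4 * (((f n / (n : ℝ) ^ σ : ℝ) : ℂ) * w) +
        ((f n / (n : ℝ) ^ σ : ℝ) : ℂ) * w ^ 2 =
        ((f n / (n : ℝ) ^ σ : ℝ) : ℂ) * (3 + 4 * w + w ^ 2) := by
      rw [Complex.ofReal_div]
      ring
    rw [e4, Complex.re_ofReal_mul]
    apply mul_nonneg hr
    have h1 : w.re ^ 2 + w.im ^ 2 = 1 := by
      have := Complex.sq_norm w
      rw [hwn, Complex.normSq_apply] at this
      nlinarith
    have h2 : (3 + 4 * w + w ^ 2).re = 3 + 4 * w.re + (w.re ^ 2 - w.im ^ 2) := by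
      simp [pow_two]
    rw [h2]
    nlinarith [sq_nonneg (1 + w.re)]

/-- The sum of the inequalities. -/
theorem sum_nonneg (f : ℕ → ℝ) (hf : ∀ n, 0 ≤ f n) (σ t : ℝ)
    (h1 : LSeriesSummable (fun n => (f n : ℂ)) (σ : ℂ))
    (h2 : LSeriesSummable (fun n => (f n : ℂ)) ((σ : ℂ) + t * Complex.I))
    (h3 : LSeriesSummable (fun n => (f n : ℂ)) ((σ : ℂ) + (2 * t : ℝ) * Complex.I)) :
    0 ≤ (3 * LSeries (fun n => (f n : ℂ)) (σ : ℂ) +
      4 * LSeries (fun n => (f n : ℂ)) ((σ : ℂ) + t * Complex.I) +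
      LSeries (fun n => (f n : ℂ)) ((σ : ℂ) + (2 * t : ℝ) * Complex.I)).re := by
  have hs := ((h1.LSeriesHasSum.mul_left 3).add (h2.LSeriesHasSum.mul_left 4)).add
    h3.LSeriesHasSum
  exact HasSum.nonneg (fun n => term_nonneg f hf σ t n) (Complex.hasSum_re hs)

end Pool.DS.NVL

namespace Pool.DS

open NVL

theorem stmt_NVL (hVMA : Stmt_VMA) (hLDZ : Stmt_LDZ) : Stmt_NVL := by
  intro K _ _ θ H hθ hH hZ t ht hzero
  set κ : ℂ := (dedekindZeta_residue K : ℂ) with hκd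
  have hκ : κ ≠ 0 := by
    rw [hκd]
    exact_mod_cast dedekindZeta_residue_ne_zero K
  set Z : ℂ → ℂ := fun s => κ / (s - 1) + H s with hZd
  have hopen : IsOpen {s : ℂ | θ < s.re} := isOpen_lt continuous_const Complex.continuous_re
  have hHa : ∀ s : ℂ, θ < s.re → AnalyticAt ℂ H s := fun s hs =>
    hH.analyticAt (hopen.mem_nhds hs)
  have hZa : ∀ s : ℂ, θ < s.re → s ≠ 1 → AnalyticAt ℂ Z s := by
    intro s hs hs1
    apply AnalyticAt.add _ (hHa s hs)
    exact analyticAt_const.div (analyticAt_id.sub analyticAt_const) (sub_ne_zero.2 hs1)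
  have hZe : ∀ s : ℂ, 1 < s.re → Z s = dedekindZeta K s := fun s hs => (hZ s hs).symm
  have hopen1 : IsOpen {s : ℂ | 1 < s.re} := isOpen_lt continuous_const Complex.continuous_re
  have hZd : ∀ s : ℂ, 1 < s.re → deriv Z s = deriv (dedekindZeta K) s := by
    intro s hs
    apply Filter.EventuallyEq.deriv_eq
    filter_upwards [hopen1.mem_nhds hs] with z hz
    exact hZe z hz
  have hL : ∀ s : ℂ, 1 < s.re → LSeries (fun n => (LamK K n : ℂ)) s = - (deriv Z s / Z s) := by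
    intro s hs
    rw [(hLDZ K s hs).2.2.2, hZe s hs, hZd s hs, neg_div]
  have hZne : ∀ s : ℂ, 1 < s.re → Z s ≠ 0 := by
    intro s hs
    rw [hZe s hs]
    exact (hLDZ K s hs).2.1
  -- the three sequences
  have hre : ∀ a : ℝ, ∀ σ : ℝ, ((σ : ℂ) + (a : ℂ) * Complex.I).re = σ := by
    intro a σ
    simp
  have hu : ∀ a : ℝ, Tendsto (fun σ : ℝ => (σ : ℂ) + (a : ℂ) * Complex.I) (𝓝[>] 1)
      (𝓝[≠] (1 + (a : ℂ) * Complex.I)) := by
    intro a
    apply tendsto_nhdsWithin_iff.2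
    refine ⟨?_, ?_⟩
    · have : Continuous (fun σ : ℝ => (σ : ℂ) + (a : ℂ) * Complex.I) := by fun_prop
      have h2 := this.tendsto 1
      simp only [Complex.ofReal_one] at h2
      exact h2.mono_left nhdsWithin_le_nhds
    · filter_upwards [self_mem_nhdsWithin] with σ hσ
      intro h
      have := congrArg Complex.re h
      simp at this
      exact (ne_of_gt hσ) this
  have hs1 : ∀ᶠ σ : ℝ in 𝓝[>] 1, 1 < σ := by
    filter_upwards [self_mem_nhdsWithin] with σ hσ using hσ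
  have h0 : Tendsto (fun σ : ℝ => ((σ : ℂ) - 1) * (deriv Z (σ : ℂ) / Z (σ : ℂ))) (𝓝[>] 1)
      (𝓝 (-1 : ℂ)) := by
    have h := hu 0
    simp only [Complex.ofReal_zero, zero_mul, add_zero] at h
    exact tendsto_mul_logDeriv_pole hκ (hHa 1 (by simpa using hθ)) h
  have hlim : ∀ a : ℝ, a ≠ 0 → ∃ m : ℕ, (Z (1 + (a : ℂ) * Complex.I) = 0 → 1 ≤ m) ∧
      Tendsto (fun σ : ℝ => ((σ : ℂ) - 1) * (deriv Z ((σ : ℂ) + (a : ℂ) * Complex.I) /
        Z ((σ : ℂ) + (a : ℂ) * Complex.I))) (𝓝[>] 1) (𝓝 (m : ℂ)) := by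
    intro a ha
    have hne1 : (1 + (a : ℂ) * Complex.I) ≠ 1 := by
      intro h
      have := congrArg Complex.im h
      simp at this
      exact ha this
    have hth : θ < (1 + (a : ℂ) * Complex.I).re := by simpa using hθ
    obtain ⟨m, hm, hm2⟩ := tendsto_mul_logDeriv (hZa _ hth hne1) (hu a)
      (by filter_upwards [hs1] with σ hσ; exact hZne _ (by rw [hre]; exact hσ))
    refine ⟨m, hm, ?_⟩
    refine hm2.congr fun σ => ?_
    congr 1
    ring
  obtain ⟨m, hm, hm2⟩ := hlim t ht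
  obtain ⟨m', -, hm2'⟩ := hlim (2 * t) (by simpa using ht)
  have hm1 : 1 ≤ m := by
    apply hm
    have : Z (1 + (t : ℂ) * Complex.I) = κ / ((t : ℂ) * Complex.I) + H (1 + (t : ℂ) * Complex.I) := by
      simp only [Z]
      congr 2
      ring
    rw [this]
    exact hzero
  have hT := ((h0.const_mul (-3)).add (hm2.const_mul (-4))).add (hm2'.const_mul (-1))
  have hTre := (Complex.continuous_re.tendsto _).comp hT
  have hge : ∀ᶠ σ : ℝ in 𝓝[>] 1, 0 ≤ (Complex.re ∘ fun σ : ℝ =>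
      -3 * (((σ : ℂ) - 1) * (deriv Z (σ : ℂ) / Z (σ : ℂ))) +
      -4 * (((σ : ℂ) - 1) * (deriv Z ((σ : ℂ) + (t : ℂ) * Complex.I) /
        Z ((σ : ℂ) + (t : ℂ) * Complex.I))) +
      -1 * (((σ : ℂ) - 1) * (deriv Z ((σ : ℂ) + ((2 * t : ℝ) : ℂ) * Complex.I) /
        Z ((σ : ℂ) + ((2 * t : ℝ) : ℂ) * Complex.I)))) σ := by
    filter_upwards [hs1] with σ hσ
    have r0 : 1 < ((σ : ℂ)).re := by simpa using hσ
    have r1 : 1 < ((σ : ℂ) + (t : ℂ) * Complex.I).re := by rw [hre]; exact hσ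
    have r2 : 1 < ((σ : ℂ) + ((2 * t : ℝ) : ℂ) * Complex.I).re := by rw [hre]; exact hσ
    have hs := sum_nonneg (LamK K) (fun n => (hVMA K n).1) σ t (hLDZ K _ r0).1 (hLDZ K _ r1).1
      (hLDZ K _ r2).1
    rw [hL _ r0, hL _ r1, hL _ r2] at hs
    have e : (-3 * (((σ : ℂ) - 1) * (deriv Z (σ : ℂ) / Z (σ : ℂ))) +
      -4 * (((σ : ℂ) - 1) * (deriv Z ((σ : ℂ) + (t : ℂ) * Complex.I) /
        Z ((σ : ℂ) + (t : ℂ) * Complex.I))) +
      -1 * (((σ : ℂ) - 1) * (deriv Z ((σ : ℂ) + ((2 * t : ℝ) : ℂ) * Complex.I) /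
        Z ((σ : ℂ) + ((2 * t : ℝ) : ℂ) * Complex.I)))) =
      ((σ - 1 : ℝ) : ℂ) * (3 * -(deriv Z (σ : ℂ) / Z (σ : ℂ)) +
        4 * -(deriv Z ((σ : ℂ) + (t : ℂ) * Complex.I) / Z ((σ : ℂ) + (t : ℂ) * Complex.I)) +
        -(deriv Z ((σ : ℂ) + ((2 * t : ℝ) : ℂ) * Complex.I) /
          Z ((σ : ℂ) + ((2 * t : ℝ) : ℂ) * Complex.I))) := by
      push_cast
      ring
    simp only [Function.comp]
    rw [e, Complex.re_ofReal_mul]
    exact mul_nonneg (by linarith) hs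
  have hfin := ge_of_tendsto hTre hge
  simp at hfin
  have hm1' : (1 : ℝ) ≤ m := by exact_mod_cast hm1
  have hm0' : (0 : ℝ) ≤ m' := Nat.cast_nonneg _
  linarith

end Pool.DS
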